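import Mathlib

set_option autoImplicit false

/-!
# Flat cones of metrics on `O(1)` over the projective line: definitions

We work on `X = P¹` with `L = O(1)`.  In the affine chart `ℂ` and the standard frame,
`V k = H⁰(P¹, O(k))` is the space of polynomials of degree `≤ k`, and a metric on `O(1)` is
given by its weight `φ : ℂ → ℝ`, with `|s|²_{kφ} = |s|² e^{-kφ}`.
-/

namespace Pool.Agent.TH599.FC

open Polynomial MeasureTheory Filter Topology

/-- `V k = H⁰(P¹, O(k))`: polynomials of degree at most `k`. -/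
noncomputable def V (k : ℕ) : Submodule ℂ ℂ[X] := degreeLE ℂ k

/-- `φ` is the weight of a continuous positive metric on `O(1)` over `P¹`: it is continuous,
it satisfies the sub-mean value inequality on all circles (that is, it is subharmonic), and
`φ - log (1 + |z|²)` extends continuously to the point at infinity. -/
structure IsPosMetric (φ : ℂ → ℝ) : Prop where
  cont : Continuous φ
  subh : ∀ (z : ℂ) (r : ℝ), 0 < r → φ z ≤ Real.circleAverage φ z r
  infty : ∃ c : ℝ, Tendsto (fun z => φ z - Real.log (1 + ‖z‖ ^ 2)) (cocompact ℂ) (𝓝 c)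

/-- `μ` is the measure of a positive continuous volume form on `P¹`: it has a positive
continuous density `ρ` with respect to Lebesgue measure on the chart `ℂ`, and
`(1 + |z|²)² ρ` has a positive limit at infinity. -/
def IsVolumeForm (μ : Measure ℂ) : Prop :=
  ∃ ρ : ℂ → ℝ, Continuous ρ ∧ (∀ z, 0 < ρ z) ∧
    (∃ c : ℝ, 0 < c ∧ Tendsto (fun z => (1 + ‖z‖ ^ 2) ^ 2 * ρ z) (cocompact ℂ) (𝓝 c)) ∧
    μ = (volume : Measure ℂ).withDensity (fun z => ENNReal.ofReal (ρ z))

/-- A bounded graded filtration of `⊕ₖ V k`: `F l k` is `ℱ^l V_k`. -/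
structure Filtration where
  F : ℝ → ℕ → Submodule ℂ ℂ[X]
  le : ∀ l k, F l k ≤ V k
  anti : ∀ k, Antitone (fun l => F l k)
  leftCont : ∀ l k p, (∀ m < l, p ∈ F m k) → p ∈ F l k
  mul : ∀ l m k j p q, p ∈ F l k → q ∈ F m j → p * q ∈ F (l + m) (k + j)
  C : ℝ
  all : ∀ l (k : ℕ), l ≤ -C * k → F l k = V k
  none : ∀ l (k : ℕ), C * k < l → F l k = ⊥

/-- `s` is a basis of `V k`, orthonormal for `∫ p q̄ e^{-kφ} dμ` and adapted to the filtration,
with jumping numbers `lam` (in increasing order, with multiplicity). -/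
structure IsAdaptedBasis (φ : ℂ → ℝ) (μ : Measure ℂ) (F : Filtration) (k : ℕ)
    (s : Fin (k + 1) → ℂ[X]) (lam : Fin (k + 1) → ℝ) : Prop where
  mem : ∀ i, s i ∈ V k
  orth : ∀ i j, ∫ z, (s i).eval z * (starRingEnd ℂ) ((s j).eval z) *
    ((Real.exp (-(k * φ z)) : ℝ) : ℂ) ∂μ = if i = j then 1 else 0
  mono : Monotone lam
  adapted : ∀ l, F.F l k = Submodule.span ℂ {p | ∃ j, l ≤ lam j ∧ p = s j}

/-- The support of a measure on the line. -/
def supp (σ : Measure ℝ) : Set ℝ := {x | ∀ U ∈ 𝓝 x, 0 < σ U}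

/-- The left end of (the interval) `supp σ`. -/
noncomputable def lo (σ : Measure ℝ) : ℝ := sInf (supp σ)

/-- The right end of (the interval) `supp σ`. -/
noncomputable def hi (σ : Measure ℝ) : ℝ := sSup (supp σ)

/-- `σ` is the Duistermaat-Heckman measure of the filtration: the weak limit of
`k⁻¹ ∑ᵢ δ_{λ_{i,k}/k}`, where `lam k` lists the jumping numbers of `F` on `V k`. -/
def IsDH (F : Filtration) (σ : Measure ℝ) : Prop :=
  IsFiniteMeasure σ ∧ ∃ lam : (k : ℕ) → Fin (k + 1) → ℝ,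
    (∀ k, Monotone (lam k)) ∧
    (∀ k l, Module.finrank ℂ (F.F l k) = (Finset.univ.filter (fun j => l ≤ lam k j)).card) ∧
    ∀ g : BoundedContinuousFunction ℝ ℝ,
      Tendsto (fun k : ℕ => (1 / (k : ℝ)) * ∑ j, g (lam k j / k)) atTop (𝓝 (∫ x, g x ∂σ))

/-- `f` is an element of `𝒞(ℱ)`: a bounded, convex, decreasing function on the interval
`supp σ = [lo σ, hi σ]`.  Since finitely many `λ_{i,k}/k` may lie outside `supp σ`, we let `f` be
defined on the whole line; outside `supp σ` it may be any bounded decreasing function that is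
continuous on `(-∞, lo σ]`, for instance the extension by the end values. -/
structure InCone (σ : Measure ℝ) (f : ℝ → ℝ) : Prop where
  convex : ConvexOn ℝ (Set.Icc (lo σ) (hi σ)) f
  decr : Antitone f
  bdd : ∃ B, ∀ x, |f x| ≤ B
  left : ContinuousOn f (Set.Iic (lo σ))

/-- `f` has no jump at the left end of `supp σ` and is extended to the left by its end value
(used only for the sign `τ = 1`). -/
def NoJump (σ : Measure ℝ) (f : ℝ → ℝ) : Prop :=
  ContinuousAt f (lo σ) ∧ ∀ x ≤ lo σ, f x = f (lo σ)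

/-- `φ_k^f = k⁻¹ log ∑ᵢ |s_{k,i}|² e^{τ k f(λ_{i,k}/k)}`, where `τ = -1` is the sign for which
`f ↦ φ^f` is the isometric embedding of the problem, and `τ = 1` is the sign printed there. -/
noncomputable def phik (τ : ℝ) (f : ℝ → ℝ) (k : ℕ) (s : Fin (k + 1) → ℂ[X])
    (lam : Fin (k + 1) → ℝ) (z : ℂ) : ℝ :=
  1 / (k : ℝ) * Real.log (∑ i, ‖(s i).eval z‖ ^ 2 * Real.exp (τ * (k * f (lam i / k))))

/-- `ψ` is the upper semicontinuous regularisation of `limsupₖ uₖ`. -/
def IsUscLim (u : ℕ → ℂ → ℝ) (ψ : ℂ → ℝ) : Prop :=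
  ∀ z, limsup (fun w => limsup (fun k => ((u k w : ℝ) : EReal)) atTop) (𝓝 z) = ((ψ z : ℝ) : EReal)

end Pool.Agent.TH599.FC
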