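import Pool.Agent.TH599.FC.Sub
import Pool.Agent.TH599.FC.Defs

set_option autoImplicit false

/-! The metrics `4 log |c + √z|`. -/

namespace Pool.Agent.TH599.FC

open MeasureTheory Set Metric Real Polynomial Filter Topology

/-- The weight `4 log |c + √z|`. -/
noncomputable def met (c : ℝ) (z : ℂ) : ℝ :=
  2 * Real.log (c ^ 2 + ‖z‖ + c * √(2 * (‖z‖ + z.re)))

lemma csqrt_sq (z : ℂ) : Complex.sqrt z ^ 2 = z := Complex.cpow_ofNat_inv_pow z 2

lemma csqrt_re (z : ℂ) : (Complex.sqrt z).re = √((‖z‖ + z.re) / 2) := Complex.cpow_inv_two_re z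

lemma csqrt_re_nonneg (z : ℂ) : 0 ≤ (Complex.sqrt z).re := by
  rw [csqrt_re]
  exact Real.sqrt_nonneg _

lemma csqrt_re_pos {z : ℂ} (hz : z ∈ Complex.slitPlane) : 0 < (Complex.sqrt z).re := by
  rw [csqrt_re]
  apply Real.sqrt_pos.2
  rw [Complex.mem_slitPlane_iff] at hz
  rcases hz with h | h
  · have := norm_nonneg z
    linarith
  · have h1 := Complex.abs_re_lt_norm.2 h
    have h2 := (abs_lt.1 h1).1
    linarith

lemma norm_add_sq_eq (c : ℝ) (w : ℂ) : ‖(c:ℂ) + w‖ ^ 2 = c ^ 2 + 2 * c * w.re + ‖w‖ ^ 2 := by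
  rw [← Complex.normSq_eq_norm_sq, ← Complex.normSq_eq_norm_sq, Complex.normSq_apply,
    Complex.normSq_apply]
  simp only [Complex.add_re, Complex.ofReal_re, Complex.add_im, Complex.ofReal_im, zero_add]
  ring

lemma norm_sub_sq_eq (c : ℝ) (w : ℂ) : ‖(c:ℂ) - w‖ ^ 2 = c ^ 2 - 2 * c * w.re + ‖w‖ ^ 2 := by
  have := norm_add_sq_eq c (-w)
  rw [← sub_eq_add_neg, norm_neg, Complex.neg_re] at this
  rw [this]
  ring

lemma norm_csqrt_sq (z : ℂ) : ‖Complex.sqrt z‖ ^ 2 = ‖z‖ := by
  rw [← norm_pow, csqrt_sq]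

lemma norm_add_csqrt_sq (c : ℝ) (z : ℂ) :
    ‖(c:ℂ) + Complex.sqrt z‖ ^ 2 = c ^ 2 + ‖z‖ + c * √(2 * (‖z‖ + z.re)) := by
  rw [norm_add_sq_eq, norm_csqrt_sq, csqrt_re]
  have h1 : √(2 * (‖z‖ + z.re)) = 2 * √((‖z‖ + z.re) / 2) := by
    have h2 : 2 * (‖z‖ + z.re) = 2 ^ 2 * ((‖z‖ + z.re) / 2) := by ring
    rw [h2, Real.sqrt_mul (by norm_num), Real.sqrt_sq (by norm_num)]
  rw [h1]
  ring

lemma le_norm_add_csqrt {c : ℝ} (hc : 0 < c) (z : ℂ) : c ≤ ‖(c:ℂ) + Complex.sqrt z‖ := by
  have h1 := norm_add_sq_eq c (Complex.sqrt z)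
  have h2 := mul_nonneg hc.le (csqrt_re_nonneg z)
  have h3 : c ^ 2 ≤ ‖(c:ℂ) + Complex.sqrt z‖ ^ 2 := by
    rw [h1]
    nlinarith [sq_nonneg ‖Complex.sqrt z‖]
  exact (sq_le_sq₀ hc.le (norm_nonneg _)).1 h3

lemma met_eq (c : ℝ) (z : ℂ) : met c z = 4 * Real.log ‖(c:ℂ) + Complex.sqrt z‖ := by
  rw [met, ← norm_add_csqrt_sq, Real.log_pow]
  push_cast
  ring

lemma met_arg_pos {c : ℝ} (hc : 0 < c) (z : ℂ) :
    0 < c ^ 2 + ‖z‖ + c * √(2 * (‖z‖ + z.re)) := by positivity

lemma continuous_met {c : ℝ} (hc : 0 < c) : Continuous (met c) := by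
  unfold met
  apply Continuous.const_mul
  apply Continuous.log
  · have h1 : Continuous (fun z : ℂ => √(2 * (‖z‖ + z.re))) :=
      (continuous_const.mul (continuous_norm.add Complex.continuous_re)).sqrt
    exact (continuous_const.add continuous_norm).add (continuous_const.mul h1)
  · intro z
    exact (met_arg_pos hc z).ne'

lemma exists_pair (c : ℝ) (k : ℕ) : ∃ A B : ℂ[X], ∀ w : ℂ,
    ((c:ℂ) + w) ^ (2 * k) = A.eval (w ^ 2) + w * B.eval (w ^ 2) := by
  induction k with
  | zero => exact ⟨1, 0, fun w => by simp⟩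
  | succ k ih =>
    obtain ⟨A, B, h⟩ := ih
    refine ⟨(C ((c:ℂ) ^ 2) + X) * A + C (2 * (c:ℂ)) * X * B,
      (C ((c:ℂ) ^ 2) + X) * B + C (2 * (c:ℂ)) * A, fun w => ?_⟩
    have h1 : ((c:ℂ) + w) ^ (2 * (k + 1)) = ((c:ℂ) + w) ^ (2 * k) * ((c:ℂ) + w) ^ 2 := by
      rw [← pow_add]
      ring_nf
    rw [h1, h]
    simp only [eval_add, eval_mul, eval_C, eval_X]
    ring

lemma exists_even (c : ℝ) (k : ℕ) : ∃ A : ℂ[X], ∀ w : ℂ,
    A.eval (w ^ 2) = (((c:ℂ) + w) ^ (2 * k) + ((c:ℂ) - w) ^ (2 * k)) / 2 := by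
  obtain ⟨A, B, h⟩ := exists_pair c k
  refine ⟨A, fun w => ?_⟩
  have h1 := h w
  have h2 := h (-w)
  rw [← sub_eq_add_neg, neg_sq] at h2
  rw [h1, h2]
  ring

lemma norm_sub_le_norm_add {c : ℝ} (hc : 0 < c) (z : ℂ) :
    ‖(c:ℂ) - Complex.sqrt z‖ ≤ ‖(c:ℂ) + Complex.sqrt z‖ := by
  have h1 := norm_add_sq_eq c (Complex.sqrt z)
  have h2 := norm_sub_sq_eq c (Complex.sqrt z)
  have h3 := mul_nonneg hc.le (csqrt_re_nonneg z)
  rw [← sq_le_sq₀ (norm_nonneg _) (norm_nonneg _), h1, h2]
  linarith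

lemma norm_sub_lt_norm_add {c : ℝ} (hc : 0 < c) {z : ℂ} (hz : z ∈ Complex.slitPlane) :
    ‖(c:ℂ) - Complex.sqrt z‖ < ‖(c:ℂ) + Complex.sqrt z‖ := by
  have h1 := norm_add_sq_eq c (Complex.sqrt z)
  have h2 := norm_sub_sq_eq c (Complex.sqrt z)
  have h3 := mul_pos hc (csqrt_re_pos hz)
  rw [← sq_lt_sq₀ (norm_nonneg _) (norm_nonneg _), h1, h2]
  linarith

lemma subh_slit {c : ℝ} (hc : 0 < c) {z : ℂ} (hz : z ∈ Complex.slitPlane) {r : ℝ} (hr : 0 < r) :
    met c z ≤ circleAverage (met c) z r := by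
  set a := ‖(c:ℂ) + Complex.sqrt z‖ with ha
  set q := ‖(c:ℂ) - Complex.sqrt z‖ / a with hq
  have ha0 : 0 < a := hc.trans_le (le_norm_add_csqrt hc z)
  have hq0 : 0 ≤ q := by positivity
  have hq1 : q < 1 := by
    rw [hq, div_lt_one ha0]
    exact norm_sub_lt_norm_add hc hz
  have hmc := continuous_met hc
  have key : ∀ k : ℕ, 1 ≤ k →
      2 * Real.log ((1 - q) / 2) + k * met c z ≤ k * circleAverage (met c) z r := by
    intro k hk
    obtain ⟨A, hA⟩ := exists_even c k
    have hAz : ∀ z : ℂ, A.eval z = (((c:ℂ) + Complex.sqrt z) ^ (2 * k) +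
        ((c:ℂ) - Complex.sqrt z) ^ (2 * k)) / 2 := by
      intro z
      have := hA (Complex.sqrt z)
      rwa [csqrt_sq] at this
    have hm0 : 0 < c ^ (4 * k) := by positivity
    have hup : ∀ z : ℂ, tlog A (c ^ (4 * k)) z ≤ k * met c z := by
      intro z
      have h0 := le_norm_add_csqrt hc z
      have h1 : ‖A.eval z‖ ≤ ‖(c:ℂ) + Complex.sqrt z‖ ^ (2 * k) := by
        rw [hAz, norm_div, Complex.norm_ofNat, div_le_iff₀ two_pos]
        refine (norm_add_le _ _).trans ?_
        rw [norm_pow, norm_pow]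
        have := pow_le_pow_left₀ (norm_nonneg _) (norm_sub_le_norm_add hc z) (2 * k)
        linarith
      unfold tlog
      have h2 : max (‖A.eval z‖ ^ 2) (c ^ (4 * k)) ≤ ‖(c:ℂ) + Complex.sqrt z‖ ^ (4 * k) := by
        apply max_le
        · have h3 := pow_le_pow_left₀ (norm_nonneg _) h1 2
          refine h3.trans (le_of_eq ?_)
          rw [← pow_mul]
          congr 1
          ring
        · exact pow_le_pow_left₀ hc.le h0 _
      refine (Real.log_le_log (lt_of_lt_of_le hm0 (le_max_right _ _)) h2).trans (le_of_eq ?_)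
      rw [Real.log_pow, met_eq]
      push_cast
      ring
    have hlow : 2 * Real.log ((1 - q) / 2) + k * met c z ≤ tlog A (c ^ (4 * k)) z := by
      have h1 : (1 - q) / 2 * a ^ (2 * k) ≤ ‖A.eval z‖ := by
        rw [hAz, norm_div, Complex.norm_ofNat, le_div_iff₀ two_pos]
        have h2 := norm_sub_norm_le (((c:ℂ) + Complex.sqrt z) ^ (2 * k))
          (-(((c:ℂ) - Complex.sqrt z) ^ (2 * k)))
        rw [norm_neg, sub_neg_eq_add, norm_pow, norm_pow] at h2
        refine le_trans ?_ h2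
        have h3 : ‖(c:ℂ) - Complex.sqrt z‖ = q * a := by
          rw [hq]
          field_simp
        rw [h3, mul_pow, ← ha]
        have h4 : q ^ (2 * k) ≤ q := by
          calc q ^ (2 * k) ≤ q ^ 1 := pow_le_pow_of_le_one hq0 hq1.le (by omega)
            _ = q := pow_one q
        have h5 : 0 ≤ a ^ (2 * k) := by positivity
        nlinarith
      unfold tlog
      have h2 : 0 < (1 - q) / 2 * a ^ (2 * k) := by
        have : 0 < 1 - q := by linarith
        positivity
      have h3 : ((1 - q) / 2 * a ^ (2 * k)) ^ 2 ≤ max (‖A.eval z‖ ^ 2) (c ^ (4 * k)) :=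
        (pow_le_pow_left₀ h2.le h1 2).trans (le_max_left _ _)
      refine le_trans (le_of_eq ?_) (Real.log_le_log (by positivity) h3)
      rw [Real.log_pow, Real.log_mul (by linarith) (by positivity), Real.log_pow, met_eq, ← ha]
      push_cast
      ring
    have h1 := tlog_le_circleAverage A hm0 z hr
    have h2 : circleAverage (tlog A (c ^ (4 * k))) z r ≤
        circleAverage (fun z => k * met c z) z r := by
      apply circleAverage_mono
      · exact (continuous_tlog A hm0).continuousOn.circleIntegrable hr.le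
      · exact (continuous_const.mul hmc).continuousOn.circleIntegrable hr.le
      · intro z _
        exact hup z
    have h3 : circleAverage (fun z => k * met c z) z r = k * circleAverage (met c) z r := by
      have := circleAverage_fun_smul (a := (k:ℝ)) (f := met c) (c := z) (R := r)
      simpa using this
    linarith
  by_contra hcon
  push Not at hcon
  set d := met c z - circleAverage (met c) z r with hd
  have hd0 : 0 < d := by rw [hd]; linarith
  obtain ⟨k, hk⟩ := exists_nat_gt (max 1 (-(2 * Real.log ((1 - q) / 2)) / d))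
  have hk1 : (1:ℝ) < k := (le_max_left _ _).trans_lt hk
  have hk2 : -(2 * Real.log ((1 - q) / 2)) / d < k := (le_max_right _ _).trans_lt hk
  rw [div_lt_iff₀ hd0] at hk2
  have h1 := key k (by exact_mod_cast hk1.le)
  have h2 : (k:ℝ) * d = k * met c z - k * circleAverage (met c) z r := by rw [hd]; ring
  linarith

lemma dense_slitPlane : Dense Complex.slitPlane := by
  intro z
  rw [Metric.mem_closure_iff]
  intro ε hε
  refine ⟨⟨z.re, if z.im = 0 then ε / 2 else z.im⟩, ?_, ?_⟩
  · rw [Complex.mem_slitPlane_iff]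
    right
    simp only
    split_ifs with h
    · exact (half_pos hε).ne'
    · exact h
  · split_ifs with h
    · rw [Complex.dist_eq]
      have : z - ⟨z.re, ε / 2⟩ = (((-(ε / 2) : ℝ)) : ℂ) * Complex.I := by
        apply Complex.ext <;> simp [h]
      rw [this, norm_mul, Complex.norm_I, mul_one, Complex.norm_real, Real.norm_eq_abs, abs_neg,
        abs_of_pos (half_pos hε)]
      linarith
    · have : (⟨z.re, z.im⟩ : ℂ) = z := by cases z; rfl
      rw [this, dist_self]
      exact hε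

lemma continuous_circleAverage_center {h : ℂ → ℝ} (hc : Continuous h) (r : ℝ) :
    Continuous (fun z => circleAverage h z r) := by
  unfold circleAverage
  simp only [smul_eq_mul]
  apply Continuous.const_mul
  apply intervalIntegral.continuous_parametric_intervalIntegral_of_continuous'
  unfold Function.uncurry
  simp only [circleMap]
  fun_prop

lemma subh_met {c : ℝ} (hc : 0 < c) (z : ℂ) {r : ℝ} (hr : 0 < r) :
    met c z ≤ circleAverage (met c) z r := by
  have hcl : IsClosed {z | met c z ≤ circleAverage (met c) z r} :=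
    isClosed_le (continuous_met hc) (continuous_circleAverage_center (continuous_met hc) r)
  exact hcl.closure_subset_iff.2 (fun z hz => subh_slit hc hz hr) (dense_slitPlane z)

lemma infty_met {c : ℝ} (hc : 0 < c) :
    Tendsto (fun z => met c z - Real.log (1 + ‖z‖ ^ 2)) (cocompact ℂ) (𝓝 0) := by
  have hlow : Tendsto (fun r : ℝ => Real.log (r ^ 2 / (1 + r ^ 2))) atTop (𝓝 0) := by
    have h1 : Tendsto (fun r : ℝ => 1 + (r ^ 2)⁻¹) atTop (𝓝 (1 + 0)) :=
      tendsto_const_nhds.add (tendsto_inv_atTop_zero.comp (tendsto_pow_atTop two_ne_zero))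
    rw [add_zero] at h1
    have h2 : Tendsto (fun r : ℝ => (1 + (r ^ 2)⁻¹)⁻¹) atTop (𝓝 1) := by
      simpa using h1.inv₀ one_ne_zero
    have h3 : Tendsto (fun r : ℝ => Real.log ((1 + (r ^ 2)⁻¹)⁻¹)) atTop (𝓝 (Real.log 1)) :=
      h2.log one_ne_zero
    rw [Real.log_one] at h3
    refine h3.congr' ?_
    filter_upwards [eventually_gt_atTop 0] with r hr
    congr 1
    field_simp
    ring
  have hup : Tendsto (fun r : ℝ => Real.log ((c + √r) ^ 4 / (1 + r ^ 2))) atTop (𝓝 0) := by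
    have h0 : Tendsto (fun r : ℝ => (√r)⁻¹) atTop (𝓝 0) :=
      tendsto_inv_atTop_zero.comp tendsto_sqrt_atTop
    have h1 : Tendsto (fun r : ℝ => (c * (√r)⁻¹ + 1) ^ 4) atTop (𝓝 ((c * 0 + 1) ^ 4)) :=
      ((h0.const_mul c).add_const 1).pow 4
    have h2 : Tendsto (fun r : ℝ => Real.log ((c * (√r)⁻¹ + 1) ^ 4)) atTop (𝓝 0) := by
      have h3 := h1.log (by norm_num)
      simpa using h3
    have h3 := h2.add hlow
    rw [add_zero] at h3
    refine h3.congr' ?_
    filter_upwards [eventually_gt_atTop 0] with r hr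
    have hs : 0 < √r := Real.sqrt_pos.2 hr
    rw [← Real.log_mul (by positivity) (by positivity)]
    congr 1
    have h4 : r ^ 2 = √r ^ 4 := by
      have : √r ^ 4 = (√r ^ 2) ^ 2 := by ring
      rw [this, Real.sq_sqrt hr.le]
    have h5 : c + √r = (c * (√r)⁻¹ + 1) * √r := by field_simp
    rw [h5, mul_pow, ← h4]
    ring
  have hn := tendsto_norm_cocompact_atTop (E := ℂ)
  refine tendsto_of_tendsto_of_tendsto_of_le_of_le' (hlow.comp hn) (hup.comp hn) ?_ ?_
  · filter_upwards [hn.eventually (eventually_gt_atTop 0)] with z hz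
    simp only [Function.comp_apply, met]
    rw [Real.log_div (by positivity) (by positivity), Real.log_pow]
    have h1 : ‖z‖ ≤ c ^ 2 + ‖z‖ + c * √(2 * (‖z‖ + z.re)) := by
      have : 0 ≤ c * √(2 * (‖z‖ + z.re)) := by positivity
      nlinarith [sq_nonneg c]
    have h2 := Real.log_le_log hz h1
    push_cast
    linarith
  · filter_upwards [hn.eventually (eventually_gt_atTop 0)] with z hz
    simp only [Function.comp_apply, met]
    have h0 : 0 < c + √‖z‖ := by positivity
    rw [Real.log_div (by positivity) (by positivity), Real.log_pow]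
    have h1 : c ^ 2 + ‖z‖ + c * √(2 * (‖z‖ + z.re)) ≤ (c + √‖z‖) ^ 2 := by
      have h2 : √(2 * (‖z‖ + z.re)) ≤ 2 * √‖z‖ := by
        have h3 : 2 * (‖z‖ + z.re) ≤ 2 ^ 2 * ‖z‖ := by
          have := Complex.re_le_norm z
          linarith
        calc √(2 * (‖z‖ + z.re)) ≤ √(2 ^ 2 * ‖z‖) := Real.sqrt_le_sqrt h3
          _ = 2 * √‖z‖ := by rw [Real.sqrt_mul (by norm_num), Real.sqrt_sq (by norm_num)]
      have h3 : √‖z‖ ^ 2 = ‖z‖ := Real.sq_sqrt (norm_nonneg z)
      nlinarith
    have h2 := Real.log_le_log (met_arg_pos hc z) h1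
    rw [Real.log_pow] at h2
    push_cast at h2 ⊢
    linarith

lemma isPosMetric_met {c : ℝ} (hc : 0 < c) : IsPosMetric (met c) :=
  ⟨continuous_met hc, fun z _ hr => subh_met hc z hr, 0, infty_met hc⟩

lemma circleAverage_met {c : ℝ} (hc : 0 < c) {w : ℂ} {r : ℝ} (hr : 0 < r)
    (h : closedBall w r ⊆ Complex.slitPlane) : circleAverage (met c) w r = met c w := by
  have h1 : met c = fun z => 4 * Real.log ‖(c:ℂ) + Complex.sqrt z‖ := by
    funext z
    exact met_eq c z
  have hA : AnalyticOnNhd ℂ (fun z => (c:ℂ) + Complex.sqrt z) (closedBall w |r|) := by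
    rw [abs_of_pos hr]
    intro z hz
    have hz' := h hz
    have hd : DifferentiableOn ℂ (fun z => (c:ℂ) + Complex.sqrt z) Complex.slitPlane := by
      intro y hy
      exact ((Complex.differentiableAt_sqrt hy).const_add (c:ℂ)).differentiableWithinAt
    exact hd.analyticAt (Complex.isOpen_slitPlane.mem_nhds hz')
  have hne : ∀ u ∈ closedBall w |r|, (c:ℂ) + Complex.sqrt u ≠ 0 := by
    intro u _ h0
    have := le_norm_add_csqrt hc u
    rw [h0, norm_zero] at this
    linarith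
  have h2 := hA.circleAverage_log_norm_of_ne_zero hne
  have h3 : circleAverage (fun z => 4 * Real.log ‖(c:ℂ) + Complex.sqrt z‖) w r =
      4 * circleAverage (fun z => Real.log ‖(c:ℂ) + Complex.sqrt z‖) w r := by
    have := circleAverage_fun_smul (a := (4:ℝ))
      (f := fun z => Real.log ‖(c:ℂ) + Complex.sqrt z‖) (c := w) (R := r)
    simpa using this
  rw [h1, h3, h2]

lemma integral_met {c : ℝ} (hc : 0 < c) {w : ℂ} {R : ℝ} (hR : 0 < R)
    (h : closedBall w R ⊆ Complex.slitPlane) : ∫ z in ball w R, met c z ≤ π * R ^ 2 * met c w := by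
  apply integral_ball_le (continuous_met hc) w hR
  intro ρ hρ hρR
  exact (circleAverage_met hc hρ ((closedBall_subset_closedBall hρR.le).trans h)).le

lemma isPreconnected_slitPlane : IsPreconnected Complex.slitPlane :=
  (Complex.starConvex_one_slitPlane.isPathConnected
    Complex.one_mem_slitPlane).isConnected.isPreconnected

lemma met_zero {c : ℝ} (hc : 0 < c) : met c 0 = 4 * Real.log c := by
  unfold met
  simp only [norm_zero, Complex.zero_re, add_zero, mul_zero, Real.sqrt_zero]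
  rw [Real.log_pow]
  push_cast
  ring

lemma met_neg_two {c : ℝ} : met c (-2) = 2 * Real.log (c ^ 2 + 2) := by
  unfold met
  have h1 : ‖(-2 : ℂ)‖ = 2 := by rw [norm_neg]; simp
  have h2 : (-2 : ℂ).re = -2 := by simp
  rw [h1, h2]
  norm_num

lemma met_ne {c₀ c₁ : ℝ} (h : ∀ x, met 1 x + c₀ = met 2 x + c₁) : False := by
  have h1 := h 0
  have h2 := h (-2)
  rw [met_zero one_pos, met_zero two_pos] at h1
  rw [met_neg_two, met_neg_two] at h2
  rw [Real.log_one] at h1
  have h3 : (2:ℝ) ^ 2 + 2 = 2 * 3 := by norm_num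
  have h4 : (1:ℝ) ^ 2 + 2 = 3 := by norm_num
  rw [h3, h4, Real.log_mul (by norm_num) (by norm_num)] at h2
  have h5 : 0 < Real.log 2 := Real.log_pos (by norm_num)
  linarith

end Pool.Agent.TH599.FC
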