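import Pool.Agent.TH599.FC.BM

set_option autoImplicit false

/-! Powers of ideals generated by two polynomials with few common zeros. -/

namespace Pool.Agent.TH599.FC

open Polynomial

/-- The monic polynomial with a given multiset of roots. -/
noncomputable def pr (S : Multiset ℂ) : ℂ[X] := (S.map (fun a => X - C a)).prod

lemma pr_add (S T : Multiset ℂ) : pr (S + T) = pr S * pr T := by
  simp [pr]

lemma pr_ne_zero (S : Multiset ℂ) : pr S ≠ 0 := by
  unfold pr
  apply Multiset.prod_ne_zero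
  simp only [Multiset.mem_map, not_exists, not_and]
  intro a _ h
  exact X_sub_C_ne_zero a h

lemma natDegree_pr (S : Multiset ℂ) : (pr S).natDegree = Multiset.card S := by
  unfold pr
  exact natDegree_multiset_prod_X_sub_C_eq_card S

lemma roots_pr (S : Multiset ℂ) : (pr S).roots = S := by
  unfold pr
  exact roots_multiset_prod_X_sub_C S

lemma eval_pr (S : Multiset ℂ) (z : ℂ) : (pr S).eval z = (S.map (fun a => z - a)).prod := by
  unfold pr
  rw [eval_multiset_prod, Multiset.map_map]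
  simp

lemma eq_pr (P : ℂ[X]) : P = C P.leadingCoeff * pr P.roots := by
  have h := (IsAlgClosed.splits P)
  unfold pr
  exact h.eq_prod_roots

lemma card_roots_eq (P : ℂ[X]) : Multiset.card P.roots = P.natDegree :=
  (splits_iff_card_roots.1 (IsAlgClosed.splits P))

lemma factor_common {P Q : ℂ[X]} (hP : P ≠ 0) (hQ : Q ≠ 0) :
    ∃ (S : Multiset ℂ) (τ τ' : ℂ[X]), P = pr S * τ ∧ Q = pr S * τ' ∧ IsCoprime τ τ' ∧
      τ ≠ 0 ∧ τ' ≠ 0 ∧ S ≤ P.roots ∧ S ≤ Q.roots := by
  classical
  refine ⟨P.roots ∩ Q.roots, C P.leadingCoeff * pr (P.roots - P.roots ∩ Q.roots),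
    C Q.leadingCoeff * pr (Q.roots - P.roots ∩ Q.roots), ?_, ?_, ?_, ?_, ?_,
    Multiset.inter_le_left, Multiset.inter_le_right⟩
  · have h1 : P.roots = P.roots ∩ Q.roots + (P.roots - P.roots ∩ Q.roots) := by
      rw [add_tsub_cancel_of_le Multiset.inter_le_left]
    conv_lhs => rw [eq_pr P, h1, pr_add]
    ring
  · have h1 : Q.roots = P.roots ∩ Q.roots + (Q.roots - P.roots ∩ Q.roots) := by
      rw [add_tsub_cancel_of_le Multiset.inter_le_right]
    conv_lhs => rw [eq_pr Q, h1, pr_add]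
    ring
  · rw [isCoprime_iff_aeval_ne_zero_of_isAlgClosed ℂ ℂ]
    intro a
    by_contra hcon
    push Not at hcon
    obtain ⟨h1, h2⟩ := hcon
    rw [coe_aeval_eq_eval, eval_mul, eval_C] at h1 h2
    have h3 : (pr (P.roots - P.roots ∩ Q.roots)).IsRoot a := by
      rcases mul_eq_zero.1 h1 with h | h
      · exact absurd h (leadingCoeff_ne_zero.2 hP)
      · exact h
    have h4 : (pr (Q.roots - P.roots ∩ Q.roots)).IsRoot a := by
      rcases mul_eq_zero.1 h2 with h | h
      · exact absurd h (leadingCoeff_ne_zero.2 hQ)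
      · exact h
    rw [← mem_roots (pr_ne_zero _), roots_pr] at h3 h4
    rw [← Multiset.count_pos, Multiset.count_sub, Multiset.count_inter] at h3 h4
    omega
  · exact mul_ne_zero (by simpa using hP) (pr_ne_zero _)
  · exact mul_ne_zero (by simpa using hQ) (pr_ne_zero _)

lemma bezout_aux {τ τ' : ℂ[X]} (hco : IsCoprime τ τ') (hτ : τ ≠ 0) {κ m : ℕ}
    (h1 : τ.natDegree = κ) (h2 : τ'.natDegree ≤ κ) (hm : κ ≤ m + 1) {R : ℂ[X]}
    (hR : R.natDegree ≤ m + κ) :
    ∃ A B : ℂ[X], A.natDegree ≤ m ∧ B.natDegree ≤ m ∧ R = A * τ + B * τ' := by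
  obtain ⟨u, v, huv⟩ := hco
  set B := (R * v) % τ with hB
  set A := R * u + ((R * v) / τ) * τ' with hA
  have hdiv : τ * ((R * v) / τ) + (R * v) % τ = R * v := EuclideanDomain.div_add_mod _ _
  have hsum : R = A * τ + B * τ' := by
    calc R = R * (u * τ + v * τ') := by rw [huv, mul_one]
      _ = R * u * τ + (R * v) * τ' := by ring
      _ = R * u * τ + (τ * ((R * v) / τ) + (R * v) % τ) * τ' := by rw [hdiv]
      _ = A * τ + B * τ' := by rw [hA, hB]; ring
  have hBdeg : B.natDegree ≤ m := by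
    have h3 : B.degree < τ.degree := EuclideanDomain.mod_lt _ hτ
    by_cases hB0 : B = 0
    · simp [hB0]
    · have h4 : B.natDegree < τ.natDegree := natDegree_lt_natDegree hB0 h3
      omega
  refine ⟨A, B, ?_, hBdeg, hsum⟩
  by_cases hA0 : A = 0
  · simp [hA0]
  · have h5 : A * τ = R - B * τ' := by rw [hsum]; ring
    have h6 : (A * τ).natDegree ≤ m + κ := by
      rw [h5]
      refine (natDegree_sub_le _ _).trans (max_le hR ?_)
      exact natDegree_mul_le.trans (by omega)
    rw [natDegree_mul hA0 hτ] at h6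
    omega

lemma bezout {τ τ' : ℂ[X]} (hco : IsCoprime τ τ') (hτ : τ ≠ 0) (hτ' : τ' ≠ 0) {m : ℕ}
    (hm : max τ.natDegree τ'.natDegree ≤ m + 1) {R : ℂ[X]}
    (hR : R.natDegree ≤ m + max τ.natDegree τ'.natDegree) :
    ∃ A B : ℂ[X], A.natDegree ≤ m ∧ B.natDegree ≤ m ∧ R = A * τ + B * τ' := by
  rcases le_total τ'.natDegree τ.natDegree with h | h
  · rw [max_eq_left h] at hm hR
    exact bezout_aux hco hτ rfl h hm hR
  · rw [max_eq_right h] at hm hR
    obtain ⟨A, B, hA, hB, hE⟩ := bezout_aux hco.symm hτ' rfl h hm hR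
    exact ⟨B, A, hB, hA, by rw [hE]; ring⟩

lemma Filtration.pow_mem (F : Filtration) {l : ℝ} {k : ℕ} {p : ℂ[X]} (hp : p ∈ F.F l k) :
    ∀ j : ℕ, p ^ j ∈ F.F (j * l) (j * k) := by
  intro j
  induction j with
  | zero =>
    have : F.F ((0:ℕ) * l) (0 * k) = V 0 := by
      rw [zero_mul]
      apply F.all
      simp
    rw [this, mem_V]
    simp
  | succ j ih =>
    have h := F.mul _ _ _ _ _ _ ih hp
    have e1 : ((j + 1 : ℕ) : ℝ) * l = j * l + l := by push_cast; ring
    have e2 : (j + 1) * k = j * k + k := by ring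
    rw [pow_succ, e1, e2]
    exact h

lemma power (F : Filtration) {K : ℕ} {μ : ℝ} {g τ τ' : ℂ[X]} (hP : g * τ ∈ F.F (μ * K) K)
    (hQ : g * τ' ∈ F.F (μ * K) K) (hco : IsCoprime τ τ') (hτ : τ ≠ 0) (hτ' : τ' ≠ 0)
    (hK : max τ.natDegree τ'.natDegree ≤ K) :
    ∀ (N : ℕ) (R : ℂ[X]), R.natDegree ≤ K + N * max τ.natDegree τ'.natDegree →
      g ^ N * R ∈ F.F (-F.C * K + N * (μ * K)) ((N + 1) * K) := by
  intro N
  induction N with
  | zero =>
    intro R hR
    have h1 : F.F (-F.C * K + (0:ℕ) * (μ * K)) ((0 + 1) * K) = V K := by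
      rw [Nat.cast_zero, zero_mul, add_zero, zero_add, one_mul]
      exact F.all _ _ le_rfl
    rw [h1, mem_V, pow_zero, one_mul]
    simpa using hR
  | succ N ih =>
    intro R hR
    obtain ⟨A, B, hA, hB, hE⟩ := bezout hco hτ hτ' (m := K + N * max τ.natDegree τ'.natDegree)
      (by omega) (R := R) (by linarith)
    have h1 := F.mul _ _ _ _ _ _ (ih A hA) hP
    have h2 := F.mul _ _ _ _ _ _ (ih B hB) hQ
    have e1 : -F.C * K + ((N + 1 : ℕ) : ℝ) * (μ * K) = (-F.C * K + N * (μ * K)) + μ * K := by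
      push_cast; ring
    have e2 : (N + 1 + 1) * K = (N + 1) * K + K := by ring
    have e3 : g ^ (N + 1) * R = g ^ N * A * (g * τ) + g ^ N * B * (g * τ') := by
      rw [hE]; ring
    rw [e1, e2, e3]
    exact Submodule.add_mem _ h1 h2

/-- If `t, t'` lie in the filtration at level `μ`, and the zeros of `t` are zeros of small
multiplicity of `t'`, and `t'` has almost full degree, then for large powers the filtration at
level `μ` contains `g ^ N * R` for all `R` of almost full degree, with `g` of small degree. -/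
lemma approx (F : Filtration) {k k' : ℕ} {μ δ : ℝ} {t t' : ℂ[X]}
    (ht : t ∈ F.F (μ * k) k) (ht' : t' ∈ F.F (μ * k') k') (ht0 : t ≠ 0) (ht0' : t' ≠ 0)
    (hmul : ∀ a ∈ t.roots, (t'.rootMultiplicity a : ℝ) ≤ δ * k')
    (hdeg : (1 - δ) * k' ≤ t'.natDegree) :
    ∃ (S : Multiset ℂ) (κ : ℕ), (∀ a ∈ S, a ∈ t.roots) ∧
      (Multiset.card S : ℝ) ≤ k * δ * (k * k' : ℕ) ∧ κ + Multiset.card S ≤ k * k' ∧
      ((k * k' : ℕ) : ℝ) - (1 + k) * δ * (k * k' : ℕ) ≤ κ ∧
      ∀ (N : ℕ) (R : ℂ[X]), R.natDegree ≤ k * k' + N * κ →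
        pr S ^ N * R ∈ F.F (-F.C * (k * k' : ℕ) + N * (μ * (k * k' : ℕ))) ((N + 1) * (k * k')) := by
  classical
  set K := k * k' with hK
  have hP : t ^ k' ∈ F.F (μ * K) K := by
    have := F.pow_mem ht k'
    have e1 : (k' : ℝ) * (μ * k) = μ * K := by rw [hK]; push_cast; ring
    rw [e1, mul_comm k' k] at this
    exact this
  have hQ : t' ^ k ∈ F.F (μ * K) K := by
    have := F.pow_mem ht' k
    have e1 : (k : ℝ) * (μ * k') = μ * K := by rw [hK]; push_cast; ring
    rw [e1] at this
    exact this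
  obtain ⟨S, τ, τ', hPS, hQS, hco, hτ, hτ', hSP, hSQ⟩ :=
    factor_common (pow_ne_zero k' ht0) (pow_ne_zero k ht0')
  have hdP : (t ^ k').natDegree ≤ K := mem_V.1 (F.le _ _ hP)
  have hdQ : (t' ^ k).natDegree ≤ K := mem_V.1 (F.le _ _ hQ)
  have hd1 : (t ^ k').natDegree = Multiset.card S + τ.natDegree := by
    rw [hPS, natDegree_mul (pr_ne_zero _) hτ, natDegree_pr]
  have hd2 : (t' ^ k).natDegree = Multiset.card S + τ'.natDegree := by
    rw [hQS, natDegree_mul (pr_ne_zero _) hτ', natDegree_pr]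
  have hSt : ∀ a ∈ S, a ∈ t.roots := by
    intro a ha
    have h1 := Multiset.mem_of_le hSP ha
    rw [roots_pow] at h1
    exact Multiset.mem_of_mem_nsmul h1
  have hcount : ∀ a, (S.count a : ℝ) ≤ k * t'.rootMultiplicity a := by
    intro a
    have h1 := Multiset.count_le_of_le a hSQ
    rw [roots_pow, Multiset.count_nsmul, count_roots] at h1
    exact_mod_cast h1
  have htk : t.natDegree ≤ k := mem_V.1 (F.le _ _ ht)
  have hcard : (Multiset.card S : ℝ) ≤ k * δ * K := by
    have h1 : (Multiset.card S : ℝ) = ∑ a ∈ S.toFinset, (S.count a : ℝ) := by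
      rw [← Multiset.toFinset_sum_count_eq]
      push_cast
      rfl
    have h2 : ∑ a ∈ S.toFinset, (S.count a : ℝ) ≤ ∑ a ∈ S.toFinset, (k * (δ * k')) := by
      apply Finset.sum_le_sum
      intro a ha
      refine (hcount a).trans ?_
      apply mul_le_mul_of_nonneg_left _ (Nat.cast_nonneg k)
      exact hmul a (hSt a (Multiset.mem_toFinset.1 ha))
    have h3 : (S.toFinset.card : ℝ) ≤ k := by
      have h4 : S.toFinset ⊆ t.roots.toFinset := by
        intro a ha
        rw [Multiset.mem_toFinset] at ha ⊢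
        exact hSt a ha
      have h5 : S.toFinset.card ≤ k :=
        (Finset.card_le_card h4).trans ((Multiset.toFinset_card_le _).trans
          ((card_roots' t).trans htk))
      exact_mod_cast h5
    rw [h1]
    refine h2.trans ?_
    rw [Finset.sum_const, nsmul_eq_mul]
    by_cases hS : S = 0
    · simp only [hS, Multiset.toFinset_zero, Finset.card_empty, Nat.cast_zero, zero_mul]
      by_cases hk : t.roots = 0
      · -- then use the degree bound
        have h6 : (t'.natDegree : ℝ) ≤ k' := by exact_mod_cast mem_V.1 (F.le _ _ ht')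
        have h7 : 0 ≤ δ * k' := by nlinarith
        rw [hK]
        push_cast
        have : (0:ℝ) ≤ k * k * (δ * k') := by positivity
        calc (0:ℝ) ≤ k * k * (δ * k') := this
          _ = _ := by ring
      · obtain ⟨a, ha⟩ := Multiset.exists_mem_of_ne_zero hk
        have h7 : 0 ≤ δ * k' := (Nat.cast_nonneg _).trans (hmul a ha)
        rw [hK]
        push_cast
        have : (0:ℝ) ≤ k * k * (δ * k') := by positivity
        calc (0:ℝ) ≤ k * k * (δ * k') := this
          _ = _ := by ring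
    · obtain ⟨a, ha⟩ := Multiset.exists_mem_of_ne_zero hS
      have h7 : 0 ≤ δ * k' := (Nat.cast_nonneg _).trans (hmul a (hSt a ha))
      calc (S.toFinset.card : ℝ) * (k * (δ * k')) ≤ k * (k * (δ * k')) := by gcongr
        _ = _ := by rw [hK]; push_cast; ring
  refine ⟨S, max τ.natDegree τ'.natDegree, hSt, hcard, ?_, ?_, ?_⟩
  · omega
  · have h1 : ((t' ^ k).natDegree : ℝ) ≤ Multiset.card S + (max τ.natDegree τ'.natDegree : ℕ) := by
      rw [hd2]
      push_cast
      have := le_max_right (τ.natDegree : ℝ) τ'.natDegree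
      linarith
    rw [natDegree_pow] at h1
    push_cast at h1
    have h2 : (k : ℝ) * ((1 - δ) * k') ≤ k * t'.natDegree :=
      mul_le_mul_of_nonneg_left hdeg (Nat.cast_nonneg k)
    have h3 : (K : ℝ) = k * k' := by rw [hK]; push_cast; ring
    push_cast
    rw [h3] at hcard ⊢
    nlinarith
  · exact power F (by rw [← hPS]; exact hP) (by rw [← hQS]; exact hQ) hco hτ hτ' (by omega)

end Pool.Agent.TH599.FC
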