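import Mathlib

set_option autoImplicit false

/-! Integrals over discs as integrals of circle averages. -/

namespace Pool.Agent.TH599.FC

open MeasureTheory Set Metric Real

lemma circleAverage_eq_sym (h : ℂ → ℝ) (w : ℂ) (ρ : ℝ) :
    2 * π * circleAverage h w ρ =
      ∫ θ in (-π)..π, h (w + ρ * (Real.cos θ + Real.sin θ * Complex.I)) := by
  have h1 : ∀ θ : ℝ, circleMap w ρ θ = w + ρ * (Real.cos θ + Real.sin θ * Complex.I) := by
    intro θ
    rw [circleMap, Complex.exp_mul_I, Complex.ofReal_cos, Complex.ofReal_sin]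
  rw [circleAverage, smul_eq_mul, ← mul_assoc, mul_inv_cancel₀ (by positivity), one_mul]
  have h2 : Function.Periodic (fun θ => h (circleMap w ρ θ)) (2 * π) := by
    intro θ
    simp only [periodic_circleMap w ρ θ]
  have h3 := h2.intervalIntegral_add_eq 0 (-π)
  rw [zero_add, show -π + 2 * π = π by ring] at h3
  rw [h3]
  simp only [h1]

/-- The integral over a disc of a continuous function, in polar coordinates. -/
lemma integral_ball_eq {h : ℂ → ℝ} (hc : Continuous h) (w : ℂ) {R : ℝ} (hR : 0 < R) :
    ∫ z in ball w R, h z = ∫ ρ in (0:ℝ)..R, 2 * π * ρ * circleAverage h w ρ := by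
  have e1 : ∫ z in ball w R, h z = ∫ z, (ball (0:ℂ) R).indicator (fun z => h (w + z)) z := by
    rw [← integral_indicator measurableSet_ball]
    rw [← integral_add_left_eq_self _ w]
    congr 1
    ext z
    simp only [indicator, mem_ball, dist_self_add_left, dist_zero_right]
  rw [e1, ← Complex.integral_comp_polarCoord_symm, polarCoord_target]
  have hcont : Continuous (fun p : ℝ × ℝ => p.1 * h (w + Complex.polarCoord.symm p)) := by
    simp only [Complex.polarCoord_symm_apply]
    fun_prop
  have e2 : ∫ p in Ioi (0:ℝ) ×ˢ Ioo (-π) π,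
      p.1 • (ball (0:ℂ) R).indicator (fun z => h (w + z)) (Complex.polarCoord.symm p) =
      ∫ p in Ioo (0:ℝ) R ×ˢ Ioo (-π) π, p.1 * h (w + Complex.polarCoord.symm p) := by
    rw [← integral_indicator (measurableSet_Ioi.prod measurableSet_Ioo),
      ← integral_indicator (measurableSet_Ioo.prod measurableSet_Ioo)]
    congr 1
    ext p
    by_cases h1 : p ∈ Ioo (0:ℝ) R ×ˢ Ioo (-π) π
    · have h2 : p ∈ Ioi (0:ℝ) ×ˢ Ioo (-π) π := ⟨h1.1.1, h1.2⟩
      have h3 : Complex.polarCoord.symm p ∈ ball (0:ℂ) R := by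
        rw [mem_ball_zero_iff, Complex.norm_polarCoord_symm, abs_of_pos h1.1.1]
        exact h1.1.2
      rw [indicator_of_mem h1, indicator_of_mem h2, indicator_of_mem h3, smul_eq_mul]
    · rw [indicator_of_notMem h1]
      by_cases h2 : p ∈ Ioi (0:ℝ) ×ˢ Ioo (-π) π
      · rw [indicator_of_mem h2]
        have h3 : Complex.polarCoord.symm p ∉ ball (0:ℂ) R := by
          rw [mem_ball_zero_iff, Complex.norm_polarCoord_symm, abs_of_pos h2.1]
          intro h4
          exact h1 ⟨⟨h2.1, h4⟩, h2.2⟩
        rw [indicator_of_notMem h3, smul_zero]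
      · rw [indicator_of_notMem h2]
  rw [e2]
  have hint : IntegrableOn (fun p : ℝ × ℝ => p.1 * h (w + Complex.polarCoord.symm p))
      (Ioo (0:ℝ) R ×ˢ Ioo (-π) π) (volume.prod volume) := by
    have hK : IsCompact (Icc (0:ℝ) R ×ˢ Icc (-π) π) := isCompact_Icc.prod isCompact_Icc
    have := hcont.continuousOn.integrableOn_compact (μ := (volume.prod volume)) hK
    exact this.mono_set (prod_mono Ioo_subset_Icc_self Ioo_subset_Icc_self)
  rw [Measure.volume_eq_prod, setIntegral_prod _ hint,
    intervalIntegral.integral_of_le hR.le, ← integral_Ioc_eq_integral_Ioo]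
  refine setIntegral_congr_fun measurableSet_Ioc ?_
  intro ρ _
  simp only [Complex.polarCoord_symm_apply]
  rw [integral_const_mul, ← integral_Ioc_eq_integral_Ioo,
    ← intervalIntegral.integral_of_le (by linarith [pi_pos]), ← circleAverage_eq_sym]
  ring

lemma continuous_circleAverage {h : ℂ → ℝ} (hc : Continuous h) (w : ℂ) :
    Continuous (fun ρ => circleAverage h w ρ) := by
  exact Continuous.circleAverage hc

lemma integral_two_pi (R c : ℝ) : ∫ ρ in (0:ℝ)..R, 2 * π * ρ * c = π * R ^ 2 * c := by
  rw [intervalIntegral.integral_mul_const, intervalIntegral.integral_const_mul, integral_id]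
  ring

/-- Sub-mean value inequality on discs. -/
lemma le_integral_ball {h : ℂ → ℝ} (hc : Continuous h) (w : ℂ) {R : ℝ} (hR : 0 < R)
    (hs : ∀ ρ, 0 < ρ → ρ < R → h w ≤ circleAverage h w ρ) :
    π * R ^ 2 * h w ≤ ∫ z in ball w R, h z := by
  rw [integral_ball_eq hc w hR, ← integral_two_pi]
  have hca := continuous_circleAverage hc w
  apply intervalIntegral.integral_mono_on_of_le_Ioo hR.le
  · exact (by fun_prop : Continuous fun ρ : ℝ => 2 * π * ρ * h w).intervalIntegrable _ _
  · exact (by fun_prop : Continuous fun ρ : ℝ => 2 * π * ρ * circleAverage h w ρ).intervalIntegrable _ _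
  · intro ρ hρ
    have := hs ρ hρ.1 hρ.2
    have h2 : 0 ≤ 2 * π * ρ := by have := hρ.1; positivity
    exact mul_le_mul_of_nonneg_left this h2

/-- Super-mean value inequality on discs. -/
lemma integral_ball_le {h : ℂ → ℝ} (hc : Continuous h) (w : ℂ) {R : ℝ} (hR : 0 < R)
    (hs : ∀ ρ, 0 < ρ → ρ < R → circleAverage h w ρ ≤ h w) :
    ∫ z in ball w R, h z ≤ π * R ^ 2 * h w := by
  rw [integral_ball_eq hc w hR, ← integral_two_pi]
  have hca := continuous_circleAverage hc w
  apply intervalIntegral.integral_mono_on_of_le_Ioo hR.le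
  · exact (by fun_prop : Continuous fun ρ : ℝ => 2 * π * ρ * circleAverage h w ρ).intervalIntegrable _ _
  · exact (by fun_prop : Continuous fun ρ : ℝ => 2 * π * ρ * h w).intervalIntegrable _ _
  · intro ρ hρ
    have := hs ρ hρ.1 hρ.2
    have h2 : 0 ≤ 2 * π * ρ := by have := hρ.1; positivity
    exact mul_le_mul_of_nonneg_left this h2

end Pool.Agent.TH599.FC
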