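import Pool.Agent.TH599.FC.Area

set_option autoImplicit false

/-! Sub-mean value inequalities for polynomials, and growth of polynomials. -/

namespace Pool.Agent.TH599.FC

open MeasureTheory Set Metric Real Polynomial Filter

/-- The truncated logarithm `log (max (|p|²) m)`. -/
noncomputable def tlog (p : ℂ[X]) (m : ℝ) (z : ℂ) : ℝ := Real.log (max (‖p.eval z‖ ^ 2) m)

lemma continuous_tlog (p : ℂ[X]) {m : ℝ} (hm : 0 < m) : Continuous (tlog p m) := by
  unfold tlog
  apply Continuous.log
  · exact (((p.continuous).norm.pow 2)).max continuous_const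
  · intro z
    exact (lt_of_lt_of_le hm (le_max_right _ _)).ne'

lemma jensen_poly (p : ℂ[X]) (w : ℂ) {r : ℝ} (hr : 0 < r) (hw : p.eval w ≠ 0) :
    Real.log ‖p.eval w‖ ≤ circleAverage (fun z => Real.log ‖p.eval z‖) w r := by
  have hA : AnalyticOnNhd ℂ (fun z => p.eval z) (closedBall w |r|) :=
    fun z _ => (p.differentiable.analyticAt z)
  have h := AnalyticOnNhd.circleAverage_log_norm hr.ne' hA hw
  rw [h]
  have : 0 ≤ ∑ᶠ u, (MeromorphicOn.divisor (fun z => p.eval z) (closedBall w |r|) u : ℝ) *
      Real.log (r * ‖w - u‖⁻¹) := by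
    apply finsum_nonneg
    intro u
    by_cases hu : u ∈ closedBall w |r|
    · apply mul_nonneg
      · exact_mod_cast MeromorphicOn.AnalyticOnNhd.divisor_nonneg hA u
      · by_cases h0 : u = w
        · simp [h0]
        · apply Real.log_nonneg
          have h1 : 0 < ‖w - u‖ := norm_pos_iff.2 (sub_ne_zero.2 (Ne.symm h0))
          rw [mem_closedBall, dist_comm, dist_eq_norm, abs_of_pos hr] at hu
          rw [← div_eq_mul_inv, one_le_div h1]
          exact hu
    · rw [Function.locallyFinsuppWithin.apply_eq_zero_of_notMem _ hu]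
      simp
  linarith

/-- Sub-mean value inequality for the truncated logarithm. -/
lemma tlog_le_circleAverage (p : ℂ[X]) {m : ℝ} (hm : 0 < m) (w : ℂ) {r : ℝ} (hr : 0 < r) :
    tlog p m w ≤ circleAverage (tlog p m) w r := by
  have hc := continuous_tlog p hm
  have hci : CircleIntegrable (tlog p m) w r := hc.continuousOn.circleIntegrable hr.le
  by_cases h : ‖p.eval w‖ ^ 2 ≤ m
  · have h1 : tlog p m w = Real.log m := by
      unfold tlog
      rw [max_eq_right h]
    rw [h1, ← circleAverage_const (Real.log m) w r]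
    apply circleAverage_mono
    · exact (continuous_const.continuousOn).circleIntegrable hr.le
    · exact hci
    · intro z _
      exact Real.log_le_log hm (le_max_right _ _)
  · push Not at h
    have hw : p.eval w ≠ 0 := by
      intro h0
      rw [h0] at h
      simp at h
      linarith
    have hp : p ≠ 0 := by
      intro h0
      rw [h0] at hw
      simp at hw
    have h1 : tlog p m w = 2 * Real.log ‖p.eval w‖ := by
      unfold tlog
      rw [max_eq_left h.le, Real.log_pow]
      norm_num
    set q : ℂ → ℝ := fun z => if p.eval z = 0 then Real.log m / 2 else Real.log ‖p.eval z‖ with hq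
    have hA : AnalyticOnNhd ℂ (fun z => p.eval z) (sphere w |r|) :=
      fun z _ => (p.differentiable.analyticAt z)
    have hqi0 : CircleIntegrable (fun z => Real.log ‖p.eval z‖) w r :=
      hA.meromorphicOn.circleIntegrable_log_norm
    have hcod : (fun z => Real.log ‖p.eval z‖) =ᶠ[codiscreteWithin (sphere w |r|)] q := by
      have hfin : {z : ℂ | p.eval z = 0}.Finite := by
        have := p.rootSet_finite ℂ
        refine (p.roots.toFinset.finite_toSet).subset ?_
        intro z hz
        simp only [Finset.mem_coe, Multiset.mem_toFinset, mem_roots hp]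
        exact hz
      have h2 : {z : ℂ | p.eval z = 0}ᶜ ∈ codiscreteWithin (sphere w |r|) := by
        rw [mem_codiscreteWithin]
        intro x _
        have h3 : sphere w |r| \ {z : ℂ | p.eval z = 0}ᶜ ⊆ {z : ℂ | p.eval z = 0} := by
          intro z hz
          simpa using hz.2
        rw [disjoint_principal_right]
        have h4 : ({z : ℂ | p.eval z = 0} \ {x})ᶜ ∈ nhds x := by
          apply (hfin.subset sdiff_subset).isClosed.isOpen_compl.mem_nhds
          simp
        have h5 : ({z : ℂ | p.eval z = 0} \ {x})ᶜ ∈ nhdsWithin x {x}ᶜ :=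
          mem_nhdsWithin_of_mem_nhds h4
        filter_upwards [h5, self_mem_nhdsWithin] with z hz hz2 hz3
        exact hz ⟨h3 hz3, hz2⟩
      filter_upwards [h2] with z hz
      have hz' : p.eval z ≠ 0 := hz
      simp only [hq, if_neg hz']
    have h3 : circleAverage (fun z => Real.log ‖p.eval z‖) w r = circleAverage q w r :=
      circleAverage_congr_codiscreteWithin hcod hr.ne'
    have hqi : CircleIntegrable q w r := by
      exact hqi0.congr_codiscreteWithin hcod
    have h4 := jensen_poly p w hr hw
    rw [h3] at h4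
    have h5 : circleAverage (fun z => 2 * q z) w r ≤ circleAverage (tlog p m) w r := by
      apply circleAverage_mono
      · exact hqi.const_fun_smul (a := (2:ℝ))
      · exact hci
      · intro z _
        by_cases hz : p.eval z = 0
        · simp only [hq, if_pos hz, tlog, hz]
          simp only [norm_zero]
          rw [max_eq_right (by simpa using hm.le)]
          linarith
        · simp only [hq, if_neg hz, tlog]
          have : 2 * Real.log ‖p.eval z‖ = Real.log (‖p.eval z‖ ^ 2) := by
            rw [Real.log_pow]; norm_num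
          rw [this]
          exact Real.log_le_log (by positivity) (le_max_left _ _)
    have h6 : circleAverage (fun z => 2 * q z) w r = 2 * circleAverage q w r := by
      have := circleAverage_fun_smul (a := (2:ℝ)) (f := q) (c := w) (R := r)
      simpa using this
    rw [h1]
    linarith

/-- Sub-mean value inequality for `|p|²` on discs. -/
lemma sq_le_integral_ball (p : ℂ[X]) (w : ℂ) {R : ℝ} (hR : 0 < R) :
    π * R ^ 2 * ‖p.eval w‖ ^ 2 ≤ ∫ z in ball w R, ‖p.eval z‖ ^ 2 := by
  apply le_integral_ball (h := fun z => ‖p.eval z‖ ^ 2) (by fun_prop) w hR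
  intro ρ hρ _
  have hd : DiffContOnCl ℂ (fun z => (p ^ 2).eval z) (ball w |ρ|) :=
    ((p ^ 2).differentiable).diffContOnCl
  have h1 := hd.circleAverage
  have h2 : ‖(p ^ 2).eval w‖ = ‖p.eval w‖ ^ 2 := by
    rw [eval_pow, norm_pow]
  rw [← h2, ← h1, circleAverage, circleAverage, norm_smul, smul_eq_mul, norm_inv,
    Real.norm_of_nonneg (by positivity : (0:ℝ) ≤ 2 * π)]
  apply mul_le_mul_of_nonneg_left _ (by positivity)
  refine (intervalIntegral.norm_integral_le_integral_norm (by positivity)).trans ?_
  simp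

/-- Growth of polynomials outside a disc. -/
lemma growth {k : ℕ} {p : ℂ[X]} (hp : p.natDegree ≤ k) {R M : ℝ} (hR : 0 < R)
    (h : ∀ w : ℂ, ‖w‖ = R → ‖p.eval w‖ ≤ M) (z : ℂ) (hz : R ≤ ‖z‖) :
    ‖p.eval z‖ ≤ (‖z‖ / R) ^ k * M := by
  have hz0 : z ≠ 0 := by
    intro h0
    rw [h0, norm_zero] at hz
    linarith
  have key : ∀ w : ℂ, w ≠ 0 → ‖(p.reflect k).eval w‖ = ‖w‖ ^ k * ‖p.eval w⁻¹‖ := by
    intro w hw
    let _ : Invertible (w⁻¹) := invertibleOfNonzero (inv_ne_zero hw)
    have h1 := eval₂_reflect_mul_pow (RingHom.id ℂ) w⁻¹ k p hp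
    rw [invOf_eq_inv, inv_inv] at h1
    rw [← norm_pow, ← norm_mul]
    congr 1
    have h2 : eval₂ (RingHom.id ℂ) w (reflect k p) = (p.reflect k).eval w := rfl
    have h3 : eval₂ (RingHom.id ℂ) w⁻¹ p = p.eval w⁻¹ := rfl
    rw [h2, h3] at h1
    rw [← h1, inv_pow]
    field_simp
  have hb : ‖(p.reflect k).eval z⁻¹‖ ≤ (R⁻¹) ^ k * M := by
    apply Complex.norm_le_of_forall_mem_frontier_norm_le (U := ball (0:ℂ) R⁻¹) isBounded_ball
      ((p.reflect k).differentiable.diffContOnCl)
    · intro w hw
      rw [frontier_ball _ (by positivity), mem_sphere, dist_zero_right] at hw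
      have hw0 : w ≠ 0 := by
        intro h0
        rw [h0, norm_zero] at hw
        have : 0 < R⁻¹ := by positivity
        linarith
      rw [key w hw0, hw]
      apply mul_le_mul_of_nonneg_left _ (by positivity)
      apply h
      rw [norm_inv, hw, inv_inv]
    · rw [closure_ball _ (by positivity), mem_closedBall, dist_zero_right, norm_inv]
      exact inv_anti₀ hR hz
  rw [key _ (inv_ne_zero hz0), inv_inv] at hb
  have hzp : 0 < ‖z‖ := lt_of_lt_of_le hR hz
  rw [norm_inv] at hb
  have h1 : ‖p.eval z‖ = ‖z‖ ^ k * (‖z‖⁻¹ ^ k * ‖p.eval z‖) := by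
    rw [← mul_assoc, ← mul_pow, mul_inv_cancel₀ hzp.ne', one_pow, one_mul]
  rw [h1]
  calc ‖z‖ ^ k * (‖z‖⁻¹ ^ k * ‖p.eval z‖) ≤ ‖z‖ ^ k * (R⁻¹ ^ k * M) :=
        mul_le_mul_of_nonneg_left hb (by positivity)
    _ = (‖z‖ / R) ^ k * M := by
        rw [div_eq_mul_inv, mul_pow]
        ring

end Pool.Agent.TH599.FC
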