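import Pool.Agent.TH599.FC.Defs
import Pool.Agent.TH599.FC.Sub

set_option autoImplicit false

/-! Basic estimates for weights of metrics; the Bernstein-Markov inequality. -/

namespace Pool.Agent.TH599.FC

open MeasureTheory Set Metric Real Polynomial Filter Topology

lemma mem_V {k : ℕ} {p : ℂ[X]} : p ∈ V k ↔ p.natDegree ≤ k := by
  unfold V
  rw [mem_degreeLE, natDegree_le_iff_degree_le]

lemma exists_norm_of_cocompact {P : ℂ → Prop} (h : ∀ᶠ z in cocompact ℂ, P z) :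
    ∃ R : ℝ, 1 ≤ R ∧ ∀ z, R ≤ ‖z‖ → P z := by
  rw [← Metric.cobounded_eq_cocompact, ← comap_norm_atTop, eventually_comap] at h
  obtain ⟨R, hR⟩ := (eventually_atTop.1 h)
  exact ⟨max 1 R, le_max_left _ _, fun z hz => hR ‖z‖ ((le_max_right _ _).trans hz) z rfl⟩

lemma bounded_of_tendsto {h : ℂ → ℝ} (hc : Continuous h) {c : ℝ}
    (ht : Tendsto h (cocompact ℂ) (𝓝 c)) : ∃ C, 0 ≤ C ∧ ∀ z, |h z| ≤ C := by
  have h1 : ∀ᶠ z in cocompact ℂ, |h z| ≤ |c| + 1 := by
    have := ht.abs.eventually (gt_mem_nhds (show |c| < |c| + 1 by linarith))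
    filter_upwards [this] with z hz using hz.le
  obtain ⟨R, _, hR⟩ := exists_norm_of_cocompact h1
  obtain ⟨B, hB⟩ := (isCompact_closedBall (0:ℂ) R).exists_bound_of_continuousOn hc.continuousOn
  refine ⟨max B (|c| + 1), le_trans (by positivity) (le_max_right _ _), fun z => ?_⟩
  by_cases hz : R ≤ ‖z‖
  · exact (hR z hz).trans (le_max_right _ _)
  · refine (hB z ?_).trans (le_max_left _ _)
    rw [mem_closedBall_zero_iff]
    linarith

lemma IsPosMetric.bd {φ : ℂ → ℝ} (hφ : IsPosMetric φ) :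
    ∃ C, 0 ≤ C ∧ ∀ z, |φ z - Real.log (1 + ‖z‖ ^ 2)| ≤ C := by
  obtain ⟨c, hc⟩ := hφ.infty
  refine bounded_of_tendsto ?_ hc
  apply hφ.cont.sub
  apply Continuous.log
  · fun_prop
  · intro z; positivity

lemma IsPosMetric.near {φ : ℂ → ℝ} (hφ : IsPosMetric φ) :
    ∃ c, ∀ ε > 0, ∃ R : ℝ, 1 ≤ R ∧ ∀ z, R ≤ ‖z‖ → |φ z - 2 * Real.log ‖z‖ - c| ≤ ε := by
  obtain ⟨c, hc⟩ := hφ.infty
  refine ⟨c, fun ε hε => ?_⟩
  have h1 : ∀ᶠ z in cocompact ℂ, |φ z - Real.log (1 + ‖z‖ ^ 2) - c| ≤ ε / 2 := by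
    have h2 := (tendsto_order.1 ((hc.sub_const c).abs)).2 (ε / 2) (by simp; linarith)
    filter_upwards [h2] with z hz using hz.le
  obtain ⟨R, hR1, hR⟩ := exists_norm_of_cocompact h1
  refine ⟨max R (1 + 2 / ε), hR1.trans (le_max_left _ _), fun z hz => ?_⟩
  have hz1 : R ≤ ‖z‖ := (le_max_left _ _).trans hz
  have hz2 : 1 + 2 / ε ≤ ‖z‖ := (le_max_right _ _).trans hz
  have hz3 : 1 ≤ ‖z‖ := hR1.trans hz1
  have h3 := hR z hz1
  have h4 : Real.log (1 + ‖z‖ ^ 2) - 2 * Real.log ‖z‖ = Real.log (1 + (‖z‖ ^ 2)⁻¹) := by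
    have : 1 + ‖z‖ ^ 2 = ‖z‖ ^ 2 * (1 + (‖z‖ ^ 2)⁻¹) := by
      field_simp
      ring
    rw [this, Real.log_mul (by positivity) (by positivity), Real.log_pow]
    push_cast
    ring
  have h5 : Real.log (1 + (‖z‖ ^ 2)⁻¹) ≤ ε / 2 := by
    have h6 : Real.log (1 + (‖z‖ ^ 2)⁻¹) ≤ (‖z‖ ^ 2)⁻¹ := by
      have := Real.log_le_sub_one_of_pos (show 0 < 1 + (‖z‖ ^ 2)⁻¹ by positivity)
      linarith
    refine h6.trans ?_
    have h7 : 2 / ε ≤ ‖z‖ ^ 2 := by nlinarith [show 0 < 2 / ε by positivity]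
    have h8 : (‖z‖ ^ 2)⁻¹ ≤ (2 / ε)⁻¹ := inv_anti₀ (by positivity) h7
    rwa [inv_div] at h8
  have h6 : 0 ≤ Real.log (1 + (‖z‖ ^ 2)⁻¹) := Real.log_nonneg (by
    have : 0 ≤ (‖z‖ ^ 2)⁻¹ := by positivity
    linarith)
  rw [abs_le] at h3 ⊢
  constructor <;> linarith [h3.1, h3.2]

/-- A polynomial of degree `≤ k` is bounded by a multiple of `e^{kφ/2}`. -/
lemma IsPosMetric.poly_bd {φ : ℂ → ℝ} (hφ : IsPosMetric φ) {k : ℕ} {p : ℂ[X]}
    (hp : p.natDegree ≤ k) :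
    ∃ B, 0 < B ∧ ∀ z, ‖p.eval z‖ ^ 2 ≤ B * Real.exp (k * φ z) := by
  obtain ⟨C, hC0, hC⟩ := hφ.bd
  obtain ⟨M, hM⟩ := (isCompact_closedBall (0:ℂ) 1).exists_bound_of_continuousOn
    (f := fun z => p.eval z) (by fun_prop)
  have hM0 : 0 ≤ M := (norm_nonneg _).trans (hM 0 (by simp))
  refine ⟨(M + 1) ^ 2 * Real.exp (k * C), by positivity, fun z => ?_⟩
  have h1 : ‖p.eval z‖ ^ 2 ≤ (M + 1) ^ 2 * (1 + ‖z‖ ^ 2) ^ k := by
    by_cases hz : ‖z‖ ≤ 1
    · have h2 := hM z (by simpa using hz)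
      have h3 : (1:ℝ) ≤ (1 + ‖z‖ ^ 2) ^ k := one_le_pow₀ (by nlinarith [norm_nonneg z])
      calc ‖p.eval z‖ ^ 2 ≤ (M + 1) ^ 2 * 1 := by
            rw [mul_one]
            exact pow_le_pow_left₀ (norm_nonneg _) (by simpa using h2.trans (by linarith)) 2
        _ ≤ _ := by gcongr
    · push Not at hz
      have h2 := growth hp (R := 1) (M := M) one_pos (fun w hw => hM w (by simp [hw])) z hz.le
      rw [div_one] at h2
      calc ‖p.eval z‖ ^ 2 ≤ (‖z‖ ^ k * M) ^ 2 := pow_le_pow_left₀ (norm_nonneg _) h2 2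
        _ = M ^ 2 * (‖z‖ ^ 2) ^ k := by ring
        _ ≤ (M + 1) ^ 2 * (1 + ‖z‖ ^ 2) ^ k := by
            gcongr
            · linarith
            · linarith
  have h2 : (1 + ‖z‖ ^ 2) ^ k ≤ Real.exp (k * C) * Real.exp (k * φ z) := by
    rw [← Real.exp_add, ← mul_add]
    have h3 : (1 + ‖z‖ ^ 2 : ℝ) = Real.exp (Real.log (1 + ‖z‖ ^ 2)) := by
      rw [Real.exp_log (by positivity)]
    rw [h3, ← Real.exp_nat_mul]
    apply Real.exp_le_exp.2
    apply mul_le_mul_of_nonneg_left _ (Nat.cast_nonneg k)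
    have := (abs_le.1 (hC z)).1
    linarith
  calc ‖p.eval z‖ ^ 2 ≤ (M + 1) ^ 2 * (1 + ‖z‖ ^ 2) ^ k := h1
    _ ≤ (M + 1) ^ 2 * (Real.exp (k * C) * Real.exp (k * φ z)) := by gcongr
    _ = _ := by ring

lemma IsVolumeForm.finite {μ : Measure ℂ} (hμ : IsVolumeForm μ) : IsFiniteMeasure μ := by
  obtain ⟨ρ, hρc, hρ0, ⟨c, hc0, hc⟩, rfl⟩ := hμ
  obtain ⟨C, hC0, hC⟩ := bounded_of_tendsto (by fun_prop) hc
  have h1 : Integrable ρ (volume : Measure ℂ) := by
    have h2 := integrable_rpow_neg_one_add_norm_sq (E := ℂ) (μ := volume) (r := 4)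
      (by simp; norm_num)
    refine (h2.const_mul C).mono' hρc.aestronglyMeasurable ?_
    refine Eventually.of_forall fun z => ?_
    have h3 := (abs_le.1 (hC z)).2
    rw [Real.norm_of_nonneg (hρ0 z).le]
    have h4 : ((1:ℝ) + ‖z‖ ^ 2) ^ (-(4:ℝ) / 2) = ((1 + ‖z‖ ^ 2) ^ 2)⁻¹ := by
      rw [show (-(4:ℝ) / 2) = -((2:ℕ) : ℝ) by norm_num, Real.rpow_neg (by positivity),
        Real.rpow_natCast]
    rw [h4, ← div_eq_mul_inv, le_div_iff₀ (by positivity), mul_comm]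
    exact h3
  exact isFiniteMeasure_withDensity_ofReal h1.2

lemma IsPosMetric.integrable {φ : ℂ → ℝ} (hφ : IsPosMetric φ) {μ : Measure ℂ}
    (hμ : IsVolumeForm μ) {k : ℕ} {p : ℂ[X]} (hp : p.natDegree ≤ k) :
    Integrable (fun z => ‖p.eval z‖ ^ 2 * Real.exp (-(k * φ z))) μ := by
  have := hμ.finite
  obtain ⟨B, hB0, hB⟩ := hφ.poly_bd hp
  have hφc := hφ.cont
  refine Integrable.of_bound (C := B) ?_ ?_
  · exact (by fun_prop : Continuous fun z => ‖p.eval z‖ ^ 2 *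
      Real.exp (-(k * φ z))).aestronglyMeasurable
  · refine Eventually.of_forall fun z => ?_
    rw [Real.norm_of_nonneg (by positivity)]
    have h1 := hB z
    calc ‖p.eval z‖ ^ 2 * Real.exp (-(k * φ z))
        ≤ (B * Real.exp (k * φ z)) * Real.exp (-(k * φ z)) := by gcongr
      _ = B := by rw [mul_assoc, ← Real.exp_add, add_neg_cancel, Real.exp_zero, mul_one]

/-- The Bernstein-Markov inequality on the whole projective line. -/
lemma IsPosMetric.bernstein_markov {φ : ℂ → ℝ} (hφ : IsPosMetric φ) {μ : Measure ℂ}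
    (hμ : IsVolumeForm μ) {ε : ℝ} (hε : 0 < ε) :
    ∃ C, 0 < C ∧ ∀ (k : ℕ) (p : ℂ[X]), p.natDegree ≤ k → ∀ z,
      ‖p.eval z‖ ^ 2 ≤ C * Real.exp (k * (φ z + ε)) *
        ∫ w, ‖p.eval w‖ ^ 2 * Real.exp (-(k * φ w)) ∂μ := by
  obtain ⟨c, hc⟩ := hφ.near
  obtain ⟨R, hR1, hR⟩ := hc (ε / 4) (by linarith)
  have hR0 : 0 < R := by linarith
  obtain ⟨ρ, hρc, hρ0, hρ1, hμρ⟩ := id hμ
  have hcomp := isCompact_closedBall (0:ℂ) (R + 1)
  obtain ⟨δ, hδ0, hδ1, hδ⟩ : ∃ δ, 0 < δ ∧ δ ≤ 1 ∧ ∀ z w : ℂ, ‖z‖ ≤ R → dist w z < δ →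
      |φ w - φ z| ≤ ε / 4 := by
    have hu := hcomp.uniformContinuousOn_of_continuous hφ.cont.continuousOn
    rw [Metric.uniformContinuousOn_iff] at hu
    obtain ⟨δ, hδ0, hδ⟩ := hu (ε / 4) (by linarith)
    refine ⟨min δ 1, by positivity, min_le_right _ _, fun z w hz hw => ?_⟩
    have hw1 : dist w z < 1 := hw.trans_le (min_le_right _ _)
    have hzm : z ∈ closedBall (0:ℂ) (R + 1) := by
      rw [mem_closedBall_zero_iff]; linarith
    have hwm : w ∈ closedBall (0:ℂ) (R + 1) := by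
      rw [mem_closedBall_zero_iff]
      have : ‖w‖ ≤ ‖z‖ + ‖w - z‖ := by
        calc ‖w‖ = ‖z + (w - z)‖ := by ring_nf
          _ ≤ _ := norm_add_le _ _
      rw [dist_eq_norm] at hw1
      linarith
    have := hδ w hwm z hzm (hw.trans_le (min_le_left _ _))
    rw [Real.dist_eq] at this
    exact this.le
  obtain ⟨m, hm0, hm⟩ : ∃ m, 0 < m ∧ ∀ w ∈ closedBall (0:ℂ) (R + 1), m ≤ ρ w := by
    obtain ⟨w0, _, hw0⟩ := hcomp.exists_isMinOn ⟨0, by simp; linarith⟩ hρc.continuousOn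
    exact ⟨ρ w0, hρ0 w0, fun w hw => hw0 hw⟩
  have hCpos : 0 < 1 / (π * δ ^ 2 * m) := by positivity
  refine ⟨1 / (π * δ ^ 2 * m), hCpos, fun k p hp => ?_⟩
  set I := ∫ w, ‖p.eval w‖ ^ 2 * Real.exp (-(k * φ w)) ∂μ with hI
  have hI0 : 0 ≤ I := integral_nonneg (fun w => by positivity)
  have hint := hφ.integrable hμ hp
  have hIρ : I = ∫ w, ρ w * (‖p.eval w‖ ^ 2 * Real.exp (-(k * φ w))) := by
    rw [hI, hμρ, integral_withDensity_eq_integral_toReal_smul
      (by fun_prop) (Eventually.of_forall fun z => ENNReal.ofReal_lt_top)]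
    congr 1
    ext w
    rw [ENNReal.toReal_ofReal (hρ0 w).le, smul_eq_mul]
  have hintρ : Integrable (fun w => ρ w * (‖p.eval w‖ ^ 2 * Real.exp (-(k * φ w)))) := by
    rw [hμρ, integrable_withDensity_iff_integrable_smul' (by fun_prop)
      (Eventually.of_forall fun z => ENNReal.ofReal_lt_top)] at hint
    refine hint.congr (Eventually.of_forall fun w => ?_)
    simp only [ENNReal.toReal_ofReal (hρ0 w).le, smul_eq_mul]
  have hφc := hφ.cont
  -- the estimate on the disc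
  have key : ∀ z : ℂ, ‖z‖ ≤ R → ‖p.eval z‖ ^ 2 ≤
      1 / (π * δ ^ 2 * m) * Real.exp (k * (φ z + ε / 4)) * I := by
    intro z hz
    have h1 := sq_le_integral_ball p z hδ0
    have h2 : ∫ w in ball z δ, ‖p.eval w‖ ^ 2 ≤
        ∫ w in ball z δ, Real.exp (k * (φ z + ε / 4)) / m *
          (ρ w * (‖p.eval w‖ ^ 2 * Real.exp (-(k * φ w)))) := by
      apply setIntegral_mono_on
      · exact ((by fun_prop : Continuous fun w => ‖p.eval w‖ ^ 2).continuousOn.integrableOn_compact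
          (isCompact_closedBall z δ)).mono_set ball_subset_closedBall
      · exact (hintρ.const_mul _).integrableOn
      · exact measurableSet_ball
      · intro w hw
        rw [mem_ball] at hw
        have h3 := hδ z w hz hw
        have hwm : w ∈ closedBall (0:ℂ) (R + 1) := by
          rw [mem_closedBall_zero_iff]
          have h4 : ‖w‖ ≤ ‖z‖ + ‖w - z‖ := by
            calc ‖w‖ = ‖z + (w - z)‖ := by ring_nf
              _ ≤ _ := norm_add_le _ _
          rw [dist_eq_norm] at hw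
          linarith
        have h4 := hm w hwm
        have h5 : 1 ≤ Real.exp (k * (φ z + ε / 4)) * Real.exp (-(k * φ w)) := by
          rw [← Real.exp_add]
          apply Real.one_le_exp
          have h6 := (abs_le.1 h3).2
          have h7 : (0:ℝ) ≤ k := Nat.cast_nonneg k
          nlinarith
        have h6 : 1 ≤ ρ w / m := by rwa [one_le_div hm0]
        have h7 : 1 ≤ (ρ w / m) * (Real.exp (k * (φ z + ε / 4)) * Real.exp (-(k * φ w))) :=
          one_le_mul_of_one_le_of_one_le h6 h5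
        calc ‖p.eval w‖ ^ 2 = 1 * ‖p.eval w‖ ^ 2 := by ring
          _ ≤ (ρ w / m) * (Real.exp (k * (φ z + ε / 4)) * Real.exp (-(k * φ w))) *
              ‖p.eval w‖ ^ 2 := mul_le_mul_of_nonneg_right h7 (by positivity)
          _ = _ := by ring
    have h3 : ∫ w in ball z δ, Real.exp (k * (φ z + ε / 4)) / m *
          (ρ w * (‖p.eval w‖ ^ 2 * Real.exp (-(k * φ w)))) ≤
        Real.exp (k * (φ z + ε / 4)) / m * I := by
      rw [integral_const_mul, hIρ]
      apply mul_le_mul_of_nonneg_left _ (by positivity)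
      apply setIntegral_le_integral hintρ
      refine Eventually.of_forall fun w => ?_
      have := (hρ0 w).le
      positivity
    have h4 : π * δ ^ 2 * ‖p.eval z‖ ^ 2 ≤ Real.exp (k * (φ z + ε / 4)) / m * I :=
      h1.trans (h2.trans h3)
    have h5 : ‖p.eval z‖ ^ 2 = (1 / (π * δ ^ 2)) * (π * δ ^ 2 * ‖p.eval z‖ ^ 2) := by
      field_simp
    rw [h5]
    calc (1 / (π * δ ^ 2)) * (π * δ ^ 2 * ‖p.eval z‖ ^ 2)
        ≤ (1 / (π * δ ^ 2)) * (Real.exp (k * (φ z + ε / 4)) / m * I) := by gcongr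
      _ = _ := by field_simp
  intro z
  by_cases hz : ‖z‖ ≤ R
  · refine (key z hz).trans ?_
    gcongr
    linarith
  · push Not at hz
    set M := Real.sqrt (1 / (π * δ ^ 2 * m) * Real.exp (k * (2 * Real.log R + c + ε / 2)) * I)
      with hM
    have hb : ∀ w : ℂ, ‖w‖ = R → ‖p.eval w‖ ≤ M := by
      intro w hw
      apply Real.le_sqrt_of_sq_le
      refine (key w hw.le).trans ?_
      have := (abs_le.1 (hR w hw.ge)).2
      rw [hw] at this
      have h8 : φ w + ε / 4 ≤ 2 * Real.log R + c + ε / 2 := by linarith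
      have h9 : Real.exp (k * (φ w + ε / 4)) ≤ Real.exp (k * (2 * Real.log R + c + ε / 2)) :=
        Real.exp_le_exp.2 (mul_le_mul_of_nonneg_left h8 (Nat.cast_nonneg k))
      gcongr
    have h1 := growth hp hR0 hb z hz.le
    have hzp : 0 < ‖z‖ := hR0.trans hz
    have h2 : ‖p.eval z‖ ^ 2 ≤ (‖z‖ / R) ^ (2 * k) * (1 / (π * δ ^ 2 * m) *
        Real.exp (k * (2 * Real.log R + c + ε / 2)) * I) := by
      calc ‖p.eval z‖ ^ 2 ≤ ((‖z‖ / R) ^ k * M) ^ 2 := pow_le_pow_left₀ (norm_nonneg _) h1 2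
        _ = (‖z‖ / R) ^ (2 * k) * M ^ 2 := by ring
        _ = _ := by rw [hM, Real.sq_sqrt (by positivity)]
    have h3 : (‖z‖ / R) ^ (2 * k) = Real.exp (k * (2 * Real.log ‖z‖ - 2 * Real.log R)) := by
      have h4 : ‖z‖ / R = Real.exp (Real.log ‖z‖ - Real.log R) := by
        rw [Real.exp_sub, Real.exp_log hzp, Real.exp_log hR0]
      rw [h4, ← Real.exp_nat_mul]
      congr 1
      push_cast
      ring
    rw [h3] at h2
    refine h2.trans ?_
    have h4 : Real.exp (k * (2 * Real.log ‖z‖ - 2 * Real.log R)) * (1 / (π * δ ^ 2 * m) *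
        Real.exp (k * (2 * Real.log R + c + ε / 2)) * I) =
        1 / (π * δ ^ 2 * m) * Real.exp (k * (2 * Real.log ‖z‖ + c + ε / 2)) * I := by
      have : Real.exp (k * (2 * Real.log ‖z‖ + c + ε / 2)) =
        Real.exp (k * (2 * Real.log ‖z‖ - 2 * Real.log R)) *
          Real.exp (k * (2 * Real.log R + c + ε / 2)) := by
        rw [← Real.exp_add]
        congr 1
        ring
      rw [this]
      ring
    rw [h4]
    have h5 := (abs_le.1 (hR z hz.le)).1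
    have h8 : 2 * Real.log ‖z‖ + c + ε / 2 ≤ φ z + ε := by linarith
    have h9 : Real.exp (k * (2 * Real.log ‖z‖ + c + ε / 2)) ≤ Real.exp (k * (φ z + ε)) :=
      Real.exp_le_exp.2 (mul_le_mul_of_nonneg_left h8 (Nat.cast_nonneg k))
    gcongr

end Pool.Agent.TH599.FC
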