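import Pool.Agent.TH599.FC.BM

set_option autoImplicit false

/-! Orthonormal adapted bases. -/

namespace Pool.Agent.TH599.FC

open MeasureTheory Set Metric Real Polynomial Filter Topology

section

variable {φ : ℂ → ℝ} {μ : Measure ℂ} {F : Filtration} {k : ℕ} {s : Fin (k + 1) → ℂ[X]}
  {lam : Fin (k + 1) → ℝ}

/-- The integrand of the scalar product. -/
noncomputable def ig (φ : ℂ → ℝ) (k : ℕ) (p q : ℂ[X]) (z : ℂ) : ℂ :=
  p.eval z * (starRingEnd ℂ) (q.eval z) * ((Real.exp (-(k * φ z)) : ℝ) : ℂ)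

lemma integrable_ig (hφ : IsPosMetric φ) (hμ : IsVolumeForm μ) {p q : ℂ[X]}
    (hp : p.natDegree ≤ k) (hq : q.natDegree ≤ k) : Integrable (ig φ k p q) μ := by
  have h1 := (hφ.integrable hμ hp).add (hφ.integrable hμ hq)
  have hφc := hφ.cont
  refine h1.mono' ?_ ?_
  · unfold ig
    exact (by fun_prop : Continuous fun z => p.eval z * (starRingEnd ℂ) (q.eval z) *
      ((Real.exp (-(k * φ z)) : ℝ) : ℂ)).aestronglyMeasurable
  · refine Eventually.of_forall fun z => ?_
    unfold ig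
    rw [norm_mul, norm_mul, Complex.norm_real, RCLike.norm_conj,
      Real.norm_of_nonneg (Real.exp_pos _).le]
    simp only [Pi.add_apply]
    rw [← add_mul]
    apply mul_le_mul_of_nonneg_right _ (Real.exp_pos _).le
    nlinarith [sq_nonneg (‖p.eval z‖ - ‖q.eval z‖), norm_nonneg (p.eval z),
      norm_nonneg (q.eval z)]

lemma ig_self (p : ℂ[X]) (z : ℂ) :
    ig φ k p p z = ((‖p.eval z‖ ^ 2 * Real.exp (-(k * φ z)) : ℝ) : ℂ) := by
  unfold ig
  rw [Complex.mul_conj, Complex.normSq_eq_norm_sq]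
  push_cast
  ring

/-- Parseval. -/
lemma IsAdaptedBasis.norm_sum (h : IsAdaptedBasis φ μ F k s lam) (hφ : IsPosMetric φ)
    (hμ : IsVolumeForm μ) (a : Fin (k + 1) → ℂ) :
    ∫ z, ‖(∑ i, C (a i) * s i).eval z‖ ^ 2 * Real.exp (-(k * φ z)) ∂μ = ∑ i, ‖a i‖ ^ 2 := by
  have hint : ∀ i j, Integrable (ig φ k (s i) (s j)) μ := fun i j =>
    integrable_ig hφ hμ (mem_V.1 (h.mem i)) (mem_V.1 (h.mem j))
  have h1 : (((∫ z, ‖(∑ i, C (a i) * s i).eval z‖ ^ 2 * Real.exp (-(k * φ z)) ∂μ : ℝ)) : ℂ) =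
      ∫ z, ig φ k (∑ i, C (a i) * s i) (∑ i, C (a i) * s i) z ∂μ := by
    rw [← integral_complex_ofReal]
    congr 1
    ext z
    rw [ig_self]
  have h2 : ∀ z, ig φ k (∑ i, C (a i) * s i) (∑ i, C (a i) * s i) z =
      ∑ i, ∑ j, (a i * (starRingEnd ℂ) (a j)) * ig φ k (s i) (s j) z := by
    intro z
    unfold ig
    rw [eval_finset_sum, map_sum, Finset.sum_mul_sum, Finset.sum_mul]
    apply Finset.sum_congr rfl
    intro i _
    rw [Finset.sum_mul]
    apply Finset.sum_congr rfl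
    intro j _
    rw [eval_mul, eval_C, eval_mul, eval_C, map_mul]
    ring
  have h3 : ∫ z, ig φ k (∑ i, C (a i) * s i) (∑ i, C (a i) * s i) z ∂μ =
      ∑ i, ∑ j, (a i * (starRingEnd ℂ) (a j)) * (if i = j then 1 else 0) := by
    simp_rw [h2]
    rw [integral_finset_sum]
    · apply Finset.sum_congr rfl
      intro i _
      rw [integral_finset_sum]
      · apply Finset.sum_congr rfl
        intro j _
        rw [integral_const_mul]
        congr 1
        exact h.orth i j
      · intro j _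
        exact (hint i j).const_mul _
    · intro i _
      apply integrable_finset_sum
      intro j _
      exact (hint i j).const_mul _
  have h4 : (∑ i, ∑ j, (a i * (starRingEnd ℂ) (a j)) * (if i = j then (1:ℂ) else 0)) =
      ((∑ i, ‖a i‖ ^ 2 : ℝ) : ℂ) := by
    push_cast
    apply Finset.sum_congr rfl
    intro i _
    simp only [mul_ite, mul_one, mul_zero, Finset.sum_ite_eq, Finset.mem_univ, if_true]
    rw [Complex.mul_conj, Complex.normSq_eq_norm_sq]
    push_cast
    rfl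
  have h5 := h1.trans (h3.trans h4)
  exact_mod_cast h5

lemma IsAdaptedBasis.norm_one (h : IsAdaptedBasis φ μ F k s lam) (hφ : IsPosMetric φ)
    (hμ : IsVolumeForm μ) (i : Fin (k + 1)) :
    ∫ z, ‖(s i).eval z‖ ^ 2 * Real.exp (-(k * φ z)) ∂μ = 1 := by
  have h1 := h.norm_sum hφ hμ (fun j => if j = i then 1 else 0)
  have h2 : ∑ j, C ((fun j => if j = i then (1:ℂ) else 0) j) * s j = s i := by
    rw [Finset.sum_eq_single i]
    · simp
    · intro j _ hj
      simp [hj]
    · simp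
  rw [h2] at h1
  rw [h1]
  rw [Finset.sum_eq_single i]
  · simp
  · intro j _ hj
    simp [hj]
  · simp

lemma IsAdaptedBasis.ne_zero (h : IsAdaptedBasis φ μ F k s lam) (hφ : IsPosMetric φ)
    (hμ : IsVolumeForm μ) (i : Fin (k + 1)) : s i ≠ 0 := by
  intro h0
  have h1 := h.norm_one hφ hμ i
  rw [h0] at h1
  simp at h1

/-- Every element of the filtration is a combination of the basis elements of large level. -/
lemma IsAdaptedBasis.expand (h : IsAdaptedBasis φ μ F k s lam) {l : ℝ} {p : ℂ[X]}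
    (hp : p ∈ F.F l k) : ∃ a : Fin (k + 1) → ℂ, (∀ i, lam i < l → a i = 0) ∧
      p = ∑ i, C (a i) * s i := by
  rw [h.adapted l] at hp
  induction hp using Submodule.span_induction with
  | mem x hx =>
    obtain ⟨j, hj, rfl⟩ := hx
    refine ⟨fun i => if i = j then 1 else 0, ?_, ?_⟩
    · intro i hi
      have : i ≠ j := by
        rintro rfl
        linarith
      simp [this]
    · rw [Finset.sum_eq_single j]
      · simp
      · intro i _ hi
        simp [hi]
      · simp
  | zero => exact ⟨fun _ => 0, fun _ _ => rfl, by simp⟩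
  | add x y _ _ hx hy =>
    obtain ⟨a, ha, hxa⟩ := hx
    obtain ⟨b, hb, hyb⟩ := hy
    refine ⟨fun i => a i + b i, fun i hi => by simp [ha i hi, hb i hi], ?_⟩
    rw [hxa, hyb, ← Finset.sum_add_distrib]
    apply Finset.sum_congr rfl
    intro i _
    simp only [C_add]
    ring
  | smul c x _ hx =>
    obtain ⟨a, ha, hxa⟩ := hx
    refine ⟨fun i => c * a i, fun i hi => by simp [ha i hi], ?_⟩
    rw [hxa, Finset.smul_sum]
    apply Finset.sum_congr rfl
    intro i _
    rw [smul_eq_C_mul, C_mul]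
    ring

lemma IsAdaptedBasis.s_mem (h : IsAdaptedBasis φ μ F k s lam) (i : Fin (k + 1)) :
    s i ∈ F.F (lam i) k := by
  rw [h.adapted]
  exact Submodule.subset_span ⟨i, le_rfl, rfl⟩

lemma IsAdaptedBasis.lam_le (h : IsAdaptedBasis φ μ F k s lam) (hφ : IsPosMetric φ)
    (hμ : IsVolumeForm μ) (i : Fin (k + 1)) : lam i ≤ F.C * k := by
  by_contra hcon
  push Not at hcon
  have h1 := h.s_mem i
  rw [F.none _ _ hcon, Submodule.mem_bot] at h1
  exact h.ne_zero hφ hμ i h1

lemma IsAdaptedBasis.le_lam (h : IsAdaptedBasis φ μ F k s lam) (hφ : IsPosMetric φ)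
    (hμ : IsVolumeForm μ) (i : Fin (k + 1)) : -F.C * k ≤ lam i := by
  by_contra hcon
  push Not at hcon
  have h1 : s i ∈ F.F (-F.C * k) k := by
    rw [F.all _ _ le_rfl]
    exact h.mem i
  obtain ⟨a, ha, hs⟩ := h.expand h1
  have h2 := h.norm_sum hφ hμ (fun j => if j = i then 1 else -a j)
  have h3 : ∑ j, C ((fun j => if j = i then (1:ℂ) else -a j) j) * s j = 0 := by
    have h4 : ∀ j, C ((fun j => if j = i then (1:ℂ) else -a j) j) * s j =
        (if j = i then s i else 0) - C (a j) * s j := by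
      intro j
      by_cases hj : j = i
      · subst hj
        simp [ha j hcon]
      · simp [hj]
    simp_rw [h4]
    rw [Finset.sum_sub_distrib, ← hs]
    simp
  rw [h3] at h2
  simp only [eval_zero, norm_zero] at h2
  have h5 : (1:ℝ) ≤ ∑ j, ‖(fun j => if j = i then (1:ℂ) else -a j) j‖ ^ 2 := by
    have h6 := Finset.single_le_sum
      (f := fun j => ‖(fun j => if j = i then (1:ℂ) else -a j) j‖ ^ 2)
      (fun j _ => by positivity) (Finset.mem_univ i)
    simpa using h6
  rw [← h2] at h5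
  simp at h5
  linarith

lemma IsAdaptedBasis.exists_ne (h : IsAdaptedBasis φ μ F k s lam) (z : ℂ) :
    ∃ i, (s i).eval z ≠ 0 := by
  by_contra hcon
  push Not at hcon
  have h1 : (1 : ℂ[X]) ∈ F.F (-F.C * k) k := by
    rw [F.all _ _ le_rfl, mem_V]
    simp
  obtain ⟨a, _, hs⟩ := h.expand h1
  have h2 := congrArg (fun p => p.eval z) hs
  simp only [eval_one, eval_finset_sum, eval_mul, eval_C, hcon, mul_zero,
    Finset.sum_const_zero] at h2
  exact one_ne_zero h2

/-- The sum in the definition of `φ_k^f`. -/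
noncomputable def bsum (τ : ℝ) (f : ℝ → ℝ) (k : ℕ) (s : Fin (k + 1) → ℂ[X])
    (lam : Fin (k + 1) → ℝ) (z : ℂ) : ℝ :=
  ∑ i, ‖(s i).eval z‖ ^ 2 * Real.exp (τ * (k * f (lam i / k)))

lemma phik_eq (τ : ℝ) (f : ℝ → ℝ) (z : ℂ) :
    phik τ f k s lam z = 1 / (k : ℝ) * Real.log (bsum τ f k s lam z) := rfl

lemma IsAdaptedBasis.bsum_pos (h : IsAdaptedBasis φ μ F k s lam) (τ : ℝ) (f : ℝ → ℝ) (z : ℂ) :
    0 < bsum τ f k s lam z := by
  obtain ⟨i, hi⟩ := h.exists_ne z
  unfold bsum
  have h1 : 0 < ‖(s i).eval z‖ ^ 2 * Real.exp (τ * (k * f (lam i / k))) := by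
    have := norm_pos_iff.2 hi
    positivity
  refine lt_of_lt_of_le h1 ?_
  exact Finset.single_le_sum
    (f := fun i => ‖(s i).eval z‖ ^ 2 * Real.exp (τ * (k * f (lam i / k))))
    (fun j _ => by positivity) (Finset.mem_univ i)

lemma IsAdaptedBasis.continuous_phik (h : IsAdaptedBasis φ μ F k s lam) (τ : ℝ) (f : ℝ → ℝ) :
    Continuous (phik τ f k s lam) := by
  have h1 : Continuous (bsum τ f k s lam) := by
    unfold bsum
    fun_prop
  have h2 : phik τ f k s lam = fun z => 1 / (k : ℝ) * Real.log (bsum τ f k s lam z) := rfl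
  rw [h2]
  exact continuous_const.mul (h1.log (fun z => (h.bsum_pos τ f z).ne'))

lemma IsAdaptedBasis.term_le (h : IsAdaptedBasis φ μ F k s lam) (hk : 1 ≤ k) (τ : ℝ) (f : ℝ → ℝ)
    (i : Fin (k + 1)) (z : ℂ) (hz : (s i).eval z ≠ 0) :
    1 / (k : ℝ) * Real.log (‖(s i).eval z‖ ^ 2) - (-τ * f (lam i / k)) ≤
      phik τ f k s lam z := by
  have hk0 : (0:ℝ) < k := by exact_mod_cast hk
  have h0 := norm_pos_iff.2 hz
  have h1 : ‖(s i).eval z‖ ^ 2 * Real.exp (τ * (k * f (lam i / k))) ≤ bsum τ f k s lam z := by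
    unfold bsum
    exact Finset.single_le_sum
      (f := fun i => ‖(s i).eval z‖ ^ 2 * Real.exp (τ * (k * f (lam i / k))))
      (fun j _ => by positivity) (Finset.mem_univ i)
  have h2 := Real.log_le_log (by positivity) h1
  rw [Real.log_mul (by positivity) (Real.exp_pos _).ne', Real.log_exp] at h2
  rw [phik_eq]
  have h3 : 1 / (k : ℝ) * Real.log (‖(s i).eval z‖ ^ 2) - (-τ * f (lam i / k)) =
      1 / (k : ℝ) * (Real.log (‖(s i).eval z‖ ^ 2) + τ * (k * f (lam i / k))) := by
    field_simp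
    ring
  rw [h3]
  exact mul_le_mul_of_nonneg_left h2 (by positivity)

/-- Some term is at least the average. -/
lemma IsAdaptedBasis.exists_term (h : IsAdaptedBasis φ μ F k s lam) (hk : 1 ≤ k) (τ : ℝ)
    (f : ℝ → ℝ) (z : ℂ) :
    ∃ i, (s i).eval z ≠ 0 ∧ phik τ f k s lam z - 1 / (k:ℝ) * Real.log (k + 1) ≤
      1 / (k : ℝ) * Real.log (‖(s i).eval z‖ ^ 2) - (-τ * f (lam i / k)) := by
  have hk0 : (0:ℝ) < k := by exact_mod_cast hk
  obtain ⟨i, _, hi⟩ := Finset.exists_le_of_sum_le (s := (Finset.univ : Finset (Fin (k + 1))))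
    (f := fun _ => bsum τ f k s lam z / (k + 1))
    (g := fun i => ‖(s i).eval z‖ ^ 2 * Real.exp (τ * (k * f (lam i / k))))
    ⟨0, Finset.mem_univ _⟩ (by
      rw [Finset.sum_const, Finset.card_univ, Fintype.card_fin, nsmul_eq_mul]
      push_cast
      rw [mul_div_cancel₀ _ (by positivity)]
      exact le_rfl)
  have hpos := h.bsum_pos τ f z
  have h0 : (s i).eval z ≠ 0 := by
    intro h0
    simp only [h0, norm_zero] at hi
    have : 0 < bsum τ f k s lam z / (k + 1) := by positivity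
    simp at hi
    linarith
  refine ⟨i, h0, ?_⟩
  have h0' := norm_pos_iff.2 h0
  have h2 := Real.log_le_log (by positivity) hi
  rw [Real.log_mul (by positivity) (Real.exp_pos _).ne', Real.log_exp,
    Real.log_div hpos.ne' (by positivity)] at h2
  have h3 : 1 / (k : ℝ) * Real.log (‖(s i).eval z‖ ^ 2) - (-τ * f (lam i / k)) =
      1 / (k : ℝ) * (Real.log (‖(s i).eval z‖ ^ 2) + τ * (k * f (lam i / k))) := by
    field_simp
    ring
  rw [h3, phik_eq, ← mul_sub]
  exact mul_le_mul_of_nonneg_left h2 (by positivity)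

end

/-- Local upper bounds for `φ_k^f`. -/
lemma phik_bdd {φ : ℂ → ℝ} {μ : Measure ℂ} {F : Filtration} {s : (k : ℕ) → Fin (k + 1) → ℂ[X]}
    {lam : (k : ℕ) → Fin (k + 1) → ℝ}
    (h : ∀ k, 1 ≤ k → IsAdaptedBasis φ μ F k (s k) (lam k)) (hφ : IsPosMetric φ)
    (hμ : IsVolumeForm μ) {τ : ℝ} {f : ℝ → ℝ} {B : ℝ} (hf : ∀ x, τ * f x ≤ B)
    (K : Set ℂ) (hK : IsCompact K) :
    ∃ B' : ℝ, ∀ᶠ k in atTop, ∀ z ∈ K, phik τ f k (s k) (lam k) z ≤ B' := by
  obtain ⟨C, hC0, hC⟩ := hφ.bernstein_markov hμ one_pos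
  obtain ⟨M, hM⟩ := hK.exists_bound_of_continuousOn hφ.cont.continuousOn
  refine ⟨1 + |Real.log C| + (M + 1) + B, ?_⟩
  filter_upwards [eventually_ge_atTop 1] with k hk z hz
  have hk0 : (0:ℝ) < k := by exact_mod_cast hk
  have hk1 : (1:ℝ) ≤ k := by exact_mod_cast hk
  have hb := h k hk
  have h1 : bsum τ f k (s k) (lam k) z ≤ (k + 1) * (C * Real.exp (k * (φ z + 1)) *
      Real.exp (k * B)) := by
    unfold bsum
    have h2 : ∀ i ∈ (Finset.univ : Finset (Fin (k + 1))), ‖(s k i).eval z‖ ^ 2 *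
        Real.exp (τ * (k * f (lam k i / k))) ≤ C * Real.exp (k * (φ z + 1)) *
        Real.exp (k * B) := by
      intro i _
      have h3 := hC k (s k i) (mem_V.1 (hb.mem i)) z
      rw [hb.norm_one hφ hμ i, mul_one] at h3
      have h4 : Real.exp (τ * (k * f (lam k i / k))) ≤ Real.exp (k * B) := by
        apply Real.exp_le_exp.2
        have := hf (lam k i / k)
        nlinarith
      gcongr
    refine (Finset.sum_le_sum h2).trans ?_
    rw [Finset.sum_const, Finset.card_univ, Fintype.card_fin, nsmul_eq_mul]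
    push_cast
    exact le_rfl
  have h2 := Real.log_le_log (hb.bsum_pos τ f z) h1
  rw [Real.log_mul (by positivity) (by positivity), Real.log_mul (by positivity)
    (Real.exp_pos _).ne', Real.log_mul (by positivity) (Real.exp_pos _).ne', Real.log_exp,
    Real.log_exp] at h2
  rw [phik_eq]
  have h3 : Real.log (k + 1) ≤ k := by
    have := Real.log_le_sub_one_of_pos (show (0:ℝ) < k + 1 by positivity)
    linarith
  have h4 : Real.log C ≤ k * |Real.log C| := by
    calc Real.log C ≤ |Real.log C| := le_abs_self _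
      _ = 1 * |Real.log C| := (one_mul _).symm
      _ ≤ k * |Real.log C| := by gcongr
  have h5 : φ z ≤ M := by
    have := hM z hz
    rw [Real.norm_eq_abs] at this
    exact (abs_le.1 this).2
  have h6 : Real.log (bsum τ f k (s k) (lam k) z) ≤ k * (1 + |Real.log C| + (M + 1) + B) := by
    nlinarith
  calc 1 / (k : ℝ) * Real.log (bsum τ f k (s k) (lam k) z)
      ≤ 1 / (k : ℝ) * (k * (1 + |Real.log C| + (M + 1) + B)) := by gcongr
    _ = _ := by field_simp

end Pool.Agent.TH599.FC
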