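import Pool.Agent.TH599.FC.Cross

set_option autoImplicit false

/-! Comparison of two rigid metrics in one image. -/

namespace Pool.Agent.TH599.FC

open MeasureTheory Set Metric Real Polynomial Filter Topology

section

variable {φ : ℂ → ℝ} {μ : Measure ℂ} {F : Filtration} {s : (k : ℕ) → Fin (k + 1) → ℂ[X]}
  {lam : (k : ℕ) → Fin (k + 1) → ℝ} {f : ℝ → ℝ} {a : ℝ → ℝ} {ψ : ℂ → ℝ}

lemma cross_point (E : ExtSeq ψ (fun x => -(-1) * f x) s lam)
    (h : ∀ k, 1 ≤ k → IsAdaptedBasis φ μ F k (s k) (lam k)) (hφ : IsPosMetric φ)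
    (hμ : IsVolumeForm μ) (hψ : IsPosMetric ψ) (hf : Antitone f)
    (hfL : ContinuousWithinAt f (Iic E.Λ) E.Λ)
    (hlim : IsUscLim (fun k => phik (-1) f k (s k) (lam k)) ψ) {x : ℂ}
    (hx : ∀ n, (s (E.k n) (E.i n)).eval x ≠ 0) {l : ℕ} (hl : 1 ≤ l) {T : ℂ[X]}
    (hT : T.natDegree ≤ l) (hTb : ∀ z, ‖T.eval z‖ ^ 2 ≤ Real.exp (l * φ z)) {y : ℝ}
    (hy : Real.exp (l * y) ≤ ‖T.eval x‖ ^ 2) : y ≤ ψ x + E.c := by
  have hlimf : Tendsto (fun n => f (lam (E.k n) (E.i n) / E.k n)) atTop (𝓝 E.c) := by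
    have := E.a_lim
    simpa using this
  apply le_of_forall_pos_le_add
  intro ε hε
  by_cases hcase : ∃ᶠ n in atTop, lam (E.k n) (E.i n) / E.k n ≤ E.Λ
  · -- the constant is at least the value at the limit level
    have hc : f E.Λ ≤ E.c := by
      by_contra hcon
      push Not at hcon
      have h1 := (tendsto_order.1 hlimf).2 _ hcon
      obtain ⟨n, hn1, hn2⟩ := (hcase.and_eventually h1).exists
      have := hf hn1
      linarith
    obtain ⟨ν, hν, hν2⟩ : ∃ ν, ν < E.Λ ∧ f ν < f E.Λ + ε / 2 := by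
      rw [Metric.continuousWithinAt_iff] at hfL
      obtain ⟨δ, hδ0, hδ⟩ := hfL (ε / 2) (half_pos hε)
      refine ⟨E.Λ - δ / 2, by linarith, ?_⟩
      have h1 := hδ (x := E.Λ - δ / 2) (by rw [mem_Iic]; linarith) (by
        rw [Real.dist_eq, abs_lt]
        constructor <;> linarith)
      rw [Real.dist_eq] at h1
      linarith [(abs_lt.1 h1).2]
    obtain ⟨M, hM, hQ⟩ := E.lift h hφ hμ hψ hx hl hT hTb hy (ν := ν) hν (half_pos hε)
    have h1 := hQ.bound h hφ hμ hf hlim hM
    linarith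
  · rw [not_frequently] at hcase
    simp only [not_le] at hcase
    have hfc : ∀ ν, E.Λ < ν → f ν ≤ E.c := by
      intro ν hν
      apply ge_of_tendsto hlimf
      have h1 := (tendsto_order.1 E.l_lim).2 ν hν
      filter_upwards [h1] with n hn
      exact hf hn.le
    obtain ⟨n0, hn0⟩ := hcase.exists
    set k0 := E.k n0 with hk0
    set ℓ := lam (E.k n0) (E.i n0) / E.k n0 with hℓ
    have hk01 : 1 ≤ k0 := E.one_le n0
    have hk0r : (0:ℝ) < k0 := by exact_mod_cast hk01
    have hmem : s (E.k n0) (E.i n0) ∈ F.F (ℓ * k0) k0 := E.mem h le_rfl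
    obtain ⟨A, hA0, hA⟩ := hφ.poly_bd (mem_V.1 (F.le _ _ hmem))
    set t := s (E.k n0) (E.i n0) with ht
    have htx : 0 < ‖t.eval x‖ ^ 2 := by
      have := norm_pos_iff.2 (hx n0)
      positivity
    set Y0 := Real.log (‖t.eval x‖ ^ 2) - Real.log A with hY0
    have hQ0 : QP φ F x k0 (ℓ * k0) Y0 := by
      refine ⟨C ((Real.exp (-(Real.log A) / 2) : ℝ) : ℂ) * t, ?_, fun z => ?_, ?_⟩
      · rw [← smul_eq_C_mul]
        exact Submodule.smul_mem _ _ hmem
      · rw [eval_mul, eval_C, norm_mul, Complex.norm_real,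
          Real.norm_of_nonneg (Real.exp_pos _).le, mul_pow, ← Real.exp_nat_mul]
        have h1 : Real.exp (((2:ℕ):ℝ) * (-(Real.log A) / 2)) = A⁻¹ := by
          have : ((2:ℕ):ℝ) * (-(Real.log A) / 2) = -(Real.log A) := by push_cast; ring
          rw [this, Real.exp_neg, Real.exp_log hA0]
        rw [h1, inv_mul_le_iff₀ hA0]
        exact hA z
      · rw [eval_mul, eval_C, norm_mul, Complex.norm_real,
          Real.norm_of_nonneg (Real.exp_pos _).le, mul_pow, ← Real.exp_nat_mul]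
        have h1 : Real.exp (((2:ℕ):ℝ) * (-(Real.log A) / 2)) = A⁻¹ := by
          have : ((2:ℕ):ℝ) * (-(Real.log A) / 2) = -(Real.log A) := by push_cast; ring
          rw [this, Real.exp_neg, Real.exp_log hA0]
        rw [h1, hY0, Real.exp_sub, Real.exp_log htx, Real.exp_log hA0, div_eq_inv_mul]
    have key : ∀ p : ℕ, 1 ≤ p → p * (y - ε) + Y0 / k0 ≤ (p + 1) * (ψ x + E.c) := by
      intro p hp
      have hp0 : (0:ℝ) < p := by exact_mod_cast hp
      set ν := E.Λ - (ℓ - E.Λ) / (2 * p) with hν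
      have hνL : ν < E.Λ := by
        rw [hν]
        have : 0 < (ℓ - E.Λ) / (2 * p) := by
          apply div_pos (by linarith) (by positivity)
        linarith
      obtain ⟨M, hM, hQ⟩ := E.lift h hφ hμ hψ hx hl hT hTb hy hνL hε
      have hM0 : (0:ℝ) < M := by exact_mod_cast hM
      have hQ2 := (hQ.pow (p * k0)).mul (hQ0.pow M)
      have hM2 : 1 ≤ p * k0 * M + M * k0 := by
        have : 1 ≤ M * k0 := Nat.mul_pos hM hk01
        omega
      have e1 : ((p * k0 : ℕ) : ℝ) * (M * ν) + M * (ℓ * k0) =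
          ((p * k0 * M + M * k0 : ℕ) : ℝ) * ((p * ν + ℓ) / (p + 1)) := by
        push_cast
        field_simp
      have e2 : ((p * k0 : ℕ) : ℝ) * (M * (y - ε)) + M * Y0 =
          ((p * k0 * M + M * k0 : ℕ) : ℝ) * ((p * (y - ε) + Y0 / k0) / (p + 1)) := by
        push_cast
        field_simp
      rw [e1, e2] at hQ2
      have h1 := hQ2.bound h hφ hμ hf hlim hM2
      have h2 : E.Λ < (p * ν + ℓ) / (p + 1) := by
        rw [lt_div_iff₀ (by positivity)]
        have h3 : p * ν = p * E.Λ - (ℓ - E.Λ) / 2 := by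
          rw [hν]
          field_simp
        rw [h3]
        linarith
      have h3 := hfc _ h2
      have h4 : (p * (y - ε) + Y0 / k0) / (p + 1) ≤ ψ x + E.c := by linarith
      rw [div_le_iff₀ (by positivity)] at h4
      linarith
    by_contra hcon
    push Not at hcon
    set d := y - ε - (ψ x + E.c) with hd
    have hd0 : 0 < d := by rw [hd]; linarith
    obtain ⟨p, hp⟩ := exists_nat_gt (max 1 ((ψ x + E.c - Y0 / k0) / d))
    have hp1 : (1:ℝ) < p := (le_max_left _ _).trans_lt hp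
    have hp2 : (ψ x + E.c - Y0 / k0) / d < p := (le_max_right _ _).trans_lt hp
    rw [div_lt_iff₀ hd0] at hp2
    have h1 := key p (by exact_mod_cast hp1.le)
    have h2 : (p:ℝ) * d = p * (y - ε) - p * (ψ x + E.c) := by rw [hd]; ring
    linarith

lemma dense_nonzero {t : ℕ → ℂ[X]} (ht : ∀ n, t n ≠ 0) :
    Dense {x : ℂ | ∀ n, (t n).eval x ≠ 0} := by
  have h1 : (⋃ n, {x : ℂ | (t n).eval x = 0}).Countable := by
    apply countable_iUnion
    intro n
    apply Set.Finite.countable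
    refine ((t n).roots.toFinset.finite_toSet).subset ?_
    intro z hz
    simp only [Finset.mem_coe, Multiset.mem_toFinset, mem_roots (ht n)]
    exact hz
  have h2 := h1.dense_compl ℝ
  refine h2.mono ?_
  intro x hx n
  simp only [mem_compl_iff, mem_iUnion, mem_setOf_eq, not_exists] at hx
  exact hx n

lemma cross (E : ExtSeq ψ (fun x => -(-1) * f x) s lam)
    (h : ∀ k, 1 ≤ k → IsAdaptedBasis φ μ F k (s k) (lam k)) (hφ : IsPosMetric φ)
    (hμ : IsVolumeForm μ) (hψ : IsPosMetric ψ) (hf : Antitone f)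
    (hfL : ContinuousWithinAt f (Iic E.Λ) E.Λ)
    (hlim : IsUscLim (fun k => phik (-1) f k (s k) (lam k)) ψ) {l : ℕ} (hl : 1 ≤ l) {T : ℂ[X]}
    (hT : T.natDegree ≤ l) {β : ℝ} (hTb : ∀ z, ‖T.eval z‖ ^ 2 ≤ Real.exp (l * (φ z + β)))
    (x : ℂ) : ‖T.eval x‖ ^ 2 ≤ Real.exp (l * (ψ x + E.c + β)) := by
  have hl0 : (0:ℝ) < l := by exact_mod_cast hl
  have hcl : IsClosed {x : ℂ | ‖T.eval x‖ ^ 2 ≤ Real.exp (l * (ψ x + E.c + β))} := by
    have := hψ.cont
    exact isClosed_le (by fun_prop) (by fun_prop)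
  have hd := dense_nonzero (t := fun n => s (E.k n) (E.i n))
    (fun n => (h _ (E.one_le n)).ne_zero hφ hμ (E.i n))
  have hsub : {x : ℂ | ∀ n, (s (E.k n) (E.i n)).eval x ≠ 0} ⊆
      {x : ℂ | ‖T.eval x‖ ^ 2 ≤ Real.exp (l * (ψ x + E.c + β))} := by
    intro x hx
    simp only [mem_setOf_eq] at hx ⊢
    by_cases h0 : T.eval x = 0
    · rw [h0, norm_zero, zero_pow two_ne_zero]
      exact (Real.exp_pos _).le
    · have hpos : 0 < ‖T.eval x‖ ^ 2 := by
        have := norm_pos_iff.2 h0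
        positivity
      set T' := C ((Real.exp (-(l * β) / 2) : ℝ) : ℂ) * T with hT'
      have hT'e : ∀ z, ‖T'.eval z‖ ^ 2 = Real.exp (-(l * β)) * ‖T.eval z‖ ^ 2 := by
        intro z
        rw [hT', eval_mul, eval_C, norm_mul, Complex.norm_real,
          Real.norm_of_nonneg (Real.exp_pos _).le, mul_pow, ← Real.exp_nat_mul]
        congr 2
        push_cast
        ring
      have h1 := cross_point E h hφ hμ hψ hf hfL hlim hx hl (T := T')
        (y := Real.log (‖T.eval x‖ ^ 2) / l - β)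
        ((natDegree_C_mul_le _ _).trans hT) (fun z => by
          rw [hT'e]
          calc Real.exp (-(l * β)) * ‖T.eval z‖ ^ 2 ≤
                Real.exp (-(l * β)) * Real.exp (l * (φ z + β)) :=
                mul_le_mul_of_nonneg_left (hTb z) (Real.exp_pos _).le
            _ = Real.exp (l * φ z) := by
                rw [← Real.exp_add]
                congr 1
                ring) (by
          rw [hT'e]
          have e1 : (l:ℝ) * (Real.log (‖T.eval x‖ ^ 2) / l - β) =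
              -(l * β) + Real.log (‖T.eval x‖ ^ 2) := by
            field_simp
            ring
          rw [e1, Real.exp_add, Real.exp_log hpos])
      have h2 : Real.log (‖T.eval x‖ ^ 2) / l ≤ ψ x + E.c + β := by linarith
      rw [div_le_iff₀ hl0] at h2
      rw [← Real.log_le_iff_le_exp hpos]
      linarith
  exact hcl.closure_subset_iff.2 hsub (hd x)

/-- If the elements of an extremal sequence for `ψ` are bounded by `ψ'+c'` then
`ψ + c ≤ ψ' + c'`. -/
lemma ExtSeq.le_of_upper (E : ExtSeq ψ a s lam) (hψ : Continuous ψ) {ψ' : ℂ → ℝ}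
    (hψ' : Continuous ψ') {c' : ℝ} (hup : UpperBd ψ' c' E.k (fun n => s (E.k n) (E.i n))) (x : ℂ) :
    ψ x + E.c ≤ ψ' x + c' := by
  apply le_of_forall_pos_le_add
  intro ε hε
  obtain ⟨r1, hr1, h1⟩ := Metric.continuous_iff.1 hψ x (ε / 4) (by linarith)
  obtain ⟨r2, hr2, h2⟩ := Metric.continuous_iff.1 hψ' x (ε / 4) (by linarith)
  obtain ⟨n, hn1, hn2⟩ := ((E.near x (min (min r1 r2) 1) (by positivity) (ε / 4)
    (by linarith)).and (hup _ (isCompact_closedBall x 1) (ε / 4) (by linarith))).exists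
  obtain ⟨w, hw, hw2⟩ := hn1
  rw [mem_ball] at hw
  have hwr1 : dist w x < r1 := hw.trans_le ((min_le_left _ _).trans (min_le_left _ _))
  have hwr2 : dist w x < r2 := hw.trans_le ((min_le_left _ _).trans (min_le_right _ _))
  have hw1 : w ∈ closedBall x 1 := by
    rw [mem_closedBall]
    exact (hw.trans_le (min_le_right _ _)).le
  have h3 := hw2.trans (hn2 w hw1)
  rw [Real.exp_le_exp] at h3
  have hkn : (0:ℝ) < E.k n := by exact_mod_cast E.one_le n
  have h4 := le_of_mul_le_mul_left h3 hkn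
  have h5 := h1 w hwr1
  have h6 := h2 w hwr2
  rw [Real.dist_eq] at h5 h6
  have h7 := (abs_lt.1 h5).1
  have h8 := (abs_lt.1 h6).2
  linarith

lemma compare_neg {ψ' : ℂ → ℝ} (E : ExtSeq ψ a s lam)
    (E' : ExtSeq ψ' (fun x => -(-1) * f x) s lam)
    (h : ∀ k, 1 ≤ k → IsAdaptedBasis φ μ F k (s k) (lam k)) (hφ : IsPosMetric φ)
    (hμ : IsVolumeForm μ) (hψ : IsPosMetric ψ) (hψ' : IsPosMetric ψ') (hf : Antitone f)
    (hfL : ContinuousWithinAt f (Iic E'.Λ) E'.Λ)
    (hlim : IsUscLim (fun k => phik (-1) f k (s k) (lam k)) ψ') (x : ℂ) :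
    ψ x + E.c ≤ ψ' x + E'.c := by
  apply E.le_of_upper hψ.cont hψ'.cont
  intro K hK ε hε
  obtain ⟨C, hC0, hC⟩ := hφ.bernstein_markov hμ (half_pos hε)
  have e1 : ∀ᶠ n in atTop, Real.log C ≤ E.k n * (ε / 2) := by
    have h1 : Tendsto (fun n => (E.k n : ℝ) * (ε / 2)) atTop atTop :=
      (tendsto_natCast_atTop_atTop.comp E.k_lim).atTop_mul_const (by positivity)
    exact h1.eventually (eventually_ge_atTop _)
  filter_upwards [e1] with n hn z _
  have hb := h _ (E.one_le n)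
  apply cross E' h hφ hμ hψ' hf hfL hlim (E.one_le n) (mem_V.1 (hb.mem (E.i n)))
  intro w
  have h1 := hC (E.k n) _ (mem_V.1 (hb.mem (E.i n))) w
  rw [hb.norm_one hφ hμ, mul_one] at h1
  refine h1.trans ?_
  calc C * Real.exp (E.k n * (φ w + ε / 2)) =
        Real.exp (Real.log C + E.k n * (φ w + ε / 2)) := by
        rw [Real.exp_add, Real.exp_log hC0]
    _ ≤ _ := by
        apply Real.exp_le_exp.2
        have : (E.k n : ℝ) * (φ w + ε) = E.k n * (ε / 2) + E.k n * (φ w + ε / 2) := by ring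
        linarith

lemma compare_pos {ψ' : ℂ → ℝ} {τ B : ℝ} (E : ExtSeq ψ a s lam)
    (h : ∀ k, 1 ≤ k → IsAdaptedBasis φ μ F k (s k) (lam k)) (hφ : IsPosMetric φ)
    (hμ : IsVolumeForm μ) (hψ : IsPosMetric ψ) (hψ' : IsPosMetric ψ') (hf : ContinuousAt f E.Λ)
    (hB : ∀ x, |τ * f x| ≤ B)
    (hlim : IsUscLim (fun k => phik τ f k (s k) (lam k)) ψ') (x : ℂ) :
    ψ x + E.c ≤ ψ' x + (-τ * f E.Λ) := by
  apply E.le_of_upper hψ.cont hψ'.cont
  intro K hK ε hε
  have h1 := E.k_lim.eventually (basis_upper h hφ hμ hB hψ'.cont hlim hK (half_pos hε))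
  have h2 : Tendsto (fun n => -τ * f (lam (E.k n) (E.i n) / E.k n)) atTop
      (𝓝 (-τ * f E.Λ)) := ((hf.tendsto.comp E.l_lim).const_mul (-τ))
  have h3 := (tendsto_order.1 h2).2 (-τ * f E.Λ + ε / 2) (by linarith)
  filter_upwards [h1, h3] with n hn1 hn2 z hz
  refine (hn1 (E.i n) z hz).trans ?_
  apply Real.exp_le_exp.2
  apply mul_le_mul_of_nonneg_left _ (Nat.cast_nonneg _)
  linarith

end

end Pool.Agent.TH599.FC
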