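import Pool.Agent.TH599.FC.Hartogs
import Pool.Agent.TH599.FC.Basis

set_option autoImplicit false

/-! Existence of extremal sequences of basis elements. -/

namespace Pool.Agent.TH599.FC

open MeasureTheory Set Metric Real Polynomial Filter Topology

lemma limsup_pure' (g : ℂ → EReal) (z : ℂ) : limsup g (pure z) = g z := by
  rw [limsup, map_pure, ← principal_singleton, limsSup_principal_eq_sSup, sSup_singleton]

lemma IsUscLim.upper {u : ℕ → ℂ → ℝ} {ψ : ℂ → ℝ} (h : IsUscLim u ψ) (z : ℂ) {ε : ℝ}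
    (hε : 0 < ε) : ∀ᶠ k in atTop, u k z ≤ ψ z + ε := by
  have h1 : limsup (fun k => ((u k z : ℝ) : EReal)) atTop ≤ ((ψ z : ℝ) : EReal) := by
    rw [← h z]
    have h2 := limsup_le_limsup_of_le (f := pure z) (g := 𝓝 z)
      (u := fun w => limsup (fun k => ((u k w : ℝ) : EReal)) atTop) (pure_le_nhds z)
    refine le_trans (le_of_eq ?_) h2
    rw [limsup_pure']
  have h2 : limsup (fun k => ((u k z : ℝ) : EReal)) atTop < ((ψ z + ε : ℝ) : EReal) := by
    refine lt_of_le_of_lt h1 ?_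
    exact_mod_cast (by linarith : ψ z < ψ z + ε)
  filter_upwards [eventually_lt_of_limsup_lt h2] with k hk
  exact_mod_cast hk.le

lemma IsUscLim.lower {u : ℕ → ℂ → ℝ} {ψ : ℂ → ℝ} (h : IsUscLim u ψ) (z : ℂ) {ε η : ℝ}
    (hε : 0 < ε) (hη : 0 < η) :
    ∃ w ∈ ball z η, ∃ᶠ k in atTop, ψ z - ε < u k w := by
  have h1 : ((ψ z - ε : ℝ) : EReal) <
      limsup (fun w => limsup (fun k => ((u k w : ℝ) : EReal)) atTop) (𝓝 z) := by
    rw [h z]
    exact_mod_cast (by linarith : ψ z - ε < ψ z)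
  have h2 := frequently_lt_of_lt_limsup (by isBoundedDefault) h1
  obtain ⟨w, hw1, hw2⟩ := (h2.and_eventually (ball_mem_nhds z hη)).exists
  refine ⟨w, hw2, ?_⟩
  have h3 := frequently_lt_of_lt_limsup (by isBoundedDefault) hw1
  exact h3.mono (fun k hk => by exact_mod_cast hk)

/-- An extremal sequence of basis elements for `ψ`, with weights `a (λ/k)`. -/
structure ExtSeq (ψ : ℂ → ℝ) (a : ℝ → ℝ) (s : (k : ℕ) → Fin (k + 1) → ℂ[X])
    (lam : (k : ℕ) → Fin (k + 1) → ℝ) where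
  k : ℕ → ℕ
  i : (n : ℕ) → Fin (k n + 1)
  c : ℝ
  Λ : ℝ
  one_le : ∀ n, 1 ≤ k n
  k_lim : Tendsto k atTop atTop
  l_lim : Tendsto (fun n => lam (k n) (i n) / k n) atTop (𝓝 Λ)
  a_lim : Tendsto (fun n => a (lam (k n) (i n) / k n)) atTop (𝓝 c)
  upper : UpperBd ψ c k (fun n => s (k n) (i n))
  near : ∀ x, NearExt ψ c k (fun n => s (k n) (i n)) x

section

variable {φ : ℂ → ℝ} {μ : Measure ℂ} {F : Filtration} {s : (k : ℕ) → Fin (k + 1) → ℂ[X]}
  {lam : (k : ℕ) → Fin (k + 1) → ℝ} {τ : ℝ} {f : ℝ → ℝ} {ψ : ℂ → ℝ}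

lemma basis_upper (h : ∀ k, 1 ≤ k → IsAdaptedBasis φ μ F k (s k) (lam k)) (hφ : IsPosMetric φ)
    (hμ : IsVolumeForm μ) {B : ℝ} (hf : ∀ x, |τ * f x| ≤ B) (hψ : Continuous ψ)
    (hlim : IsUscLim (fun k => phik τ f k (s k) (lam k)) ψ) {K : Set ℂ} (hK : IsCompact K)
    {ε : ℝ} (hε : 0 < ε) :
    ∀ᶠ k in atTop, ∀ i : Fin (k + 1), ∀ z ∈ K, ‖(s k i).eval z‖ ^ 2 ≤
      Real.exp (k * (ψ z + (-τ * f (lam k i / k)) + ε)) := by
  have h1 := hartogs (u := fun k => phik τ f k (s k) (lam k)) hψ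
    (by
      filter_upwards [eventually_ge_atTop 1] with k hk
      exact (h k hk).continuous_phik τ f)
    (fun K hK => phik_bdd h hφ hμ (fun x => (le_abs_self _).trans (hf x)) K hK)
    (fun z ε hε => hlim.upper z hε) hK hε
  filter_upwards [h1, eventually_ge_atTop 1] with k hk hk1 i z hz
  exact hk (s k i) _ (fun z hz => (h k hk1).term_le hk1 τ f i z hz) z hz

lemma log_succ_div_tendsto : Tendsto (fun k : ℕ => 1 / (k:ℝ) * Real.log (k + 1)) atTop (𝓝 0) := by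
  have h1 : Tendsto (fun x : ℝ => Real.log x / x) atTop (𝓝 0) :=
    Real.isLittleO_log_id_atTop.tendsto_div_nhds_zero
  have h2 : Tendsto (fun k : ℕ => Real.log ((k:ℝ) + 1) / ((k:ℝ) + 1)) atTop (𝓝 0) := by
    refine h1.comp ?_
    exact tendsto_natCast_atTop_atTop.atTop_add tendsto_const_nhds
  have h3 : Tendsto (fun k : ℕ => 2 * (Real.log ((k:ℝ) + 1) / ((k:ℝ) + 1))) atTop (𝓝 0) := by
    simpa using h2.const_mul 2
  apply squeeze_zero' _ _ h3
  · filter_upwards with k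
    apply mul_nonneg (by positivity)
    apply Real.log_nonneg
    have : (0:ℝ) ≤ k := Nat.cast_nonneg k
    linarith
  · filter_upwards [eventually_ge_atTop 1] with k hk
    have hk1 : (1:ℝ) ≤ k := by exact_mod_cast hk
    have h4 : 0 ≤ Real.log ((k:ℝ) + 1) := Real.log_nonneg (by linarith)
    have h5 : 1 / (k:ℝ) ≤ 2 / (k + 1) := by
      rw [div_le_div_iff₀ (by linarith) (by linarith)]
      linarith
    calc 1 / (k:ℝ) * Real.log (k + 1) ≤ 2 / (k + 1) * Real.log (k + 1) := by gcongr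
      _ = _ := by ring

/-- Extremal sequences exist if `ψ` is harmonic on a connected dense open set. -/
lemma exists_extSeq (h : ∀ k, 1 ≤ k → IsAdaptedBasis φ μ F k (s k) (lam k)) (hφ : IsPosMetric φ)
    (hμ : IsVolumeForm μ) {B : ℝ} (hf : ∀ x, |τ * f x| ≤ B) (hψ : Continuous ψ)
    (hlim : IsUscLim (fun k => phik τ f k (s k) (lam k)) ψ)
    {Ω : Set ℂ} (hΩo : IsOpen Ω) (hΩc : IsPreconnected Ω) (hΩd : Dense Ω)
    (hmean : ∀ (w : ℂ) (R : ℝ), 0 < R → closedBall w R ⊆ Ω →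
      ∫ z in ball w R, ψ z ≤ π * R ^ 2 * ψ w)
    {x0 : ℂ} (hx0 : x0 ∈ Ω) :
    Nonempty (ExtSeq ψ (fun x => -τ * f x) s lam) := by
  have hsel : ∀ n : ℕ, ∃ (w : ℂ) (k : ℕ) (i : Fin (k + 1)), w ∈ ball x0 (1 / ((n:ℝ) + 1)) ∧
      n + 1 ≤ k ∧ (s k i).eval w ≠ 0 ∧
      ψ x0 - 1 / ((n:ℝ) + 1) - 1 / (k:ℝ) * Real.log (k + 1) ≤
      1 / (k : ℝ) * Real.log (‖(s k i).eval w‖ ^ 2) - (-τ * f (lam k i / k)) := by
    intro n
    have hn : (0:ℝ) < 1 / ((n:ℝ) + 1) := by positivity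
    obtain ⟨w, hw, hfr⟩ := hlim.lower x0 hn hn
    obtain ⟨k, hk1, hk2⟩ := (hfr.and_eventually (eventually_ge_atTop (n + 1))).exists
    obtain ⟨i, hi, hi2⟩ := (h k (by omega)).exists_term (by omega) τ f w
    exact ⟨w, k, i, hw, hk2, hi, by linarith⟩
  choose w k i hw hk hne hval using hsel
  have hk1 : ∀ n, 1 ≤ k n := fun n => by have := hk n; omega
  set p : ℕ → ℝ × ℝ := fun n => (lam (k n) (i n) / k n, -τ * f (lam (k n) (i n) / k n)) with hp
  have hcomp : IsCompact (Icc (-F.C) F.C ×ˢ Icc (-B) B) := isCompact_Icc.prod isCompact_Icc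
  have hmem : ∀ n, p n ∈ Icc (-F.C) F.C ×ˢ Icc (-B) B := by
    intro n
    have hkn : (0:ℝ) < k n := by exact_mod_cast (hk1 n)
    have h1 := (h (k n) (hk1 n)).lam_le hφ hμ (i n)
    have h2 := (h (k n) (hk1 n)).le_lam hφ hμ (i n)
    have h3 := abs_le.1 (hf (lam (k n) (i n) / k n))
    refine ⟨⟨?_, ?_⟩, ⟨?_, ?_⟩⟩
    · simp only [hp]
      rw [le_div_iff₀ hkn]
      exact h2
    · simp only [hp]
      rw [div_le_iff₀ hkn]
      exact h1
    · simp only [hp]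
      linarith
    · simp only [hp]
      linarith
  obtain ⟨⟨Λ, c⟩, _, θ, hθ, hθlim⟩ := hcomp.tendsto_subseq hmem
  have hklim : Tendsto (fun n => k (θ n)) atTop atTop := by
    refine tendsto_atTop_mono (fun n => ?_) tendsto_id
    have h1 := hk (θ n)
    have h2 := hθ.id_le n
    simp only [id] at h2 ⊢
    omega
  have hllim : Tendsto (fun n => lam (k (θ n)) (i (θ n)) / k (θ n)) atTop (𝓝 Λ) :=
    (continuous_fst.tendsto _).comp hθlim
  have halim : Tendsto (fun n => -τ * f (lam (k (θ n)) (i (θ n)) / k (θ n))) atTop (𝓝 c) :=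
    (continuous_snd.tendsto _).comp hθlim
  have hupper : UpperBd ψ c (fun n => k (θ n)) (fun n => s (k (θ n)) (i (θ n))) := by
    intro K hK ε hε
    have h1 := hklim.eventually (basis_upper h hφ hμ hf hψ hlim hK (half_pos hε))
    have h2 := (tendsto_order.1 halim).2 (c + ε / 2) (by linarith)
    filter_upwards [h1, h2] with n hn1 hn2 z hz
    refine (hn1 (i (θ n)) z hz).trans ?_
    apply Real.exp_le_exp.2
    apply mul_le_mul_of_nonneg_left _ (Nat.cast_nonneg _)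
    linarith
  refine ⟨⟨fun n => k (θ n), fun n => i (θ n), c, Λ, fun n => hk1 _, hklim, hllim, halim,
    hupper, ?_⟩⟩
  apply nearExt_all hΩo hΩc hΩd hψ hmean (fun n => hk1 _) hupper hx0
  intro η hη ε hε
  have hθtop : Tendsto θ atTop atTop := hθ.tendsto_atTop
  have hcast : Tendsto (fun n => 1 / ((θ n : ℝ) + 1)) atTop (𝓝 0) :=
    tendsto_one_div_add_atTop_nhds_zero_nat.comp hθtop
  obtain ⟨ρ, hρ0, hρ⟩ := Metric.continuous_iff.1 hψ x0 (ε / 4) (by linarith)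
  have e1 := (tendsto_order.1 hcast).2 (min (min η ρ) (ε / 4)) (by positivity)
  have e2 := (tendsto_order.1 (log_succ_div_tendsto.comp hklim)).2 (ε / 4) (by linarith)
  have e3 := (tendsto_order.1 halim).1 (c - ε / 4) (by linarith)
  filter_upwards [e1, e2, e3] with n h1 h2 h3
  have hkn : (0:ℝ) < k (θ n) := by exact_mod_cast (hk1 (θ n))
  have hη' : 1 / ((θ n : ℝ) + 1) < η := h1.trans_le ((min_le_left _ _).trans (min_le_left _ _))
  have hρ' : 1 / ((θ n : ℝ) + 1) < ρ := h1.trans_le ((min_le_left _ _).trans (min_le_right _ _))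
  have hε' : 1 / ((θ n : ℝ) + 1) < ε / 4 := h1.trans_le (min_le_right _ _)
  have hwb := hw (θ n)
  rw [mem_ball] at hwb
  refine ⟨w (θ n), hwb.trans hη', ?_⟩
  have h4 := hρ (w (θ n)) (hwb.trans hρ')
  rw [Real.dist_eq] at h4
  have h5 := (abs_lt.1 h4).2
  have h6 := hval (θ n)
  simp only [Function.comp_apply] at h2
  have h7 : 0 < ‖(s (k (θ n)) (i (θ n))).eval (w (θ n))‖ ^ 2 := by
    have := norm_pos_iff.2 (hne (θ n))
    positivity
  rw [← Real.le_log_iff_exp_le h7]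
  have h8 : ψ (w (θ n)) + c - ε ≤
      1 / (k (θ n) : ℝ) * Real.log (‖(s (k (θ n)) (i (θ n))).eval (w (θ n))‖ ^ 2) := by
    linarith
  have h9 := mul_le_mul_of_nonneg_left h8 hkn.le
  refine h9.trans (le_of_eq ?_)
  field_simp

end

end Pool.Agent.TH599.FC
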