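import Pool.Agent.TH599.FC.Small
import Pool.Agent.TH599.FC.Good
import Pool.Agent.TH599.FC.Alg

set_option autoImplicit false

/-! The limit level of an extremal sequence is at most the left end of the support of the
Duistermaat-Heckman measure. -/

namespace Pool.Agent.TH599.FC

open MeasureTheory Set Metric Real Polynomial Filter Topology

lemma V_eq (m : ℕ) : V m = degreeLT ℂ (m + 1) := by
  unfold V
  rw [degreeLT_succ_eq_degreeLE]

instance (m : ℕ) : Module.Finite ℂ (V m) := by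
  rw [V_eq]
  exact Module.Finite.equiv (degreeLTEquiv ℂ (m + 1)).symm

lemma finrank_V (m : ℕ) : Module.finrank ℂ (V m) = m + 1 := by
  rw [V_eq, (degreeLTEquiv ℂ (m + 1)).finrank_eq]
  simp

lemma Filtration.C_nonneg (F : Filtration) : 0 ≤ F.C := by
  by_contra hcon
  push Not at hcon
  have h1 : F.F (-F.C) 1 = V 1 := F.all _ _ (by simp)
  have h2 : F.F (-F.C) 1 = ⊥ := F.none _ _ (by push_cast; linarith)
  rw [h2] at h1
  have h3 := finrank_V 1
  rw [← h1] at h3
  simp at h3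

lemma finrank_lower {G : Submodule ℂ ℂ[X]} {M m : ℕ} (hG : G ≤ V M) {g : ℂ[X]} (hg : g ≠ 0)
    (h : ∀ R : ℂ[X], R.natDegree ≤ m → g * R ∈ G) : m + 1 ≤ Module.finrank ℂ G := by
  have hfin : Module.Finite ℂ G := Submodule.finiteDimensional_of_le hG
  have hinj : Function.Injective (LinearMap.mulLeft ℂ g) := by
    intro a b hab
    simp only [LinearMap.mulLeft_apply] at hab
    exact mul_left_cancel₀ hg hab
  have h1 : (V m).map (LinearMap.mulLeft ℂ g) ≤ G := by
    rintro _ ⟨R, hR, rfl⟩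
    exact h R (mem_V.1 hR)
  have h2 := Submodule.finrank_mono h1
  rw [← (Submodule.equivMapOfInjective _ hinj (V m)).finrank_eq, finrank_V] at h2
  exact h2

lemma supp_nonempty {F : Filtration} {σ : Measure ℝ} (h : IsDH F σ) : (supp σ).Nonempty := by
  obtain ⟨hfin, lam, _, _, hlim⟩ := h
  by_contra hcon
  rw [not_nonempty_iff_eq_empty] at hcon
  have h0 : σ = 0 := by
    rw [← Measure.measure_univ_eq_zero]
    apply measure_null_of_locally_null
    intro x _
    have hx : x ∉ supp σ := by rw [hcon]; simp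
    unfold supp at hx
    simp only [mem_setOf_eq, not_forall, not_lt, nonpos_iff_eq_zero] at hx
    obtain ⟨U, hU, hU2⟩ := hx
    exact ⟨U, by rwa [nhdsWithin_univ], hU2⟩
  have h1 := hlim 1
  rw [h0] at h1
  simp only [BoundedContinuousFunction.coe_one, Pi.one_apply, Finset.sum_const,
    Finset.card_univ, Fintype.card_fin, nsmul_eq_mul, mul_one, integral_zero_measure] at h1
  have h2 : ∀ᶠ k : ℕ in atTop, (1:ℝ) ≤ 1 / (k : ℝ) * ((k + 1 : ℕ) : ℝ) := by
    filter_upwards [eventually_ge_atTop 1] with k hk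
    have hk0 : (0:ℝ) < k := by exact_mod_cast hk
    rw [div_mul_eq_mul_div, one_mul, le_div_iff₀ hk0]
    push_cast
    linarith
  have h3 := ge_of_tendsto h1 h2
  linarith

/-- The test function. -/
noncomputable def testf (m : ℝ) : BoundedContinuousFunction ℝ ℝ :=
  BoundedContinuousFunction.ofNormedAddCommGroup (fun y => max 0 (min 1 (m - y)))
    (by fun_prop) 1 (by
      intro y
      rw [Real.norm_of_nonneg (le_max_left _ _)]
      exact max_le zero_le_one (min_le_left _ _))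

lemma testf_apply (m y : ℝ) : testf m y = max 0 (min 1 (m - y)) := rfl

lemma testf_nonneg (m y : ℝ) : 0 ≤ testf m y := le_max_left _ _

lemma testf_le (m y : ℝ) : testf m y ≤ if y < m then 1 else 0 := by
  rw [testf_apply]
  split_ifs with h
  · exact max_le zero_le_one (min_le_left _ _)
  · push Not at h
    apply max_le le_rfl
    exact (min_le_right _ _).trans (by linarith)

lemma testf_pos {m y : ℝ} (h : y < m) : 0 < testf m y := by
  rw [testf_apply]
  apply lt_max_of_lt_right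
  apply lt_min one_pos
  linarith

lemma integral_testf_pos {σ : Measure ℝ} [IsFiniteMeasure σ] {x m : ℝ} (hx : x ∈ supp σ)
    (hxm : x < m) : 0 < ∫ y, testf m y ∂σ := by
  rw [integral_pos_iff_support_of_nonneg (fun y => testf_nonneg m y)
    ((testf m).integrable σ)]
  apply hx
  filter_upwards [Iio_mem_nhds hxm] with y hy
  exact (testf_pos hy).ne'

section

variable {φ : ℂ → ℝ} {μ : Measure ℂ} {F : Filtration} {s : (k : ℕ) → Fin (k + 1) → ℂ[X]}
  {lam : (k : ℕ) → Fin (k + 1) → ℝ} {a : ℝ → ℝ} {ψ : ℂ → ℝ}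

lemma ExtSeq.mem (E : ExtSeq ψ a s lam) (h : ∀ k, 1 ≤ k → IsAdaptedBasis φ μ F k (s k) (lam k))
    {ν : ℝ} {n : ℕ} (hν : ν ≤ lam (E.k n) (E.i n) / E.k n) :
    s (E.k n) (E.i n) ∈ F.F (ν * E.k n) (E.k n) := by
  have h1 := (h _ (E.one_le n)).s_mem (E.i n)
  have hkn : (0:ℝ) < E.k n := by exact_mod_cast E.one_le n
  refine F.anti _ ?_ h1
  rwa [le_div_iff₀ hkn] at hν

/-- The key algebraic input: almost everything, up to a small factor, lies in a deep level. -/
lemma ExtSeq.approx (E : ExtSeq ψ a s lam)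
    (h : ∀ k, 1 ≤ k → IsAdaptedBasis φ μ F k (s k) (lam k)) (hφ : IsPosMetric φ)
    (hμ : IsVolumeForm μ) (hψ : IsPosMetric ψ) {ν : ℝ} (hν : ν < E.Λ) {n0 : ℕ}
    (hn0 : ν ≤ lam (E.k n0) (E.i n0) / E.k n0) {δ : ℝ} (hδ : 0 < δ) :
    ∃ (k' : ℕ) (S : Multiset ℂ) (κ : ℕ), 1 ≤ k' ∧
      (∀ a ∈ S, a ∈ (s (E.k n0) (E.i n0)).roots) ∧
      (Multiset.card S : ℝ) ≤ E.k n0 * δ * (E.k n0 * k' : ℕ) ∧
      κ + Multiset.card S ≤ E.k n0 * k' ∧
      ((E.k n0 * k' : ℕ) : ℝ) - (1 + E.k n0) * δ * (E.k n0 * k' : ℕ) ≤ κ ∧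
      ∀ (N : ℕ) (R : ℂ[X]), R.natDegree ≤ E.k n0 * k' + N * κ →
        pr S ^ N * R ∈ F.F (-F.C * (E.k n0 * k' : ℕ) + N * (ν * (E.k n0 * k' : ℕ)))
          ((N + 1) * (E.k n0 * k')) := by
  have e1 : ∀ᶠ n in atTop, ∀ x ∈ (s (E.k n0) (E.i n0)).roots.toFinset,
      ((s (E.k n) (E.i n)).rootMultiplicity x : ℝ) ≤ δ * E.k n := by
    rw [Filter.eventually_all_finset]
    intro x _
    exact ord_small hψ.cont E.one_le E.upper (E.near x) hδ
  have e2 := deg_large hψ E.one_le E.upper E.near hδ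
  have e3 := (tendsto_order.1 E.l_lim).1 ν hν
  obtain ⟨n1, h1, h2, h3⟩ := (e1.and (e2.and e3)).exists
  obtain ⟨S, κ, hS1, hS2, hS3, hS4, hS5⟩ := FC.approx F (E.mem h hn0) (E.mem h h3.le)
    ((h _ (E.one_le n0)).ne_zero hφ hμ (E.i n0)) ((h _ (E.one_le n1)).ne_zero hφ hμ (E.i n1))
    (δ := δ) (fun x hx => h1 x (Multiset.mem_toFinset.2 hx)) h2
  exact ⟨E.k n1, S, κ, E.one_le n1, hS1, hS2, hS3, hS4, hS5⟩

lemma ExtSeq.le_lo (E : ExtSeq ψ a s lam)
    (h : ∀ k, 1 ≤ k → IsAdaptedBasis φ μ F k (s k) (lam k)) (hφ : IsPosMetric φ)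
    (hμ : IsVolumeForm μ) (hψ : IsPosMetric ψ) {σ : Measure ℝ} (hσ : IsDH F σ) :
    E.Λ ≤ lo σ := by
  by_contra hcon
  push Not at hcon
  obtain ⟨x, hx, hxΛ⟩ := exists_lt_of_csInf_lt (supp_nonempty hσ) hcon
  obtain ⟨hfin, lam', _, hcount, hlim⟩ := hσ
  set m1 := (2 * x + E.Λ) / 3 with hm1
  set m2 := (x + 2 * E.Λ) / 3 with hm2
  have hx1 : x < m1 := by rw [hm1]; linarith
  have h12 : m1 < m2 := by rw [hm1, hm2]; linarith
  have h2Λ : m2 < E.Λ := by rw [hm2]; linarith
  obtain ⟨n0, hn0⟩ := ((tendsto_order.1 E.l_lim).1 m2 h2Λ).exists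
  set e := ∫ y, testf m1 y ∂σ with he
  have he0 : 0 < e := integral_testf_pos hx hx1
  have hk0 : (0:ℝ) < E.k n0 := by exact_mod_cast E.one_le n0
  obtain ⟨k', S, κ, hk', hS1, hS2, hS3, hS4, hS5⟩ := E.approx h hφ hμ hψ h2Λ hn0.le
    (δ := e / (2 * (1 + E.k n0))) (by positivity)
  set K := E.k n0 * k' with hK
  have hK1 : 1 ≤ K := Nat.mul_pos (E.one_le n0) hk'
  have hK0 : (0:ℝ) < K := by exact_mod_cast hK1
  have hdK : (1 + (E.k n0 : ℝ)) * (e / (2 * (1 + E.k n0))) * K = e / 2 * K := by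
    field_simp
  rw [hdK] at hS4
  have hMlim : Tendsto (fun N : ℕ => (N + 1) * K) atTop atTop := by
    refine tendsto_atTop_mono (fun N => ?_) tendsto_id
    simp only [id]
    nlinarith
  have hT := (hlim (testf m1)).comp hMlim
  have hle : e ≤ e / 2 := by
    refine le_of_tendsto hT ?_
    filter_upwards [eventually_ge_atTop (Nat.ceil ((F.C + m1) / (m2 - m1)))] with N hN
    have hN' : (F.C + m1) / (m2 - m1) ≤ N := (Nat.le_ceil _).trans (by exact_mod_cast hN)
    rw [div_le_iff₀ (by linarith)] at hN'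
    simp only [Function.comp_apply]
    set M := (N + 1) * K with hM
    have hM1 : 1 ≤ M := Nat.mul_pos (Nat.succ_pos _) hK1
    have hM0 : (0:ℝ) < M := by exact_mod_cast hM1
    have hMc : (M : ℝ) = (N + 1) * K := by rw [hM]; push_cast; ring
    have hlev : m1 * M ≤ -F.C * K + N * (m2 * K) := by
      rw [hMc]
      nlinarith
    have hrank : K + N * κ + 1 ≤ Module.finrank ℂ (F.F (m1 * M) M) := by
      apply finrank_lower (F.le _ _) (pow_ne_zero N (pr_ne_zero S))
      intro R hR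
      exact F.anti _ hlev (hS5 N R hR)
    rw [hcount] at hrank
    have hsum : ∑ j, testf m1 (lam' M j / M) ≤
        ((Finset.univ.filter (fun j => ¬ (m1 * M ≤ lam' M j))).card : ℝ) := by
      rw [Finset.card_filter]
      push_cast
      apply Finset.sum_le_sum
      intro j _
      refine (testf_le _ _).trans ?_
      have hiff : lam' M j / M < m1 ↔ ¬ (m1 * M ≤ lam' M j) := by
        rw [div_lt_iff₀ hM0, not_le]
      simp only [hiff]
      exact le_rfl
    have hcard := Finset.card_filter_add_card_filter_not (s := (Finset.univ : Finset (Fin (M + 1))))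
      (p := fun j => m1 * M ≤ lam' M j)
    rw [Finset.card_univ, Fintype.card_fin] at hcard
    have h1 : (Finset.univ.filter (fun j => ¬ (m1 * M ≤ lam' M j))).card ≤ M - (K + N * κ) := by
      omega
    have h2 : ((Finset.univ.filter (fun j => ¬ (m1 * M ≤ lam' M j))).card : ℝ) ≤
        M - (K + N * κ) := by
      have h3 : K + N * κ ≤ M := by omega
      calc ((Finset.univ.filter (fun j => ¬ (m1 * M ≤ lam' M j))).card : ℝ)
          ≤ ((M - (K + N * κ) : ℕ) : ℝ) := by exact_mod_cast h1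
        _ = _ := by rw [Nat.cast_sub h3]; push_cast; ring
    have hN0 : (0:ℝ) ≤ N := Nat.cast_nonneg N
    have h3 : (M : ℝ) - (K + N * κ) ≤ e / 2 * M := by
      rw [hMc]
      nlinarith
    calc 1 / (M : ℝ) * ∑ j, testf m1 (lam' M j / M) ≤ 1 / (M : ℝ) * (e / 2 * M) := by
          apply mul_le_mul_of_nonneg_left _ (by positivity)
          linarith
      _ = e / 2 := by field_simp
  linarith

end

end Pool.Agent.TH599.FC
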