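import Pool.Agent.TH599.FC.Count

set_option autoImplicit false

/-! The main estimate: `ψ + c` dominates all sections of the reference metric. -/

namespace Pool.Agent.TH599.FC

open MeasureTheory Set Metric Real Polynomial Filter Topology

/-- There is an element of degree `M` and level `L`, bounded by `e^{Mφ}`, of size `e^Y` at `x`. -/
def QP (φ : ℂ → ℝ) (F : Filtration) (x : ℂ) (M : ℕ) (L Y : ℝ) : Prop :=
  ∃ s ∈ F.F L M, (∀ z, ‖s.eval z‖ ^ 2 ≤ Real.exp (M * φ z)) ∧ Real.exp Y ≤ ‖s.eval x‖ ^ 2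

lemma QP.mul {φ : ℂ → ℝ} {F : Filtration} {x : ℂ} {M M' : ℕ} {L L' Y Y' : ℝ}
    (h : QP φ F x M L Y) (h' : QP φ F x M' L' Y') : QP φ F x (M + M') (L + L') (Y + Y') := by
  obtain ⟨s, hs, hs1, hs2⟩ := h
  obtain ⟨s', hs', hs1', hs2'⟩ := h'
  refine ⟨s * s', F.mul _ _ _ _ _ _ hs hs', fun z => ?_, ?_⟩
  · rw [eval_mul, norm_mul, mul_pow]
    push_cast
    rw [add_mul, Real.exp_add]
    exact mul_le_mul (hs1 z) (hs1' z) (by positivity) (Real.exp_pos _).le
  · rw [eval_mul, norm_mul, mul_pow, Real.exp_add]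
    exact mul_le_mul hs2 hs2' (Real.exp_pos _).le (by positivity)

lemma QP.pow {φ : ℂ → ℝ} {F : Filtration} {x : ℂ} {M : ℕ} {L Y : ℝ}
    (h : QP φ F x M L Y) (j : ℕ) : QP φ F x (j * M) (j * L) (j * Y) := by
  obtain ⟨s, hs, hs1, hs2⟩ := h
  refine ⟨s ^ j, F.pow_mem hs j, fun z => ?_, ?_⟩
  · rw [eval_pow, norm_pow, ← pow_mul, mul_comm j 2, pow_mul]
    push_cast
    rw [mul_assoc, Real.exp_nat_mul]
    exact pow_le_pow_left₀ (by positivity) (hs1 z) j
  · rw [eval_pow, norm_pow, ← pow_mul, mul_comm j 2, pow_mul, Real.exp_nat_mul]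
    exact pow_le_pow_left₀ (Real.exp_pos _).le hs2 j

/-- Cauchy-Schwarz for combinations. -/
lemma comb_sq_le {n : ℕ} (a b : Fin n → ℂ) :
    ‖∑ i, a i * b i‖ ^ 2 ≤ (∑ i, ‖a i‖ ^ 2) * ∑ i, (if a i = 0 then 0 else ‖b i‖ ^ 2) := by
  have h1 : ‖∑ i, a i * b i‖ ≤ ∑ i, ‖a i‖ * (if a i = 0 then 0 else ‖b i‖) := by
    refine (norm_sum_le _ _).trans (Finset.sum_le_sum fun i _ => ?_)
    rw [norm_mul]
    split_ifs with h
    · simp [h]
    · exact le_rfl
  have h2 : (∑ i, ‖a i‖ * (if a i = 0 then 0 else ‖b i‖)) ^ 2 ≤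
      (∑ i, ‖a i‖ ^ 2) * ∑ i, (if a i = 0 then 0 else ‖b i‖) ^ 2 :=
    Finset.sum_mul_sq_le_sq_mul_sq _ _ _
  have h3 : ∑ i, (if a i = 0 then 0 else ‖b i‖) ^ 2 =
      ∑ i, (if a i = 0 then 0 else ‖b i‖ ^ 2) := by
    apply Finset.sum_congr rfl
    intro i _
    split_ifs <;> simp
  rw [← h3]
  exact (pow_le_pow_left₀ (norm_nonneg _) h1 2).trans h2

section

variable {φ : ℂ → ℝ} {μ : Measure ℂ} {F : Filtration} {s : (k : ℕ) → Fin (k + 1) → ℂ[X]}
  {lam : (k : ℕ) → Fin (k + 1) → ℝ} {f : ℝ → ℝ} {a : ℝ → ℝ} {ψ : ℂ → ℝ}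

lemma integral_le_measure (hφ : IsPosMetric φ) (hμ : IsVolumeForm μ) {k : ℕ} {p : ℂ[X]}
    (hp : p.natDegree ≤ k) (h : ∀ z, ‖p.eval z‖ ^ 2 ≤ Real.exp (k * φ z)) :
    ∫ z, ‖p.eval z‖ ^ 2 * Real.exp (-(k * φ z)) ∂μ ≤ μ.real univ := by
  have := hμ.finite
  calc ∫ z, ‖p.eval z‖ ^ 2 * Real.exp (-(k * φ z)) ∂μ ≤ ∫ _, (1:ℝ) ∂μ := by
        apply integral_mono (hφ.integrable hμ hp) (integrable_const _)
        intro z
        have h1 := h z
        calc ‖p.eval z‖ ^ 2 * Real.exp (-(k * φ z)) ≤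
              Real.exp (k * φ z) * Real.exp (-(k * φ z)) :=
              mul_le_mul_of_nonneg_right h1 (Real.exp_pos _).le
          _ = 1 := by rw [← Real.exp_add, add_neg_cancel, Real.exp_zero]
    _ = μ.real univ := by simp

/-- Elements of deep level bound the sum from below. -/
lemma bsum_lower {k : ℕ} (hk : 1 ≤ k) (hb : IsAdaptedBasis φ μ F k (s k) (lam k))
    (hφ : IsPosMetric φ) (hμ : IsVolumeForm μ) (hf : Antitone f) {ν : ℝ} {x : ℂ} {p : ℂ[X]}
    (hp : p ∈ F.F (ν * k) k) (h1 : ∀ z, ‖p.eval z‖ ^ 2 ≤ Real.exp (k * φ z)) :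
    ‖p.eval x‖ ^ 2 ≤ μ.real univ * (Real.exp (k * f ν) * bsum (-1) f k (s k) (lam k) x) := by
  have hk0 : (0:ℝ) < k := by exact_mod_cast hk
  obtain ⟨c, hc, hpc⟩ := hb.expand hp
  have h2 := hb.norm_sum hφ hμ c
  rw [← hpc] at h2
  have h3 := integral_le_measure hφ hμ (mem_V.1 (F.le _ _ hp)) h1
  rw [h2] at h3
  have h4 : p.eval x = ∑ i, c i * (s k i).eval x := by
    conv_lhs => rw [hpc]
    rw [eval_finset_sum]
    apply Finset.sum_congr rfl
    intro i _
    rw [eval_mul, eval_C]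
  rw [h4]
  refine (comb_sq_le c (fun i => (s k i).eval x)).trans ?_
  apply mul_le_mul h3 _ _ (by positivity)
  · unfold bsum
    rw [Finset.mul_sum]
    apply Finset.sum_le_sum
    intro i _
    split_ifs with hi
    · positivity
    · have hl : ν * k ≤ lam k i := by
        by_contra hcon
        push Not at hcon
        exact hi (hc i hcon)
      have hl' : ν ≤ lam k i / k := by rwa [le_div_iff₀ hk0]
      have h5 := hf hl'
      have h6 : (1:ℝ) ≤ Real.exp (k * f ν) * Real.exp (-1 * (k * f (lam k i / k))) := by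
        rw [← Real.exp_add]
        apply Real.one_le_exp
        have := mul_le_mul_of_nonneg_left h5 hk0.le
        linarith
      calc ‖(s k i).eval x‖ ^ 2 = 1 * ‖(s k i).eval x‖ ^ 2 := (one_mul _).symm
        _ ≤ (Real.exp (k * f ν) * Real.exp (-1 * (k * f (lam k i / k)))) *
            ‖(s k i).eval x‖ ^ 2 := mul_le_mul_of_nonneg_right h6 (by positivity)
        _ = _ := by ring
  · apply Finset.sum_nonneg
    intro i _
    split_ifs <;> positivity

lemma QP.bound (h : ∀ k, 1 ≤ k → IsAdaptedBasis φ μ F k (s k) (lam k)) (hφ : IsPosMetric φ)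
    (hμ : IsVolumeForm μ) (hf : Antitone f)
    (hlim : IsUscLim (fun k => phik (-1) f k (s k) (lam k)) ψ) {x : ℂ} {M : ℕ} (hM : 1 ≤ M)
    {ν y : ℝ} (hQ : QP φ F x M (M * ν) (M * y)) : y ≤ ψ x + f ν := by
  have hM0 : (0:ℝ) < M := by exact_mod_cast hM
  apply le_of_forall_pos_le_add
  intro ε hε
  have hlimj : Tendsto (fun j : ℕ => j * M) atTop atTop := by
    refine tendsto_atTop_mono (fun N => ?_) tendsto_id
    simp only [id]
    nlinarith
  have e1 := hlimj.eventually (hlim.upper x (half_pos hε))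
  set m := μ.real univ with hm
  have e2 : ∀ᶠ j : ℕ in atTop, Real.log m ≤ j * (M * (ε / 2)) := by
    have h1 : Tendsto (fun j : ℕ => (j:ℝ) * (M * (ε / 2))) atTop atTop :=
      tendsto_natCast_atTop_atTop.atTop_mul_const (by positivity)
    exact h1.eventually (eventually_ge_atTop _)
  obtain ⟨j, h1, h2, hj⟩ := (e1.and (e2.and (eventually_ge_atTop 1))).exists
  have hj0 : (0:ℝ) < j := by exact_mod_cast hj
  obtain ⟨p, hp, hp1, hp2⟩ := hQ.pow j
  have hk : 1 ≤ j * M := Nat.mul_pos hj hM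
  have hkc : ((j * M : ℕ) : ℝ) = j * M := by push_cast; ring
  have hp' : p ∈ F.F (ν * ((j * M : ℕ) : ℝ)) (j * M) := by
    rw [hkc]
    have : ν * (j * M) = j * (M * ν) := by ring
    rw [this]
    exact hp
  have h3 := bsum_lower (x := x) hk (h _ hk) hφ hμ hf hp' hp1
  have h4 := hp2.trans h3
  have hb := (h _ hk).bsum_pos (-1) f x
  have hm0 : 0 < m := by
    by_contra hcon
    push Not at hcon
    have h5 : 0 ≤ Real.exp (((j * M : ℕ) : ℝ) * f ν) *
      bsum (-1) f (j * M) (s (j * M)) (lam (j * M)) x := by positivity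
    have h6 := mul_nonpos_of_nonpos_of_nonneg hcon h5
    have h7 := Real.exp_pos (j * (M * y))
    linarith
  have h5 := Real.log_le_log (Real.exp_pos _) h4
  rw [Real.log_exp, Real.log_mul hm0.ne' (by positivity), Real.log_mul (Real.exp_pos _).ne' hb.ne',
    Real.log_exp] at h5
  rw [phik_eq, div_mul_eq_mul_div, one_mul, div_le_iff₀ (by exact_mod_cast hk), hkc] at h1
  rw [hkc] at h5
  have h6 : j * M * y ≤ j * M * (ψ x + f ν + ε) := by nlinarith
  exact le_of_mul_le_mul_left h6 (by positivity)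

/-- Lifting elements to deep levels. -/
lemma ExtSeq.lift (E : ExtSeq ψ a s lam)
    (h : ∀ k, 1 ≤ k → IsAdaptedBasis φ μ F k (s k) (lam k)) (hφ : IsPosMetric φ)
    (hμ : IsVolumeForm μ) (hψ : IsPosMetric ψ) {x : ℂ}
    (hx : ∀ n, (s (E.k n) (E.i n)).eval x ≠ 0) {l : ℕ} (hl : 1 ≤ l) {T : ℂ[X]}
    (hT : T.natDegree ≤ l) (hTb : ∀ z, ‖T.eval z‖ ^ 2 ≤ Real.exp (l * φ z)) {y : ℝ}
    (hy : Real.exp (l * y) ≤ ‖T.eval x‖ ^ 2) {ν : ℝ} (hν : ν < E.Λ) {ε : ℝ} (hε : 0 < ε) :
    ∃ M, 1 ≤ M ∧ QP φ F x M (M * ν) (M * (y - ε)) := by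
  set ν2 := (ν + E.Λ) / 2 with hν2
  have hνν2 : ν < ν2 := by rw [hν2]; linarith
  have hν2Λ : ν2 < E.Λ := by rw [hν2]; linarith
  obtain ⟨n0, hn0⟩ := ((tendsto_order.1 E.l_lim).1 ν2 hν2Λ).exists
  set k := E.k n0 with hk
  set t := s (E.k n0) (E.i n0) with ht
  have ht0 : t ≠ 0 := (h _ (E.one_le n0)).ne_zero hφ hμ _
  obtain ⟨C0, hC0, hC⟩ := hφ.bd
  have hφlow : ∀ z, -C0 ≤ φ z := by
    intro z
    have h1 := (abs_le.1 (hC z)).1
    have h2 : 0 ≤ Real.log (1 + ‖z‖ ^ 2) := Real.log_nonneg (by nlinarith [norm_nonneg z])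
    linarith
  obtain ⟨B, hB1, hB⟩ : ∃ B, 1 ≤ B ∧ ∀ a ∈ t.roots, ∀ z, ‖z - a‖ ^ 2 ≤ B * Real.exp (φ z) := by
    have h1 : ∀ a : ℂ, ∃ B, 0 < B ∧ ∀ z, ‖z - a‖ ^ 2 ≤ B * Real.exp (φ z) := by
      intro a
      obtain ⟨B, hB0, hB⟩ := hφ.poly_bd (k := 1) (p := X - C a) (natDegree_X_sub_C_le a)
      refine ⟨B, hB0, fun z => ?_⟩
      have h2 := hB z
      simpa using h2
    choose Bf hBf0 hBf using h1
    refine ⟨1 + ∑ a ∈ t.roots.toFinset, Bf a, ?_, fun a ha z => ?_⟩
    · have : 0 ≤ ∑ a ∈ t.roots.toFinset, Bf a := Finset.sum_nonneg fun a _ => (hBf0 a).le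
      linarith
    · refine (hBf a z).trans ?_
      apply mul_le_mul_of_nonneg_right _ (Real.exp_pos _).le
      have h2 := Finset.single_le_sum (f := Bf) (fun a _ => (hBf0 a).le)
        (Multiset.mem_toFinset.2 ha)
      linarith
  obtain ⟨b, hb0, hb1, hb⟩ : ∃ b, 0 < b ∧ b ≤ 1 ∧ ∀ a ∈ t.roots, b ≤ ‖x - a‖ ^ 2 := by
    have h1 : ∀ a ∈ t.roots, 0 < ‖x - a‖ ^ 2 := by
      intro a ha
      have h2 : x ≠ a := by
        rintro rfl
        rw [mem_roots ht0] at ha
        exact hx n0 ha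
      have := norm_pos_iff.2 (sub_ne_zero.2 h2)
      positivity
    by_cases hne : t.roots.toFinset.Nonempty
    · obtain ⟨a0, ha0, hmin⟩ := t.roots.toFinset.exists_min_image (fun a => ‖x - a‖ ^ 2) hne
      refine ⟨min 1 (‖x - a0‖ ^ 2), lt_min one_pos (h1 a0 (Multiset.mem_toFinset.1 ha0)),
        min_le_left _ _, fun a ha => ?_⟩
      exact (min_le_right _ _).trans (hmin a (Multiset.mem_toFinset.2 ha))
    · refine ⟨1, one_pos, le_rfl, fun a ha => ?_⟩
      exact absurd ⟨a, Multiset.mem_toFinset.2 ha⟩ hne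
  set D := k * (Real.log B + |Real.log b|) + (1 + k) * (C0 + |y|) + 1 with hD
  have hlB : 0 ≤ Real.log B := Real.log_nonneg hB1
  have hD0 : 0 < D := by positivity
  obtain ⟨k', S, κ, hk', hS1, hS2, hS3, hS4, hS5⟩ := E.approx h hφ hμ hψ hν2Λ hn0.le
    (δ := ε / (2 * D)) (by positivity)
  rw [← hk] at hS2 hS3 hS4 hS5
  set δ := ε / (2 * D) with hδ
  have hδ0 : 0 < δ := by positivity
  have hδD : δ * D = ε / 2 := by rw [hδ]; field_simp
  set K := k * k' with hK
  have hK1 : 1 ≤ K := Nat.mul_pos (E.one_le n0) hk'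
  have hK0 : (0:ℝ) < K := by exact_mod_cast hK1
  have hKr : (1:ℝ) ≤ K := by exact_mod_cast hK1
  obtain ⟨N, hN1, hN2⟩ : ∃ N : ℕ, (F.C + ν) / (ν2 - ν) ≤ N ∧
      l * (C0 + |y|) / (ε / 2) ≤ N := by
    obtain ⟨N, hN⟩ := exists_nat_ge (max ((F.C + ν) / (ν2 - ν)) (l * (C0 + |y|) / (ε / 2)))
    exact ⟨N, (le_max_left _ _).trans hN, (le_max_right _ _).trans hN⟩
  rw [div_le_iff₀ (by linarith)] at hN1 hN2
  set α := (K + N * κ) / l with hα
  have hα1 : α * l ≤ K + N * κ := Nat.div_mul_le_self _ _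
  have hα2 : K + N * κ < α * l + l := by
    have := Nat.lt_div_mul_add (a := K + N * κ) (b := l) hl
    exact this
  set M := (N + 1) * K with hM
  have hM1 : 1 ≤ M := Nat.mul_pos (Nat.succ_pos _) hK1
  have hMc : (M : ℝ) = (N + 1) * K := by rw [hM]; push_cast; ring
  have hN0 : (0:ℝ) ≤ N := Nat.cast_nonneg N
  set s0 := pr S ^ N * T ^ α with hs0
  have hmem : s0 ∈ F.F (M * ν) M := by
    have h1 : (T ^ α).natDegree ≤ K + N * κ := by
      refine natDegree_pow_le.trans ?_
      refine (Nat.mul_le_mul_left α hT).trans hα1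
    refine F.anti _ ?_ (hS5 N _ h1)
    rw [hMc]
    nlinarith
  set q := N * Multiset.card S with hq
  have hqM : q + α * l ≤ M := by
    rw [hq, hM]
    have h1 : N * (κ + Multiset.card S) ≤ N * K := Nat.mul_le_mul_left N hS3
    nlinarith
  have hprB : ∀ z, ‖(pr S).eval z‖ ^ 2 ≤ (B * Real.exp (φ z)) ^ Multiset.card S := by
    intro z
    rw [eval_pr]
    have : ∀ S' : Multiset ℂ, S' ≤ S →
        ‖(S'.map (fun a => z - a)).prod‖ ^ 2 ≤ (B * Real.exp (φ z)) ^ Multiset.card S' := by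
      intro S'
      induction S' using Multiset.induction with
      | empty => intro _; simp
      | cons a S' ih =>
        intro hle
        rw [Multiset.map_cons, Multiset.prod_cons, Multiset.card_cons, norm_mul, mul_pow,
          pow_succ' (B * Real.exp (φ z)) (Multiset.card S')]
        apply mul_le_mul
        · exact hB a (hS1 a (Multiset.mem_of_le hle (Multiset.mem_cons_self a S'))) z
        · exact ih ((Multiset.le_cons_self S' a).trans hle)
        · positivity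
        · positivity
    exact this S le_rfl
  have hprb : b ^ Multiset.card S ≤ ‖(pr S).eval x‖ ^ 2 := by
    rw [eval_pr]
    have : ∀ S' : Multiset ℂ, S' ≤ S →
        b ^ Multiset.card S' ≤ ‖(S'.map (fun a => x - a)).prod‖ ^ 2 := by
      intro S'
      induction S' using Multiset.induction with
      | empty => intro _; simp
      | cons a S' ih =>
        intro hle
        rw [Multiset.map_cons, Multiset.prod_cons, Multiset.card_cons, norm_mul, mul_pow,
          pow_succ' b (Multiset.card S')]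
        apply mul_le_mul
        · exact hb a (hS1 a (Multiset.mem_of_le hle (Multiset.mem_cons_self a S')))
        · exact ih ((Multiset.le_cons_self S' a).trans hle)
        · positivity
        · positivity
    exact this S le_rfl
  have hs0e : ∀ z, ‖s0.eval z‖ ^ 2 = (‖(pr S).eval z‖ ^ 2) ^ N * (‖T.eval z‖ ^ 2) ^ α := by
    intro z
    rw [hs0, eval_mul, eval_pow, eval_pow, norm_mul, norm_pow, norm_pow, mul_pow]
    ring
  have hqr : (q : ℝ) = N * Multiset.card S := by rw [hq]; push_cast; ring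
  have hqMr : (q : ℝ) + α * l ≤ M := by exact_mod_cast hqM
  set E1 := q * Real.log B + (M - q - α * l) * C0 with hE1
  have hupper : ∀ z, ‖s0.eval z‖ ^ 2 ≤ Real.exp (E1 + M * φ z) := by
    intro z
    rw [hs0e]
    have h1 : (‖(pr S).eval z‖ ^ 2) ^ N ≤ Real.exp (q * (Real.log B + φ z)) := by
      calc (‖(pr S).eval z‖ ^ 2) ^ N ≤ ((B * Real.exp (φ z)) ^ Multiset.card S) ^ N :=
            pow_le_pow_left₀ (by positivity) (hprB z) N
        _ = (B * Real.exp (φ z)) ^ q := by rw [← pow_mul, hq, mul_comm (Multiset.card S) N]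
        _ = (Real.exp (Real.log B + φ z)) ^ q := by
            rw [Real.exp_add, Real.exp_log (by linarith)]
        _ = _ := by rw [← Real.exp_nat_mul]
    have h2 : (‖T.eval z‖ ^ 2) ^ α ≤ Real.exp (α * (l * φ z)) := by
      rw [Real.exp_nat_mul]
      exact pow_le_pow_left₀ (by positivity) (hTb z) α
    calc (‖(pr S).eval z‖ ^ 2) ^ N * (‖T.eval z‖ ^ 2) ^ α ≤
          Real.exp (q * (Real.log B + φ z)) * Real.exp (α * (l * φ z)) :=
          mul_le_mul h1 h2 (by positivity) (Real.exp_pos _).le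
      _ = Real.exp (q * (Real.log B + φ z) + α * (l * φ z)) := (Real.exp_add _ _).symm
      _ ≤ _ := by
          apply Real.exp_le_exp.2
          have h3 := hφlow z
          have h4 : 0 ≤ ((M:ℝ) - q - α * l) * (φ z + C0) :=
            mul_nonneg (by linarith) (by linarith)
          have h5 : E1 + M * φ z - (q * (Real.log B + φ z) + α * (l * φ z)) =
              ((M:ℝ) - q - α * l) * (φ z + C0) := by rw [hE1]; ring
          linarith
  have hlower : Real.exp (-(q * |Real.log b|) + α * (l * y)) ≤ ‖s0.eval x‖ ^ 2 := by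
    rw [hs0e, Real.exp_add]
    apply mul_le_mul _ _ (Real.exp_pos _).le (by positivity)
    · calc Real.exp (-(q * |Real.log b|)) ≤ b ^ q := by
            have h1 : b ^ q = Real.exp (q * Real.log b) := by
              rw [Real.exp_nat_mul, Real.exp_log hb0]
            rw [h1]
            apply Real.exp_le_exp.2
            have h2 := neg_abs_le (Real.log b)
            have h3 : (0:ℝ) ≤ q := Nat.cast_nonneg q
            nlinarith
        _ = (b ^ Multiset.card S) ^ N := by rw [← pow_mul, hq, mul_comm (Multiset.card S) N]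
        _ ≤ _ := pow_le_pow_left₀ (by positivity) hprb N
    · rw [Real.exp_nat_mul]
      exact pow_le_pow_left₀ (Real.exp_pos _).le hy α
  refine ⟨M, hM1, C ((Real.exp (-E1 / 2) : ℝ) : ℂ) * s0, ?_, fun z => ?_, ?_⟩
  · rw [← smul_eq_C_mul]
    exact Submodule.smul_mem _ _ hmem
  · rw [eval_mul, eval_C, norm_mul, Complex.norm_real, Real.norm_of_nonneg (Real.exp_pos _).le,
      mul_pow, ← Real.exp_nat_mul]
    calc Real.exp (((2:ℕ):ℝ) * (-E1 / 2)) * ‖s0.eval z‖ ^ 2 ≤
          Real.exp (((2:ℕ):ℝ) * (-E1 / 2)) * Real.exp (E1 + M * φ z) :=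
          mul_le_mul_of_nonneg_left (hupper z) (Real.exp_pos _).le
      _ = Real.exp (M * φ z) := by
          rw [← Real.exp_add]
          congr 1
          push_cast
          ring
  · rw [eval_mul, eval_C, norm_mul, Complex.norm_real, Real.norm_of_nonneg (Real.exp_pos _).le,
      mul_pow, ← Real.exp_nat_mul]
    refine le_trans ?_ (mul_le_mul_of_nonneg_left hlower (Real.exp_pos _).le)
    rw [← Real.exp_add]
    apply Real.exp_le_exp.2
    push_cast
    have hcardr : (q : ℝ) ≤ k * δ * M := by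
      rw [hqr, hMc]
      have h1 : (N:ℝ) * Multiset.card S ≤ N * (k * δ * K) := mul_le_mul_of_nonneg_left hS2 hN0
      have h2 : 0 ≤ k * δ * K := by positivity
      nlinarith
    have hα2r : (K : ℝ) + N * κ < α * l + l := by exact_mod_cast hα2
    have hMα : (M : ℝ) - α * l ≤ (1 + k) * δ * M + l := by
      have h1 : (N:ℝ) * (K - κ) ≤ N * ((1 + k) * δ * K) :=
        mul_le_mul_of_nonneg_left (by linarith) hN0
      have h2 : 0 ≤ (1 + k) * δ * K := by positivity
      rw [hMc]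
      nlinarith
    have hq0 : (0:ℝ) ≤ q := Nat.cast_nonneg q
    have hlast : l * (C0 + |y|) ≤ ε / 2 * M := by
      rw [hMc]
      have h1 : 0 ≤ ε / 2 * (N * (K - 1)) := by
        apply mul_nonneg (by positivity)
        apply mul_nonneg hN0
        linarith
      nlinarith
    have hy1 : (M - α * l) * y ≤ (M - α * l) * |y| := by
      apply mul_le_mul_of_nonneg_left (le_abs_self y)
      linarith
    have hab : 0 ≤ |Real.log b| := abs_nonneg _
    have h1 : q * (Real.log B + |Real.log b|) ≤ k * δ * M * (Real.log B + |Real.log b|) :=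
      mul_le_mul_of_nonneg_right hcardr (by positivity)
    have h2 : (M - α * l) * (C0 + |y|) ≤ ((1 + k) * δ * M + l) * (C0 + |y|) :=
      mul_le_mul_of_nonneg_right hMα (by positivity)
    have h3 : k * δ * M * (Real.log B + |Real.log b|) + (1 + k) * δ * M * (C0 + |y|) ≤
        ε / 2 * M := by
      rw [← hδD, hD]
      have h4 : 0 ≤ δ * M := by positivity
      have h5 : δ * (k * (Real.log B + |Real.log b|) + (1 + k) * (C0 + |y|) + 1) * M =
        k * δ * M * (Real.log B + |Real.log b|) + (1 + k) * δ * M * (C0 + |y|) + δ * M := by ring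
      linarith
    have h5 : 0 ≤ q * C0 := by positivity
    have h6 : (M:ℝ) * (y - ε) = M * y - ε / 2 * M - ε / 2 * M := by ring
    have h7 : 2 * (-E1 / 2) + (-(q * |Real.log b|) + α * (l * y)) =
        M * y - (q * (Real.log B + |Real.log b|) + ((M - α * l) * y + (M - α * l) * C0)
          - q * C0) := by
      rw [hE1]
      ring
    have h8 : (M - α * l) * (C0 + |y|) = (M - α * l) * C0 + (M - α * l) * |y| := by ring
    have h9 : ((1 + k) * δ * M + l) * (C0 + |y|) =
        (1 + k) * δ * M * (C0 + |y|) + l * (C0 + |y|) := by ring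
    rw [h6, h7]
    linarith

end

end Pool.Agent.TH599.FC
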