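import Pool.Agent.TH599.FC.BM

set_option autoImplicit false

/-! A Hartogs lemma for logarithms of polynomials, and propagation of extremality. -/

namespace Pool.Agent.TH599.FC

open MeasureTheory Set Metric Real Polynomial Filter Topology

lemma integral_ball_const (w : ℂ) {R : ℝ} (hR : 0 < R) (c : ℝ) :
    ∫ _ in ball w R, c = π * R ^ 2 * c := by
  apply le_antisymm
  · exact integral_ball_le (h := fun _ => c) continuous_const w hR
      (fun ρ _ _ => (circleAverage_const c w ρ).le)
  · exact le_integral_ball (h := fun _ => c) continuous_const w hR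
      (fun ρ _ _ => (circleAverage_const c w ρ).ge)

lemma integrableOn_ball {h : ℂ → ℝ} (hc : Continuous h) (w : ℂ) (R : ℝ) :
    IntegrableOn h (ball w R) :=
  (hc.continuousOn.integrableOn_compact (isCompact_closedBall w R)).mono_set
    ball_subset_closedBall

/-- Hartogs lemma. -/
lemma hartogs {u : ℕ → ℂ → ℝ} {ψ : ℂ → ℝ} (hψ : Continuous ψ)
    (hu : ∀ᶠ k in atTop, Continuous (u k))
    (hbd : ∀ K : Set ℂ, IsCompact K → ∃ B : ℝ, ∀ᶠ k in atTop, ∀ z ∈ K, u k z ≤ B)
    (hlim : ∀ z, ∀ ε > 0, ∀ᶠ k in atTop, u k z ≤ ψ z + ε)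
    {K : Set ℂ} (hK : IsCompact K) {ε : ℝ} (hε : 0 < ε) :
    ∀ᶠ k : ℕ in atTop, ∀ (p : ℂ[X]) (a : ℝ),
      (∀ z, p.eval z ≠ 0 → 1 / (k : ℝ) * Real.log (‖p.eval z‖ ^ 2) - a ≤ u k z) →
      ∀ z ∈ K, ‖p.eval z‖ ^ 2 ≤ Real.exp (k * (ψ z + a + ε)) := by
  set K' := cthickening 1 K with hK'
  have hK'c : IsCompact K' := hK.cthickening
  obtain ⟨B, hB⟩ := hbd K' hK'c
  obtain ⟨B', hB'⟩ := hK'c.exists_bound_of_continuousOn hψ.continuousOn
  obtain ⟨r, hr0, hr1, hr⟩ : ∃ r, 0 < r ∧ r ≤ 1 ∧ ∀ z ∈ K, ∀ w, dist w z < r →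
      ψ w ≤ ψ z + ε / 3 := by
    have hu' := hK'c.uniformContinuousOn_of_continuous hψ.continuousOn
    rw [Metric.uniformContinuousOn_iff] at hu'
    obtain ⟨δ, hδ0, hδ⟩ := hu' (ε / 3) (by linarith)
    refine ⟨min δ 1, by positivity, min_le_right _ _, fun z hz w hw => ?_⟩
    have hzm : z ∈ K' := self_subset_cthickening K hz
    have hwm : w ∈ K' := by
      apply mem_cthickening_of_dist_le w z 1 K hz
      exact (hw.trans_le (min_le_right _ _)).le
    have := hδ w hwm z hzm (hw.trans_le (min_le_left _ _))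
    rw [Real.dist_eq] at this
    linarith [(abs_lt.1 this).2]
  have hD : Tendsto (fun k => ∫ z in K', max (u k z - ψ z) 0) atTop (𝓝 0) := by
    have h0 : Tendsto (fun k => ∫ z in K', max (u k z - ψ z) 0) atTop (𝓝 (∫ z in K', (0:ℝ))) := by
     apply tendsto_integral_filter_of_dominated_convergence (fun _ => |B| + |B'|)
     · filter_upwards [hu] with k hk
       exact ((hk.sub hψ).max continuous_const).aestronglyMeasurable
     · filter_upwards [hB] with k hk
       rw [ae_restrict_iff' hK'c.measurableSet]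
       refine Eventually.of_forall fun z hz => ?_
       rw [Real.norm_of_nonneg (le_max_right _ _)]
       apply max_le
       · have h1 := hk z hz
         have h2 := hB' z hz
         rw [Real.norm_eq_abs] at h2
         have h3 := (abs_le.1 h2).1
         have h4 := le_abs_self B
         have h5 := le_abs_self B'
         linarith
       · positivity
     · exact (continuous_const.continuousOn.integrableOn_compact hK'c)
     · rw [ae_restrict_iff' hK'c.measurableSet]
       refine Eventually.of_forall fun z _ => ?_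
       rw [Metric.tendsto_nhds]
       intro η hη
       filter_upwards [hlim z (η / 2) (by linarith)] with k hk
       rw [Real.dist_eq, sub_zero, abs_of_nonneg (le_max_right _ _)]
       apply max_lt
       · linarith
       · exact hη
    simpa using h0
  have hD' := (tendsto_order.1 hD).2 (π * r ^ 2 * (ε / 3)) (by positivity)
  filter_upwards [hD', hu, eventually_ge_atTop 1] with k hDk huk hk1
  intro p a hpa z hz
  have hk0 : (0:ℝ) < k := by exact_mod_cast hk1
  set m := Real.exp (k * (ψ z + a)) with hm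
  have hm0 : 0 < m := Real.exp_pos _
  have h1 := le_integral_ball (continuous_tlog p hm0) z hr0
    (fun ρ hρ _ => tlog_le_circleAverage p hm0 z hρ)
  have hballK : ball z r ⊆ K' := by
    intro w hw
    apply mem_cthickening_of_dist_le w z 1 K hz
    exact (le_of_lt hw).trans hr1
  have hmaxc : Continuous (fun w => max (u k w - ψ w) 0) := (huk.sub hψ).max continuous_const
  have h2 : ∫ w in ball z r, tlog p m w ≤
      ∫ w in ball z r, (k * (a + ψ z + ε / 3) + k * max (u k w - ψ w) 0) := by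
    apply setIntegral_mono_on
    · exact integrableOn_ball (continuous_tlog p hm0) z r
    · exact integrableOn_ball (continuous_const.add (continuous_const.mul hmaxc)) z r
    · exact measurableSet_ball
    · intro w hw
      have h3 : 0 ≤ max (u k w - ψ w) 0 := le_max_right _ _
      unfold tlog
      rcases le_total (‖p.eval w‖ ^ 2) m with h | h
      · rw [max_eq_right h, hm, Real.log_exp]
        have : 0 ≤ k * max (u k w - ψ w) 0 := by positivity
        nlinarith
      · rw [max_eq_left h]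
        have hpw : p.eval w ≠ 0 := by
          intro h0
          rw [h0] at h
          simp at h
          linarith
        have h4 := hpa w hpw
        have h5 := hr z hz w hw
        have h6 := le_max_left (u k w - ψ w) 0
        have h7 : Real.log (‖p.eval w‖ ^ 2) = k * (1 / (k:ℝ) * Real.log (‖p.eval w‖ ^ 2)) := by
          field_simp
        rw [h7, ← mul_add]
        apply mul_le_mul_of_nonneg_left _ hk0.le
        linarith
  have h3 : ∫ w in ball z r, (k * (a + ψ z + ε / 3) + k * max (u k w - ψ w) 0) =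
      π * r ^ 2 * (k * (a + ψ z + ε / 3)) + k * ∫ w in ball z r, max (u k w - ψ w) 0 := by
    rw [integral_add (integrableOn_ball continuous_const z r)
      (integrableOn_ball (by fun_prop) z r), integral_ball_const z hr0,
      integral_const_mul]
  have h4 : ∫ w in ball z r, max (u k w - ψ w) 0 ≤ ∫ w in K', max (u k w - ψ w) 0 := by
    apply setIntegral_mono_set
    · exact hmaxc.continuousOn.integrableOn_compact hK'c
    · exact Eventually.of_forall fun w => le_max_right _ _
    · exact hballK.eventuallyLE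
  have h5 : π * r ^ 2 * tlog p m z ≤ π * r ^ 2 * (k * (ψ z + a + ε)) := by
    have h6 : k * ∫ w in ball z r, max (u k w - ψ w) 0 ≤ k * (π * r ^ 2 * (ε / 3)) :=
      mul_le_mul_of_nonneg_left (h4.trans hDk.le) hk0.le
    have h7 : 0 ≤ π * r ^ 2 * (k * (ε / 3)) := by positivity
    nlinarith
  have h6 : tlog p m z ≤ k * (ψ z + a + ε) := le_of_mul_le_mul_left h5 (by positivity)
  unfold tlog at h6
  have h7 : 0 < max (‖p.eval z‖ ^ 2) m := lt_of_lt_of_le hm0 (le_max_right _ _)
  rw [Real.log_le_iff_le_exp h7] at h6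
  exact (le_max_left _ _).trans h6

/-- `t n` is extremal for `ψ + c` near `x`. -/
def NearExt (ψ : ℂ → ℝ) (c : ℝ) (k : ℕ → ℕ) (t : ℕ → ℂ[X]) (x : ℂ) : Prop :=
  ∀ η > 0, ∀ ε > 0, ∀ᶠ n in atTop, ∃ w ∈ ball x η,
    Real.exp (k n * (ψ w + c - ε)) ≤ ‖(t n).eval w‖ ^ 2

/-- `ψ + c` is an asymptotic upper bound for `t n`, locally uniformly. -/
def UpperBd (ψ : ℂ → ℝ) (c : ℝ) (k : ℕ → ℕ) (t : ℕ → ℂ[X]) : Prop :=
  ∀ K : Set ℂ, IsCompact K → ∀ ε > 0, ∀ᶠ n in atTop, ∀ z ∈ K,
    ‖(t n).eval z‖ ^ 2 ≤ Real.exp (k n * (ψ z + c + ε))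

lemma nearExt_step {Ω : Set ℂ} {ψ : ℂ → ℝ} (hψ : Continuous ψ)
    (hmean : ∀ (w : ℂ) (R : ℝ), 0 < R → closedBall w R ⊆ Ω →
      ∫ z in ball w R, ψ z ≤ π * R ^ 2 * ψ w)
    {c : ℝ} {k : ℕ → ℕ} {t : ℕ → ℂ[X]} (hk : ∀ n, 1 ≤ k n) (hup : UpperBd ψ c k t)
    {x y : ℂ} {R : ℝ} (hR : 0 < R) (hx : closedBall x (2 * R) ⊆ Ω) (hy : dist y x < R / 2)
    (h : NearExt ψ c k t x) : NearExt ψ c k t y := by
  -- first for small parameters
  suffices H : ∀ η > 0, η ≤ R / 4 → ∀ ε > 0, ε ≤ 1 → ∀ᶠ n in atTop, ∃ w ∈ ball y η,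
      Real.exp (k n * (ψ w + c - ε)) ≤ ‖(t n).eval w‖ ^ 2 by
    intro η hη ε hε
    filter_upwards [H (min η (R / 4)) (by positivity) (min_le_right _ _) (min ε 1)
      (by positivity) (min_le_right _ _)] with n hn
    obtain ⟨w, hw, hw2⟩ := hn
    refine ⟨w, ball_subset_ball (min_le_left _ _) hw, le_trans ?_ hw2⟩
    apply Real.exp_le_exp.2
    apply mul_le_mul_of_nonneg_left _ (Nat.cast_nonneg _)
    linarith [min_le_left ε 1]
  intro η hη hηR ε hε hε1
  set K := closedBall x (2 * R) with hK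
  have hKc : IsCompact K := isCompact_closedBall _ _
  obtain ⟨B, hB⟩ := hKc.exists_bound_of_continuousOn hψ.continuousOn
  set δ := η ^ 2 * ε / (4 * R ^ 2) with hδ
  have hδ0 : 0 < δ := by positivity
  filter_upwards [h (R / 4) (by positivity) δ hδ0, hup K hKc δ hδ0] with n hn1 hn2
  obtain ⟨w, hw, hw2⟩ := hn1
  by_contra hcon
  push Not at hcon
  have hkn : (0:ℝ) < k n := by exact_mod_cast hk n
  set b := -B + c - 2 with hb
  set m := Real.exp (k n * b) with hm
  have hm0 : 0 < m := Real.exp_pos _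
  have hbψ : ∀ z ∈ K, b ≤ ψ z + c - 2 := by
    intro z hz
    have := hB z hz
    rw [Real.norm_eq_abs] at this
    linarith [(abs_le.1 this).1]
  have hwR : closedBall w R ⊆ K := by
    intro z hz
    rw [mem_closedBall] at hz ⊢
    rw [mem_ball] at hw
    linarith [dist_triangle z w x]
  have hyw : ball y η ⊆ ball w R := by
    intro z hz
    rw [mem_ball] at hz hw ⊢
    have h1 := dist_triangle z y w
    have h2 := dist_triangle y x w
    rw [dist_comm x w] at h2
    linarith
  have htc := continuous_tlog (t n) hm0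
  set v : ℂ → ℝ := fun z => k n * (ψ z + c + δ) - tlog (t n) m z with hv
  have hvc : Continuous v := by
    simp only [hv]
    fun_prop
  have hv0 : ∀ z ∈ K, 0 ≤ v z := by
    intro z hz
    simp only [hv, tlog]
    rw [sub_nonneg, Real.log_le_iff_le_exp (lt_of_lt_of_le hm0 (le_max_right _ _))]
    apply max_le (hn2 z hz)
    rw [hm]
    apply Real.exp_le_exp.2
    apply mul_le_mul_of_nonneg_left _ hkn.le
    linarith [hbψ z hz]
  have h1 : ∫ z in ball w R, v z ≤ π * R ^ 2 * v w := by
    simp only [hv]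
    rw [integral_sub (integrableOn_ball (by fun_prop) w R) (integrableOn_ball htc w R)]
    have h2 : ∫ z in ball w R, k n * (ψ z + c + δ) ≤ π * R ^ 2 * (k n * (ψ w + c + δ)) := by
      rw [integral_const_mul]
      have h3 : ∫ z in ball w R, (ψ z + c + δ) =
          (∫ z in ball w R, ψ z) + π * R ^ 2 * (c + δ) := by
        have : (fun z => ψ z + c + δ) = (fun z => ψ z + (c + δ)) := by ext z; ring
        rw [this, integral_add (integrableOn_ball hψ w R) (integrableOn_ball continuous_const w R),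
          integral_ball_const w hR]
      rw [h3]
      have h4 := hmean w R hR (hwR.trans hx)
      have h5 := mul_le_mul_of_nonneg_left h4 hkn.le
      nlinarith
    have h3 := le_integral_ball htc w hR (fun ρ hρ _ => tlog_le_circleAverage (t n) hm0 w hρ)
    linarith
  have h2 : v w ≤ k n * (2 * δ) := by
    simp only [hv, tlog]
    have h3 : k n * (ψ w + c - δ) ≤ Real.log (max (‖(t n).eval w‖ ^ 2) m) := by
      rw [Real.le_log_iff_exp_le (lt_of_lt_of_le hm0 (le_max_right _ _))]
      exact hw2.trans (le_max_left _ _)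
    nlinarith
  have h3 : ∫ z in ball y η, v z ≤ ∫ z in ball w R, v z := by
    apply setIntegral_mono_set (integrableOn_ball hvc w R)
    · rw [EventuallyLE, ae_restrict_iff' measurableSet_ball]
      exact Eventually.of_forall fun z hz => hv0 z (hwR (ball_subset_closedBall hz))
    · exact hyw.eventuallyLE
  have h4 : π * η ^ 2 * (k n * ε) ≤ ∫ z in ball y η, v z := by
    rw [← integral_ball_const y hη (k n * ε)]
    apply setIntegral_mono_on (integrableOn_ball continuous_const y η) (integrableOn_ball hvc y η)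
      measurableSet_ball
    intro z hz
    have hzK : z ∈ K := hwR (ball_subset_closedBall (hyw hz))
    have h5 : tlog (t n) m z ≤ k n * (ψ z + c - ε) := by
      simp only [tlog]
      rw [Real.log_le_iff_le_exp (lt_of_lt_of_le hm0 (le_max_right _ _))]
      apply max_le (hcon z hz).le
      rw [hm]
      apply Real.exp_le_exp.2
      apply mul_le_mul_of_nonneg_left _ hkn.le
      linarith [hbψ z hzK]
    simp only [hv]
    nlinarith
  have h5 : π * η ^ 2 * (k n * ε) ≤ π * R ^ 2 * (k n * (2 * δ)) :=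
    h4.trans (h3.trans (h1.trans (mul_le_mul_of_nonneg_left h2 (by positivity))))
  have h6 : π * R ^ 2 * (k n * (2 * δ)) = π * η ^ 2 * (k n * ε) / 2 := by
    rw [hδ]
    field_simp
    ring
  rw [h6] at h5
  have h7 : 0 < π * η ^ 2 * (k n * ε) := by positivity
  linarith

/-- Extremality propagates from one point to the whole plane. -/
lemma nearExt_all {Ω : Set ℂ} (hΩo : IsOpen Ω) (hΩc : IsPreconnected Ω) (hΩd : Dense Ω)
    {ψ : ℂ → ℝ} (hψ : Continuous ψ)
    (hmean : ∀ (w : ℂ) (R : ℝ), 0 < R → closedBall w R ⊆ Ω →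
      ∫ z in ball w R, ψ z ≤ π * R ^ 2 * ψ w)
    {c : ℝ} {k : ℕ → ℕ} {t : ℕ → ℂ[X]} (hk : ∀ n, 1 ≤ k n) (hup : UpperBd ψ c k t)
    {x0 : ℂ} (hx0 : x0 ∈ Ω) (h0 : NearExt ψ c k t x0) (x : ℂ) : NearExt ψ c k t x := by
  set A : Set ℂ := {x | x ∈ Ω ∧ NearExt ψ c k t x} with hA
  have hrad : ∀ x ∈ Ω, ∃ R, 0 < R ∧ closedBall x (4 * R) ⊆ Ω := by
    intro x hx
    obtain ⟨r, hr0, hr⟩ := Metric.isOpen_iff.1 hΩo x hx
    refine ⟨r / 8, by positivity, ?_⟩
    intro z hz
    apply hr
    rw [mem_closedBall] at hz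
    rw [mem_ball]
    linarith
  have hAo : IsOpen A := by
    rw [Metric.isOpen_iff]
    rintro x ⟨hx, hx2⟩
    obtain ⟨R, hR0, hR⟩ := hrad x hx
    refine ⟨R / 2, by positivity, fun y hy => ?_⟩
    rw [mem_ball] at hy
    refine ⟨hR ?_, ?_⟩
    · rw [mem_closedBall]
      linarith
    · refine nearExt_step hψ hmean hk hup hR0 (Subset.trans ?_ hR) hy hx2
      exact closedBall_subset_closedBall (by linarith)
  have hsub : Ω ⊆ A := by
    apply hΩc.subset_of_closure_inter_subset hAo ⟨x0, hx0, hx0, h0⟩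
    rintro y ⟨hy, hyΩ⟩
    refine ⟨hyΩ, ?_⟩
    obtain ⟨R, hR0, hR⟩ := hrad y hyΩ
    obtain ⟨x, hx, hxy⟩ := Metric.mem_closure_iff.1 hy (R / 2) (by positivity)
    refine nearExt_step hψ hmean hk hup hR0 (Subset.trans ?_ hR) hxy hx.2
    intro z hz
    rw [mem_closedBall] at hz ⊢
    have := dist_triangle z x y
    rw [dist_comm x y] at this
    linarith
  intro η hη ε hε
  obtain ⟨x', hx', hxx'⟩ := hΩd.exists_dist_lt x (half_pos hη)
  filter_upwards [(hsub hx').2 (η / 2) (by positivity) ε hε] with n hn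
  obtain ⟨w, hw, hw2⟩ := hn
  refine ⟨w, ?_, hw2⟩
  rw [mem_ball] at hw ⊢
  have := dist_triangle w x' x
  rw [dist_comm x' x] at this
  linarith

end Pool.Agent.TH599.FC
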