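import Pool.Agent.TH599.FC.Hartogs

set_option autoImplicit false

/-! Extremal sequences have small vanishing orders and large degree. -/

namespace Pool.Agent.TH599.FC

open MeasureTheory Set Metric Real Polynomial Filter Topology

lemma zero_bound {t : ℂ[X]} {a : ℂ} {m : ℕ} (hm : (X - C a) ^ m ∣ t) {M : ℝ}
    (h : ∀ w, dist w a = 1 → ‖t.eval w‖ ≤ M) {w : ℂ} (hw : dist w a ≤ 1) :
    ‖t.eval w‖ ≤ dist w a ^ m * M := by
  obtain ⟨q, rfl⟩ := hm
  have h1 : ∀ w, ‖((X - C a) ^ m * q).eval w‖ = dist w a ^ m * ‖q.eval w‖ := by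
    intro w
    rw [eval_mul, eval_pow, eval_sub, eval_X, eval_C, norm_mul, norm_pow, dist_eq_norm]
  rw [h1]
  apply mul_le_mul_of_nonneg_left _ (by positivity)
  apply Complex.norm_le_of_forall_mem_frontier_norm_le (U := ball a 1) isBounded_ball
    (q.differentiable.diffContOnCl)
  · intro z hz
    rw [frontier_ball _ one_ne_zero, mem_sphere] at hz
    have h2 := h z hz
    rw [h1, hz, one_pow, one_mul] at h2
    exact h2
  · rw [closure_ball _ one_ne_zero, mem_closedBall]
    exact hw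

lemma ord_small {ψ : ℂ → ℝ} (hψ : Continuous ψ) {c : ℝ} {k : ℕ → ℕ} {t : ℕ → ℂ[X]}
    (hk : ∀ n, 1 ≤ k n) (hup : UpperBd ψ c k t) {a : ℂ}
    (hnear : NearExt ψ c k t a) {δ : ℝ} (hδ : 0 < δ) :
    ∀ᶠ n in atTop, ((t n).rootMultiplicity a : ℝ) ≤ δ * k n := by
  obtain ⟨B, hB⟩ := (isCompact_closedBall a 1).exists_bound_of_continuousOn hψ.continuousOn
  have hB0 : 0 ≤ B := (norm_nonneg _).trans (hB a (by simp))
  set M := B + |c| + 1 with hM
  have hM0 : 0 < M := by positivity
  have hη0 : 0 < Real.exp (-(M / δ)) := Real.exp_pos _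
  have hη1 : Real.exp (-(M / δ)) ≤ 1 := by
    rw [Real.exp_le_one_iff]
    have : 0 < M / δ := by positivity
    linarith
  filter_upwards [hup _ (isCompact_closedBall a 1) 1 one_pos, hnear _ hη0 1 one_pos] with n h1 h2
  obtain ⟨w, hw, hw2⟩ := h2
  have hkn : (0:ℝ) < k n := by exact_mod_cast hk n
  rw [mem_ball] at hw
  have hψb : ∀ z ∈ closedBall a 1, |ψ z| ≤ B := fun z hz => by
    have := hB z hz
    rwa [Real.norm_eq_abs] at this
  have hM1 : ∀ z, dist z a = 1 → ‖(t n).eval z‖ ≤ Real.exp (k n * M / 2) := by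
    intro z hz
    have hz' : z ∈ closedBall a 1 := by rw [mem_closedBall]; exact hz.le
    have h3 := h1 z hz'
    have h4 : Real.exp (k n * (ψ z + c + 1)) ≤ (Real.exp (k n * M / 2)) ^ 2 := by
      rw [← Real.exp_nat_mul]
      apply Real.exp_le_exp.2
      have h5 := (abs_le.1 (hψb z hz')).2
      have h6 := le_abs_self c
      have h7 : k n * (ψ z + c + 1) ≤ k n * M := by
        apply mul_le_mul_of_nonneg_left _ hkn.le
        linarith
      push_cast
      linarith
    exact (sq_le_sq₀ (norm_nonneg _) (Real.exp_pos _).le).1 (h3.trans h4)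
  have h3 := zero_bound (pow_rootMultiplicity_dvd (t n) a) hM1 (w := w)
    (hw.le.trans hη1)
  set m := (t n).rootMultiplicity a with hm
  have h4 : Real.exp (k n * (ψ w + c - 1)) ≤ (Real.exp (-(M / δ)) ^ m *
      Real.exp (k n * M / 2)) ^ 2 := by
    refine hw2.trans ?_
    apply pow_le_pow_left₀ (norm_nonneg _)
    refine h3.trans ?_
    gcongr
  rw [← Real.exp_nat_mul, ← Real.exp_add, ← Real.exp_nat_mul, Real.exp_le_exp] at h4
  have hwb : w ∈ closedBall a 1 := by
    rw [mem_closedBall]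
    exact hw.le.trans hη1
  have h5 := (abs_le.1 (hψb w hwb)).1
  have h6 := neg_abs_le c
  have h7 : -(k n * M) ≤ k n * (ψ w + c - 1) := by
    rw [← mul_neg]
    apply mul_le_mul_of_nonneg_left _ hkn.le
    linarith
  have h8 : (m : ℝ) * (M / δ) ≤ k n * M := by
    push_cast at h4
    nlinarith
  have h9 : (m : ℝ) * M ≤ δ * k n * M := by
    have h10 : (m : ℝ) * M = δ * (m * (M / δ)) := by field_simp
    rw [h10]
    calc δ * (m * (M / δ)) ≤ δ * (k n * M) := mul_le_mul_of_nonneg_left h8 hδ.le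
      _ = _ := by ring
  exact le_of_mul_le_mul_right h9 hM0

lemma deg_large {ψ : ℂ → ℝ} (hψ : IsPosMetric ψ) {c : ℝ} {k : ℕ → ℕ} {t : ℕ → ℂ[X]}
    (hk : ∀ n, 1 ≤ k n) (hup : UpperBd ψ c k t)
    (hnear : ∀ x, NearExt ψ c k t x) {δ : ℝ} (hδ : 0 < δ) :
    ∀ᶠ n in atTop, (1 - δ) * k n ≤ (t n).natDegree := by
  obtain ⟨B, hB⟩ := (isCompact_closedBall (0:ℂ) 1).exists_bound_of_continuousOn
    hψ.cont.continuousOn
  have hB0 : 0 ≤ B := (norm_nonneg _).trans (hB 0 (by simp))
  obtain ⟨C0, hC0, hC⟩ := hψ.bd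
  set M := B + |c| + 1 with hM
  set M2 := M + C0 + |c| + 1 with hM2
  have hM0 : 0 < M := by positivity
  have hM20 : 0 < M2 := by positivity
  set R : ℝ := Real.exp (M2 / (2 * δ)) + 1 with hR
  filter_upwards [hup _ (isCompact_closedBall (0:ℂ) 1) 1 one_pos, hnear (R:ℂ) 1 one_pos 1 one_pos]
    with n h1 h2
  obtain ⟨w, hw, hw2⟩ := h2
  have hkn : (0:ℝ) < k n := by exact_mod_cast hk n
  have hR1 : 2 ≤ R := by
    have : 1 ≤ Real.exp (M2 / (2 * δ)) := Real.one_le_exp (by positivity)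
    linarith
  have hwn : Real.exp (M2 / (2 * δ)) ≤ ‖w‖ := by
    rw [mem_ball, dist_eq_norm] at hw
    have h3 := norm_sub_norm_le (R:ℂ) w
    rw [norm_sub_rev, Complex.norm_real, Real.norm_of_nonneg (by linarith)] at h3
    linarith
  have hw1 : 1 ≤ ‖w‖ := (Real.one_le_exp (by positivity)).trans hwn
  have hw0 : 0 < ‖w‖ := by linarith
  have hM1 : ∀ z : ℂ, ‖z‖ = 1 → ‖(t n).eval z‖ ≤ Real.exp (k n * M / 2) := by
    intro z hz
    have hz' : z ∈ closedBall (0:ℂ) 1 := by rw [mem_closedBall, dist_zero_right]; exact hz.le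
    have h3 := h1 z hz'
    have h4 : Real.exp (k n * (ψ z + c + 1)) ≤ (Real.exp (k n * M / 2)) ^ 2 := by
      rw [← Real.exp_nat_mul]
      apply Real.exp_le_exp.2
      have h5 := hB z hz'
      rw [Real.norm_eq_abs] at h5
      have h5' := (abs_le.1 h5).2
      have h6 := le_abs_self c
      have h7 : k n * (ψ z + c + 1) ≤ k n * M := by
        apply mul_le_mul_of_nonneg_left _ hkn.le
        linarith
      push_cast
      linarith
    exact (sq_le_sq₀ (norm_nonneg _) (Real.exp_pos _).le).1 (h3.trans h4)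
  have h3 := growth (p := t n) le_rfl one_pos hM1 w hw1
  rw [div_one] at h3
  set d := (t n).natDegree with hd
  have hL : M2 / (2 * δ) ≤ Real.log ‖w‖ := by
    rw [Real.le_log_iff_exp_le hw0]
    exact hwn
  have h4 : Real.exp (k n * (ψ w + c - 1)) ≤ (‖w‖ ^ d * Real.exp (k n * M / 2)) ^ 2 :=
    hw2.trans (pow_le_pow_left₀ (norm_nonneg _) h3 2)
  have h5 := Real.log_le_log (Real.exp_pos _) h4
  rw [Real.log_exp, Real.log_pow, Real.log_mul (by positivity) (Real.exp_pos _).ne',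
    Real.log_pow, Real.log_exp] at h5
  push_cast at h5
  have h6 : 2 * Real.log ‖w‖ - C0 ≤ ψ w := by
    have h7 := (abs_le.1 (hC w)).1
    have h8 : 2 * Real.log ‖w‖ ≤ Real.log (1 + ‖w‖ ^ 2) := by
      have h9 : 2 * Real.log ‖w‖ = Real.log (‖w‖ ^ 2) := by
        rw [Real.log_pow]; norm_num
      rw [h9]
      exact Real.log_le_log (by positivity) (by linarith)
    linarith
  have h7 := neg_abs_le c
  have h8 : k n * (2 * Real.log ‖w‖ - C0 - |c| - 1) ≤ k n * (ψ w + c - 1) := by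
    apply mul_le_mul_of_nonneg_left _ hkn.le
    linarith
  have h9 : 2 * Real.log ‖w‖ * (k n - d) ≤ k n * M2 := by
    nlinarith
  by_contra hcon
  push Not at hcon
  have h10 : δ * k n < k n - d := by linarith
  have h11 : 0 < δ * k n := by positivity
  have h12 : M2 / δ * (δ * k n) < 2 * Real.log ‖w‖ * (k n - d) := by
    have h13 : M2 / δ ≤ 2 * Real.log ‖w‖ := by
      have : M2 / δ = 2 * (M2 / (2 * δ)) := by field_simp
      rw [this]
      linarith
    have h14 : 0 < M2 / δ := by positivity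
    nlinarith
  have h13 : M2 / δ * (δ * k n) = k n * M2 := by field_simp
  linarith

end Pool.Agent.TH599.FC
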